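import Pool.Agent.Helper96.IT.Fin
import Pool.Agent.Helper56.IT.Stmts

/-!
# Project IT (MP_a499ba_nt). Block A: the critical chaos with phases
-/

set_option autoImplicit false

namespace Pool.Agent.Helper96.IT

open Finset Pool.Agent.Helper5.RM Pool.Agent.Helper96.AF Pool.Agent.Helper96.CM Pool.Agent.Helper66.LW

/-- Mertens on levels -/
lemma mertens_WB : ∃ C : ℝ, 0 ≤ C ∧ ∀ s l : ℕ, s ≤ l → ∑ p ∈ WB s l, (1 : ℝ) / p ≤ Real.log 2 * ((l : ℝ) - s) + C := by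
  obtain ⟨C1, hC1, h1⟩ := Helper66.AF.mertens_upper
  obtain ⟨C2, hC2, h2⟩ := Helper66.AF.mertens_lower
  have hl2 : 0 ≤ Real.log 2 := Real.log_nonneg (by norm_num)
  have hll := abs_nonneg (Real.log (Real.log 2))
  refine ⟨C1 + C2 + |Real.log (Real.log 2)|, by positivity, fun s l hsl => ?_⟩
  have e3 : ∑ p ∈ WB s l, (1 : ℝ) / p + ∑ p ∈ PP (Y s), (1 : ℝ) / p = ∑ p ∈ PP (Y l), (1 : ℝ) / p := by
    unfold WB
    exact Finset.sum_sdiff (PP_Y_mono hsl)
  rcases Nat.eq_zero_or_pos l with rfl | hl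
  · have hs0 : s = 0 := by omega
    subst hs0
    rw [WB_self, Finset.sum_empty]
    push_cast
    linarith
  have b1 := h1 (Y l) (three_le_Y hl)
  rw [loglog_Y] at b1
  have e6 := le_abs_self (Real.log (Real.log 2))
  rcases Nat.eq_zero_or_pos s with rfl | hs
  · have e4 : 0 ≤ ∑ p ∈ PP (Y 0), (1 : ℝ) / p := Finset.sum_nonneg fun p _ => by positivity
    push_cast
    linarith
  · have b2 := h2 (Y s) (three_le_Y hs)
    rw [loglog_Y] at b2
    linarith

/-- the coefficients off the line -/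
noncomputable def cs (σ : ℝ) (p : ℕ) : ℝ := 2 * (p : ℝ) ^ (-(1 / 2 + σ)) / (1 + (p : ℝ) ^ (-(1 + 2 * σ)))

theorem cs_adm {σ : ℝ} (hσ : 0 ≤ σ) (p : ℕ) : 0 ≤ cs σ p ∧ cs σ p ≤ 2 * Real.sqrt p / (p + 1) := by
  unfold cs
  rcases Nat.eq_zero_or_pos p with hp | hp
  · rw [hp]
    rw [Nat.cast_zero, Real.zero_rpow (by linarith), Real.zero_rpow (by linarith)]
    simp
  have hp1 : (1 : ℝ) ≤ p := by exact_mod_cast hp
  have hp0 : (0 : ℝ) < p := by linarith
  refine ⟨by positivity, ?_⟩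
  set x : ℝ := (p : ℝ) ^ (-(1 / 2 + σ)) with hx
  have hx0 : 0 < x := Real.rpow_pos_of_pos hp0 _
  have hx2 : (p : ℝ) ^ (-(1 + 2 * σ)) = x ^ 2 := by
    rw [hx, ← Real.rpow_natCast, ← Real.rpow_mul hp0.le]
    congr 1
    push_cast
    ring
  have hs0 : 0 < Real.sqrt p := Real.sqrt_pos.2 hp0
  have hs2 : Real.sqrt p ^ 2 = p := Real.sq_sqrt hp0.le
  have hxs : x * Real.sqrt p ≤ 1 := by
    rw [hx, Real.sqrt_eq_rpow, ← Real.rpow_add hp0]
    exact Real.rpow_le_one_of_one_le_of_nonpos hp1 (by linarith)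
  have hs1 : 1 ≤ Real.sqrt p := Real.one_le_sqrt.2 hp1
  have hx1 : x ≤ 1 := by
    calc x = x * 1 := (mul_one x).symm
      _ ≤ x * Real.sqrt p := mul_le_mul_of_nonneg_left hs1 hx0.le
      _ ≤ 1 := hxs
  rw [hx2, div_le_div_iff₀ (by positivity) (by positivity)]
  have h1 : 0 ≤ (1 - x * Real.sqrt p) * (Real.sqrt p - x) := mul_nonneg (by linarith) (by linarith)
  have h2 : (1 - x * Real.sqrt p) * (Real.sqrt p - x) = Real.sqrt p * (1 + x ^ 2) - x * (Real.sqrt p ^ 2 + 1) := by ring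
  rw [h2, hs2] at h1
  nlinarith

/-- coefficients and phases up to level `r` -/
noncomputable def cc (σ : ℝ) (r : ℕ) (th : ℕ → ℝ) (p : ℕ) : ℝ × ℝ := if p ≤ Y r then (cs σ p, th p) else (0, 0)

theorem cc_adm {σ : ℝ} (hσ : 0 ≤ σ) (r : ℕ) (th : ℕ → ℝ) : Adm (cc σ r th) := by
  intro p
  unfold cc
  split_ifs
  · exact cs_adm hσ p
  · exact ⟨le_rfl, by positivity⟩

private lemma tc_sq_cos {c : ℕ → ℝ × ℝ} (hc : Adm c) {p : ℕ} (hp : 1 ≤ p) (t : ℝ) :
    tc c p t ^ 2 ≤ 2 * ((1 : ℝ) / p) + 2 * (Real.cos (2 * (t * Real.log p - (c p).2)) / p) := by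
  have hp0 : (1 : ℝ) ≤ p := by exact_mod_cast hp
  have hcos : Real.cos (2 * (t * Real.log p - (c p).2)) = 2 * Real.cos (t * Real.log p - (c p).2) ^ 2 - 1 :=
    Real.cos_two_mul _
  have h1 : (c p).1 ^ 2 ≤ 4 / p := by
    have h2 : (c p).1 ^ 2 ≤ (2 * Real.sqrt p / (p + 1)) ^ 2 := pow_le_pow_left₀ (hc p).1 (hc p).2 2
    refine h2.trans ?_
    rw [div_pow, mul_pow, Real.sq_sqrt (by positivity), div_le_div_iff₀ (by positivity) (by positivity)]
    nlinarith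
  unfold tc
  rw [mul_pow, hcos]
  calc (c p).1 ^ 2 * Real.cos (t * Real.log p - (c p).2) ^ 2 ≤ 4 / p * Real.cos (t * Real.log p - (c p).2) ^ 2 :=
        mul_le_mul_of_nonneg_right h1 (sq_nonneg _)
    _ = 2 * ((1 : ℝ) / p) + 2 * ((2 * Real.cos (t * Real.log p - (c p).2) ^ 2 - 1) / p) := by
        ring

theorem cc_th (s0 : ℕ) : ∃ A : ℝ, ∀ (r : ℕ) (th : ℕ → ℝ), Pool.Agent.IT.PhOK s0 r th → ∀ σ : ℝ, 0 ≤ σ →
    ∀ a : ℝ, 0 ≤ a → Th A a (cc σ r th) := by
  obtain ⟨C, hC, hM⟩ := mertens_WB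
  set A1 : ℝ := ∑ p ∈ PP (Y s0), 4 * ((1 : ℝ) / p) with hA1
  have hA10 : 0 ≤ A1 := Finset.sum_nonneg fun p _ => by positivity
  have hl2 : 0 ≤ Real.log 2 := Real.log_nonneg (by norm_num)
  refine ⟨A1 + 2 * C + 2, fun r th hP σ hσ a ha s l hsl t ht => ?_⟩
  have hc := cc_adm hσ r th
  have hslR : (s : ℝ) ≤ l := by exact_mod_cast hsl
  have hzero : ∀ p : ℕ, Y r < p → tc (cc σ r th) p t ^ 2 = 0 := by
    intro p hp
    unfold tc cc
    rw [if_neg (by omega)]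
    simp
  rcases lt_or_ge r s with hrs | hrs
  · have h0 : ∑ p ∈ WB s l, tc (cc σ r th) p t ^ 2 = 0 := by
      refine Finset.sum_eq_zero fun p hp => hzero p ?_
      have := (mem_WB.1 hp).2.1
      have := Y_mono hrs.le
      omega
    rw [h0]
    have : 0 ≤ 2 * Real.log 2 * ((l : ℝ) - s) := mul_nonneg (by positivity) (by linarith)
    linarith
  set l' := min l r with hl'
  have hsl' : s ≤ l' := le_min hsl hrs
  have hl'l : l' ≤ l := min_le_left _ _
  have hl'r : l' ≤ r := min_le_right _ _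
  have hl'R : (l' : ℝ) ≤ l := by exact_mod_cast hl'l
  have e1 : ∑ p ∈ WB s l, tc (cc σ r th) p t ^ 2 = ∑ p ∈ WB s l', tc (cc σ r th) p t ^ 2 := by
    symm
    refine Finset.sum_subset (WB_mono hl'l) fun p hp hp' => hzero p ?_
    rw [mem_WB] at hp hp'
    by_contra hcon
    apply hp'
    refine ⟨hp.1, hp.2.1, ?_⟩
    rcases le_total l r with h | h
    · rw [hl', min_eq_left h]; exact hp.2.2
    · rw [hl', min_eq_right h]; omega
  rw [e1]
  have hlow : ∀ S : Finset ℕ, S ⊆ PP (Y s0) → ∑ p ∈ S, tc (cc σ r th) p t ^ 2 ≤ A1 := by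
    intro S hS
    calc ∑ p ∈ S, tc (cc σ r th) p t ^ 2 ≤ ∑ p ∈ PP (Y s0), tc (cc σ r th) p t ^ 2 :=
          Finset.sum_le_sum_of_subset_of_nonneg hS fun p _ _ => sq_nonneg _
      _ ≤ A1 := by
          refine Finset.sum_le_sum fun p hp => ?_
          have h2 := tc_sq_le hc (p := p) (mem_PP.1 hp).1.one_lt.le t
          refine h2.trans (le_of_eq ?_)
          ring
  rcases le_or_gt l' s0 with h0 | h0
  · have h2 : WB s l' ⊆ PP (Y s0) := (WB_sub_PP s l').trans (PP_Y_mono h0)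
    have h3 := hlow _ h2
    have : 0 ≤ 2 * Real.log 2 * ((l : ℝ) - s) := mul_nonneg (by positivity) (by linarith)
    linarith
  set m := max s s0 with hm
  have hml : m ≤ l' := max_le hsl' h0.le
  have hsm : s ≤ m := le_max_left _ _
  have hs0m : s0 ≤ m := le_max_right _ _
  have hU : WB s l' = WB s m ∪ WB m l' := by
    ext p
    rw [Finset.mem_union, mem_WB, mem_WB, mem_WB]
    have h1 := Y_mono hsm
    have h2 := Y_mono hml
    constructor
    · rintro ⟨x, y, z⟩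
      by_cases h3 : p ≤ Y m
      · exact Or.inl ⟨x, y, h3⟩
      · exact Or.inr ⟨x, by omega, z⟩
    · rintro (⟨x, y, z⟩ | ⟨x, y, z⟩)
      · exact ⟨x, y, z.trans h2⟩
      · exact ⟨x, by omega, z⟩
  have hD : Disjoint (WB s m) (WB m l') := by
    rw [Finset.disjoint_left]
    intro p hp hq
    rw [mem_WB] at hp hq
    omega
  have hfirst : ∑ p ∈ WB s m, tc (cc σ r th) p t ^ 2 ≤ A1 := by
    refine hlow _ fun p hp => ?_
    rw [mem_WB] at hp
    rw [mem_PP]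
    refine ⟨hp.1, ?_⟩
    rcases le_total s s0 with h | h
    · have : m = s0 := max_eq_right h
      rw [this] at hp
      exact hp.2.2
    · have : m = s := max_eq_left h
      rw [this] at hp
      omega
  have hsecond : ∑ p ∈ WB m l', tc (cc σ r th) p t ^ 2 ≤ 2 * (Real.log 2 * ((l' : ℝ) - m) + C) + 2 * 1 := by
    have h1 : ∑ p ∈ WB m l', tc (cc σ r th) p t ^ 2 ≤
        ∑ p ∈ WB m l', (2 * ((1 : ℝ) / p) + 2 * (Real.cos (2 * (t * Real.log p - th p)) / p)) := by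
      refine Finset.sum_le_sum fun p hp => ?_
      rw [mem_WB] at hp
      have h2 := tc_sq_cos hc hp.1.one_lt.le t
      have h3 : (cc σ r th p).2 = th p := by
        unfold cc
        rw [if_pos (hp.2.2.trans (Y_mono hl'r))]
      rwa [h3] at h2
    refine h1.trans ?_
    rw [Finset.sum_add_distrib, ← Finset.mul_sum, ← Finset.mul_sum]
    have h4 := hP m l' hs0m hml hl'r t ⟨ha.trans ht.1, ht.2⟩
    have h5 := (abs_le.1 h4).2
    have h6 := hM m l' hml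
    unfold WB at h6 ⊢
    linarith
  rw [hU, Finset.sum_union hD]
  have hsmR : (s : ℝ) ≤ m := by exact_mod_cast hsm
  have h7 : 2 * Real.log 2 * ((l' : ℝ) - m) ≤ 2 * Real.log 2 * ((l : ℝ) - s) :=
    mul_le_mul_of_nonneg_left (by linarith) (by positivity)
  linarith

theorem stmtA : Pool.Agent.IT.StmtA := by
  intro s0 δ hδ
  obtain ⟨A, hA⟩ := cc_th s0
  obtain ⟨K0, hK0⟩ := chaos_lower A (1 / 16) (1 / 8) δ (by norm_num) (by norm_num) (by norm_num) hδ
  refine ⟨max K0 4, fun r hr th hP => ?_⟩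
  have hr1 : K0 ≤ r := (le_max_left _ _).trans hr
  have hr2 : 4 ≤ r := (le_max_right _ _).trans hr
  have hs : 0 ≤ sr r := (sr_pos (by omega)).le
  let U : Finset ℝ := (Finset.Icc (2 ^ (r / 4)) (2 ^ r)).image (fun k : ℕ => (k : ℝ))
  have hU1 : U.card ≤ 4 ^ r := by
    refine Finset.card_image_le.trans ?_
    rw [Nat.card_Icc]
    have h1 : 1 ≤ 2 ^ (r / 4) := Nat.one_le_two_pow
    have h2 : 2 ^ r ≤ 4 ^ r := Nat.pow_le_pow_left (by norm_num) r
    refine le_trans ?_ h2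
    rw [tsub_le_iff_right]
    exact Nat.add_le_add_left h1 _
  have hU2 : ∀ u ∈ U, (2 : ℝ) ^ ((r : ℝ) / 16) ≤ |u| := by
    intro u hu
    obtain ⟨k, hk, rfl⟩ := Finset.mem_image.1 hu
    rw [Finset.mem_Icc] at hk
    rw [abs_of_nonneg (Nat.cast_nonneg _)]
    have h1 : (2 : ℝ) ^ ((r : ℝ) / 16) ≤ (2 : ℝ) ^ ((r / 4 : ℕ) : ℝ) := by
      apply Real.rpow_le_rpow_of_exponent_le (by norm_num)
      have h2 : r ≤ 16 * (r / 4) := by omega
      have h3 : (r : ℝ) ≤ 16 * ((r / 4 : ℕ) : ℝ) := by exact_mod_cast h2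
      linarith
    refine h1.trans ?_
    rw [Real.rpow_natCast]
    exact_mod_cast hk.1
  refine le_trans (pr_mono fun T _ hp => ?_)
    (hK0 r hr1 (cc (sr r) r th) (cc_adm hs r th) (hA r th hP (sr r) hs (1 / 16) (by norm_num)) U hU1 hU2)
  obtain ⟨k, hk1, hk2, hk3⟩ := hp
  refine ⟨k, Finset.mem_image.2 ⟨k, Finset.mem_Icc.2 ⟨hk1, hk2⟩, rfl⟩, lt_of_le_of_lt (le_of_eq ?_) hk3⟩
  apply intervalIntegral.integral_congr
  intro t _
  simp only
  rw [mul_comm (1 - _), mul_comm t (k : ℝ)]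
  congr 1
  unfold dc Pool.Agent.IT.ddp tc
  refine Finset.prod_congr rfl fun p hp => ?_
  have h1 : cc (sr r) r th p = (cs (sr r) p, th p) := by
    unfold cc
    rw [if_pos (mem_PP.1 hp).2]
  rw [h1]
  simp only
  unfold cs
  ring

end Pool.Agent.Helper96.IT
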