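import Pool.Agent.Helper96.IT.StA

/-!
# Project IT (MP_a499ba_nt). Block B: random quarter turns make the phases harmless
-/

set_option autoImplicit false

namespace Pool.Agent.Helper96.IT

open Finset Pool.Agent.Helper5.RM Pool.Agent.Helper96.AF Pool.Agent.Helper96.CM

private lemma av_sg2 {S : Finset ℕ} {p q : ℕ} (hp : p ∈ S) (hq : q ∈ S) :
    av S (fun T => sg T p * sg T q) = if p = q then 1 else 0 := by
  by_cases h : p = q
  · subst h
    rw [if_pos rfl]
    simp only [sg_mul_self]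
    exact av_const S 1
  · rw [if_neg h]
    have e : ∀ T : Finset ℕ, sg T p * sg T q = wal T {p, q} := by
      intro T
      unfold wal
      rw [Finset.prod_pair h]
    simp only [e]
    refine av_wal ?_ ⟨p, Finset.mem_insert_self _ _⟩
    intro x hx
    rw [Finset.mem_insert, Finset.mem_singleton] at hx
    rcases hx with rfl | rfl
    · exact hp
    · exact hq

/-- second moment of a sign sum -/
theorem av_sgsum {S Q : Finset ℕ} (hQ : Q ⊆ S) (a : ℕ → ℝ) :
    av S (fun T => (∑ p ∈ Q, sg T p * a p) ^ 2) = ∑ p ∈ Q, a p ^ 2 := by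
  have e : ∀ T : Finset ℕ, (∑ p ∈ Q, sg T p * a p) ^ 2 = ∑ p ∈ Q, ∑ q ∈ Q, (a p * a q) * (sg T p * sg T q) := by
    intro T
    rw [sq, Finset.sum_mul_sum]
    refine Finset.sum_congr rfl fun p _ => Finset.sum_congr rfl fun q _ => ?_
    ring
  simp only [e]
  rw [av_sum]
  refine Finset.sum_congr rfl fun p hp => ?_
  rw [av_sum]
  rw [Finset.sum_eq_single p]
  · rw [av_mul_left, av_sg2 (hQ hp) (hQ hp), if_pos rfl]
    ring
  · intro q hq hqp
    rw [av_mul_left, av_sg2 (hQ hp) (hQ hq), if_neg (Ne.symm hqp), mul_zero]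
  · intro h
    exact absurd hp h

/-- the Sobolev inequality on the unit interval -/
theorem sob {g g' : ℝ → ℝ} (hg : ∀ t, HasDerivAt g (g' t) t) (hc : Continuous g') {t : ℝ} (ht : t ∈ Set.Icc (0 : ℝ) 1) :
    g t ^ 2 ≤ ∫ u in (0 : ℝ)..1, (2 * g u ^ 2 + g' u ^ 2) := by
  have hgc : Continuous g := continuous_iff_continuousAt.2 fun x => (hg x).continuousAt
  have hg2 : Continuous (fun x => g x ^ 2) := hgc.pow 2
  have hd : ∀ x, HasDerivAt (fun y => g y ^ 2) (2 * g x * g' x) x := by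
    intro x
    have h1 := (hg x).pow 2
    refine h1.congr_deriv ?_
    push_cast
    ring
  have hJc : Continuous (fun x => g x ^ 2 + g' x ^ 2) := (hgc.pow 2).add (hc.pow 2)
  have h2c : Continuous (fun x => 2 * g x * g' x) := (continuous_const.mul hgc).mul hc
  set J := ∫ u in (0 : ℝ)..1, (g u ^ 2 + g' u ^ 2) with hJ
  have hnn : ∀ x y : ℝ, 0 ≤ x → x ≤ y → y ≤ 1 → ∫ u in x..y, (g u ^ 2 + g' u ^ 2) ≤ J := by
    intro x y hx hxy hy
    refine intervalIntegral.integral_mono_interval hx hxy hy ?_ (hJc.intervalIntegrable _ _)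
    exact Filter.Eventually.of_forall fun u => by positivity
  have hpt : ∀ u ∈ Set.Icc (0 : ℝ) 1, g t ^ 2 ≤ g u ^ 2 + J := by
    intro u hu
    have h1 : ∫ x in u..t, 2 * g x * g' x = g t ^ 2 - g u ^ 2 :=
      intervalIntegral.integral_eq_sub_of_hasDerivAt (fun x _ => hd x) (h2c.intervalIntegrable _ _)
    rcases le_total u t with hut | hut
    · have h2 : ∫ x in u..t, 2 * g x * g' x ≤ ∫ x in u..t, (g x ^ 2 + g' x ^ 2) := by
        refine intervalIntegral.integral_mono_on hut (h2c.intervalIntegrable _ _) (hJc.intervalIntegrable _ _)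
          fun x _ => ?_
        nlinarith [sq_nonneg (g x - g' x)]
      have h3 := hnn u t hu.1 hut ht.2
      linarith
    · have h2 : ∫ x in t..u, -(2 * g x * g' x) ≤ ∫ x in t..u, (g x ^ 2 + g' x ^ 2) := by
        refine intervalIntegral.integral_mono_on hut (h2c.neg.intervalIntegrable _ _) (hJc.intervalIntegrable _ _)
          fun x _ => ?_
        nlinarith [sq_nonneg (g x + g' x)]
      rw [intervalIntegral.integral_neg] at h2
      have h3 := hnn t u ht.1 hut hu.2
      rw [intervalIntegral.integral_symm] at h1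
      linarith
  have h4 : ∫ _u in (0 : ℝ)..1, g t ^ 2 ≤ ∫ u in (0 : ℝ)..1, (g u ^ 2 + J) := by
    refine intervalIntegral.integral_mono_on zero_le_one (continuous_const.intervalIntegrable _ _)
      ((hg2.add continuous_const).intervalIntegrable _ _) fun u hu => hpt u hu
  have h5 : ∫ _u in (0 : ℝ)..1, g t ^ 2 = g t ^ 2 := by
    rw [intervalIntegral.integral_const]
    simp
  have h6 : ∫ u in (0 : ℝ)..1, (g u ^ 2 + J) = ∫ u in (0 : ℝ)..1, (2 * g u ^ 2 + g' u ^ 2) := by
    have e1 : ∫ u in (0 : ℝ)..1, (g u ^ 2 + J) = (∫ u in (0 : ℝ)..1, g u ^ 2) + J := by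
      rw [intervalIntegral.integral_add (hg2.intervalIntegrable _ _) (continuous_const.intervalIntegrable _ _),
        intervalIntegral.integral_const]
      simp
    rw [e1, hJ, ← intervalIntegral.integral_add (hg2.intervalIntegrable _ _) (hJc.intervalIntegrable _ _)]
    refine intervalIntegral.integral_congr fun u _ => ?_
    ring
  rw [h5, h6] at h4
  exact h4

/-- the sum over one block -/
private noncomputable def gl (ph : ℕ → ℝ) (j : ℕ) (T : Finset ℕ) (t : ℝ) : ℝ :=
  ∑ p ∈ BL j, sg T p * (Real.cos (2 * (t * Real.log p - ph p)) / p)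

private noncomputable def gl' (ph : ℕ → ℝ) (j : ℕ) (T : Finset ℕ) (t : ℝ) : ℝ :=
  ∑ p ∈ BL j, sg T p * (-(2 * Real.log p * Real.sin (2 * (t * Real.log p - ph p))) / p)

private lemma hasDerivAt_gl (ph : ℕ → ℝ) (j : ℕ) (T : Finset ℕ) (t : ℝ) : HasDerivAt (gl ph j T) (gl' ph j T t) t := by
  unfold gl gl'
  refine HasDerivAt.fun_sum fun p _ => ?_
  have h1 : HasDerivAt (fun t : ℝ => 2 * (t * Real.log p - ph p)) (2 * Real.log p) t := by
    simpa using (((hasDerivAt_id t).mul_const (Real.log p)).sub_const (ph p)).const_mul 2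
  have h2 := (h1.cos.div_const (p : ℝ)).const_mul (sg T p)
  refine h2.congr_deriv ?_
  ring

private lemma continuous_gl' (ph : ℕ → ℝ) (j : ℕ) (T : Finset ℕ) : Continuous (gl' ph j T) := by
  unfold gl'
  refine continuous_finsetSum _ fun p _ => ?_
  fun_prop

private lemma continuous_gl (ph : ℕ → ℝ) (j : ℕ) (T : Finset ℕ) : Continuous (gl ph j T) := by
  unfold gl
  refine continuous_finsetSum _ fun p _ => ?_
  fun_prop

private lemma av_ival' (S : Finset ℕ) (a b : ℝ) (G : Finset ℕ → ℝ → ℝ) (hG : ∀ T, Continuous (G T)) :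
    av S (fun T => ∫ t in a..b, G T t) = ∫ t in a..b, av S (fun T => G T t) := by
  unfold av
  rw [intervalIntegral.integral_div, intervalIntegral.integral_finsetSum]
  intro T _
  exact (hG T).intervalIntegrable a b

private lemma term_le {j p : ℕ} (hp : p ∈ BL j) :
    (4 : ℝ) ^ (j + 1) * (2 * (1 / (p : ℝ)) ^ 2 + (2 * Real.log p / p) ^ 2) ≤ 400000 * (1 / (p : ℝ) ^ (3 / 2 : ℝ)) := by
  rw [mem_BL] at hp
  have hY : 2 ≤ Y j := two_le_Y j
  have hp3 : (3 : ℝ) ≤ p := by exact_mod_cast (by omega : 3 ≤ p)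
  have hp0 : (0 : ℝ) < p := by linarith
  have hYp : ((Y j : ℕ) : ℝ) < p := by exact_mod_cast hp.2.1
  have hY0 : (0 : ℝ) < (Y j : ℕ) := by exact_mod_cast (by omega : 0 < Y j)
  have h1 : Real.log (Y j) ≤ Real.log p := Real.log_le_log hY0 hYp.le
  rw [log_Y] at h1
  have hl2 : (1 / 2 : ℝ) ≤ Real.log 2 := by have := Real.log_two_gt_d9; linarith
  have h2 : (2 : ℝ) ^ j ≤ 2 * Real.log p := by
    have : (0 : ℝ) < 2 ^ j := by positivity
    nlinarith
  have hL1 : 1 ≤ Real.log p := by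
    have := Real.add_one_le_exp (1 : ℝ)
    rw [Real.le_log_iff_exp_le hp0]
    have h3 := Real.exp_one_lt_d9
    linarith
  have h4 : (4 : ℝ) ^ (j + 1) ≤ 16 * Real.log p ^ 2 := by
    have h5 : (4 : ℝ) ^ (j + 1) = 4 * (2 ^ j) ^ 2 := by
      rw [← pow_mul, mul_comm j 2, pow_mul]
      norm_num
      ring
    rw [h5]
    have : (0 : ℝ) < 2 ^ j := by positivity
    nlinarith
  have h6 : Real.log p ≤ 8 * (p : ℝ) ^ (1 / 8 : ℝ) := by
    have := Real.log_le_rpow_div hp0.le (by norm_num : (0 : ℝ) < 1 / 8)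
    linarith
  have h7 : Real.log p ^ 4 ≤ 4096 * (p : ℝ) ^ (1 / 2 : ℝ) := by
    have h8 : Real.log p ^ 4 ≤ (8 * (p : ℝ) ^ (1 / 8 : ℝ)) ^ 4 := pow_le_pow_left₀ (by linarith) h6 4
    refine h8.trans (le_of_eq ?_)
    rw [mul_pow, ← Real.rpow_natCast ((p : ℝ) ^ (1 / 8 : ℝ)) 4, ← Real.rpow_mul hp0.le]
    norm_num
  have h9 : 2 * (1 / (p : ℝ)) ^ 2 + (2 * Real.log p / p) ^ 2 ≤ 6 * Real.log p ^ 2 / (p : ℝ) ^ 2 := by
    have h10 : 2 * (1 / (p : ℝ)) ^ 2 + (2 * Real.log p / p) ^ 2 = (2 + 4 * Real.log p ^ 2) / (p : ℝ) ^ 2 := by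
      field_simp
      ring
    rw [h10]
    refine div_le_div_of_nonneg_right ?_ (by positivity)
    nlinarith
  have h11 : (p : ℝ) ^ (2 : ℕ) = (p : ℝ) ^ (3 / 2 : ℝ) * (p : ℝ) ^ (1 / 2 : ℝ) := by
    rw [← Real.rpow_add hp0, ← Real.rpow_natCast]
    norm_num
  have hx : (0 : ℝ) < (p : ℝ) ^ (3 / 2 : ℝ) := by positivity
  have hy : (0 : ℝ) < (p : ℝ) ^ (1 / 2 : ℝ) := by positivity
  calc (4 : ℝ) ^ (j + 1) * (2 * (1 / (p : ℝ)) ^ 2 + (2 * Real.log p / p) ^ 2)
      ≤ (16 * Real.log p ^ 2) * (6 * Real.log p ^ 2 / (p : ℝ) ^ 2) := mul_le_mul h4 h9 (by positivity) (by positivity)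
    _ = 96 * Real.log p ^ 4 / (p : ℝ) ^ 2 := by ring
    _ ≤ 96 * (4096 * (p : ℝ) ^ (1 / 2 : ℝ)) / (p : ℝ) ^ 2 := by
        refine div_le_div_of_nonneg_right ?_ (by positivity)
        linarith
    _ = 393216 * (1 / (p : ℝ) ^ (3 / 2 : ℝ)) := by
        rw [h11]
        field_simp
        ring
    _ ≤ 400000 * (1 / (p : ℝ) ^ (3 / 2 : ℝ)) := by
        refine mul_le_mul_of_nonneg_right (by norm_num) (by positivity)

private lemma level_le {j K : ℕ} (hj : j < K) (ph : ℕ → ℝ) :
    pr (PP (Y K)) (fun T => ∃ t ∈ Set.Icc (0 : ℝ) 1, 1 / (2 : ℝ) ^ (j + 1) < |gl ph j T t|) ≤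
      ∑ p ∈ BL j, 400000 * (1 / (p : ℝ) ^ (3 / 2 : ℝ)) := by
  have hsub : BL j ⊆ PP (Y K) := by
    intro p hp
    rw [mem_BL] at hp
    rw [mem_PP]
    exact ⟨hp.1, hp.2.2.trans (Y_mono hj)⟩
  set F : Finset ℕ → ℝ := fun T => (4 : ℝ) ^ (j + 1) * ∫ u in (0 : ℝ)..1, (2 * gl ph j T u ^ 2 + gl' ph j T u ^ 2) with hF
  have hFnn : ∀ T ⊆ PP (Y K), 0 ≤ F T := by
    intro T _
    rw [hF]
    refine mul_nonneg (by positivity) (intervalIntegral.integral_nonneg zero_le_one fun u _ => by positivity)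
  have hav : av (PP (Y K)) F ≤ ∑ p ∈ BL j, 400000 * (1 / (p : ℝ) ^ (3 / 2 : ℝ)) := by
    rw [hF, av_mul_left, av_ival' (PP (Y K)) 0 1 (fun T u => 2 * gl ph j T u ^ 2 + gl' ph j T u ^ 2) fun T =>
      (continuous_const.mul ((continuous_gl ph j T).pow 2)).add ((continuous_gl' ph j T).pow 2)]
    have h1 : ∀ u : ℝ, av (PP (Y K)) (fun T => 2 * gl ph j T u ^ 2 + gl' ph j T u ^ 2) ≤
        ∑ p ∈ BL j, (2 * (1 / (p : ℝ)) ^ 2 + (2 * Real.log p / p) ^ 2) := by
      intro u
      rw [av_add, av_mul_left]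
      unfold gl gl'
      rw [av_sgsum hsub, av_sgsum hsub, Finset.sum_add_distrib, ← Finset.mul_sum]
      refine add_le_add (mul_le_mul_of_nonneg_left (Finset.sum_le_sum fun p _ => ?_) (by norm_num))
        (Finset.sum_le_sum fun p _ => ?_)
      · rw [← sq_abs, abs_div, Nat.abs_cast]
        refine pow_le_pow_left₀ (by positivity) ?_ 2
        exact div_le_div_of_nonneg_right (Real.abs_cos_le_one _) (Nat.cast_nonneg _)
      · rw [← sq_abs, abs_div, Nat.abs_cast, abs_neg, abs_mul, abs_mul, abs_of_pos (by norm_num : (0 : ℝ) < 2),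
          abs_of_nonneg (Real.log_natCast_nonneg p)]
        refine pow_le_pow_left₀ (by positivity) ?_ 2
        refine div_le_div_of_nonneg_right ?_ (Nat.cast_nonneg _)
        exact mul_le_of_le_one_right (mul_nonneg (by norm_num) (Real.log_natCast_nonneg p)) (Real.abs_sin_le_one _)
    have h2 : ∫ u in (0 : ℝ)..1, av (PP (Y K)) (fun T => 2 * gl ph j T u ^ 2 + gl' ph j T u ^ 2) ≤
        ∑ p ∈ BL j, (2 * (1 / (p : ℝ)) ^ 2 + (2 * Real.log p / p) ^ 2) := by
      have h3 : ∫ u in (0 : ℝ)..1, av (PP (Y K)) (fun T => 2 * gl ph j T u ^ 2 + gl' ph j T u ^ 2) ≤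
          ∫ _u in (0 : ℝ)..1, ∑ p ∈ BL j, (2 * (1 / (p : ℝ)) ^ 2 + (2 * Real.log p / p) ^ 2) := by
        refine intervalIntegral.integral_mono_on zero_le_one ?_ (continuous_const.intervalIntegrable _ _) fun u _ => h1 u
        refine Continuous.intervalIntegrable ?_ _ _
        unfold av
        exact (continuous_finsetSum _ fun T _ =>
          (continuous_const.mul ((continuous_gl ph j T).pow 2)).add ((continuous_gl' ph j T).pow 2)).div_const _
      rw [intervalIntegral.integral_const, smul_eq_mul] at h3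
      linarith
    refine (mul_le_mul_of_nonneg_left h2 (by positivity)).trans ?_
    rw [Finset.mul_sum]
    exact Finset.sum_le_sum fun p hp => term_le hp
  refine le_trans (pr_mono (Q := fun T => (1 : ℝ) ≤ F T) ?_) ?_
  · rintro T _ ⟨t, ht, hlt⟩
    have h1 := sob (hasDerivAt_gl ph j T) (continuous_gl' ph j T) ht
    have h2 : (1 / (2 : ℝ) ^ (j + 1)) ^ 2 ≤ gl ph j T t ^ 2 := by
      rw [← sq_abs (gl ph j T t)]
      exact pow_le_pow_left₀ (by positivity) hlt.le 2
    have h3 : (1 / (2 : ℝ) ^ (j + 1)) ^ 2 = 1 / 4 ^ (j + 1) := by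
      rw [div_pow, one_pow, ← pow_mul, mul_comm, pow_mul]
      norm_num
    rw [h3] at h2
    have h4 := h2.trans h1
    rw [div_le_iff₀ (by positivity)] at h4
    rw [hF]
    simp only
    linarith
  · have h5 := markov (c := 1) hFnn one_pos hav
    rwa [div_one] at h5

private lemma sum_levels (g : ℕ → ℝ) {s K : ℕ} (h : s ≤ K) : ∑ j ∈ Finset.Ico s K, ∑ p ∈ BL j, g p = ∑ p ∈ WB s K, g p := by
  induction K, h using Nat.le_induction with
  | base => rw [Finset.Ico_self, Finset.sum_empty, WB_self, Finset.sum_empty]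
  | succ K h ih => rw [Finset.sum_Ico_succ_top h, ih, WB_succ h, Finset.sum_union (WB_disj s K)]

private lemma cos_tt (ph : ℕ → ℝ) (T : Finset ℕ) (p : ℕ) (t : ℝ) :
    Real.cos (2 * (t * Real.log p - Pool.Agent.IT.tt ph T p)) = sg T p * Real.cos (2 * (t * Real.log p - ph p)) := by
  unfold Pool.Agent.IT.tt
  by_cases h : p ∈ T
  · rw [if_pos h, sg_mem h]
    have e : 2 * (t * Real.log p - (ph p + Real.pi / 2)) = 2 * (t * Real.log p - ph p) - Real.pi := by ring
    rw [e, Real.cos_sub_pi]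
    ring
  · rw [if_neg h, sg_not_mem h, add_zero, one_mul]

private lemma self_le_Y (s : ℕ) : s ≤ Y s := by
  unfold Y
  exact (Nat.lt_two_pow_self (n := s)).le.trans (Nat.lt_two_pow_self (n := 2 ^ s)).le

theorem stmtB : Pool.Agent.IT.StmtB := by
  intro η hη
  have hs : Summable (fun n : ℕ => 400000 * (1 / (n : ℝ) ^ (3 / 2 : ℝ))) :=
    (Real.summable_one_div_nat_rpow.2 (by norm_num)).mul_left _
  obtain ⟨s, hs1⟩ := hs.vanishing (Metric.ball_mem_nhds (0 : ℝ) hη)
  refine ⟨s.sup id, fun K ph => ?_⟩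
  set s0 := s.sup id with hs0
  rcases lt_or_ge K s0 with hK | hK
  · rw [pr_false]
    · exact hη.le
    · intro T _ hn
      apply hn
      intro a l h1 h2 h3
      omega
  have hD : Disjoint (WB s0 K) s := by
    rw [Finset.disjoint_left]
    intro p hp hps
    rw [mem_WB] at hp
    have h1 : p ≤ s0 := Finset.le_sup (f := id) hps
    have h2 := self_le_Y s0
    omega
  have h1 := hs1 (WB s0 K) hD
  rw [Metric.mem_ball, dist_zero_right, Real.norm_eq_abs] at h1
  have h2 := (le_abs_self _).trans h1.le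
  rw [← sum_levels _ hK] at h2
  refine le_trans ?_ h2
  refine le_trans (pr_mono (Q := fun T => ∃ j ∈ Finset.Ico s0 K, ∃ t ∈ Set.Icc (0 : ℝ) 1, 1 / (2 : ℝ) ^ (j + 1) < |gl ph j T t|) ?_) ?_
  · intro T _ hn
    by_contra hcon
    push Not at hcon
    apply hn
    intro a l hsa hal hlK t ht
    have key : |∑ p ∈ WB a l, Real.cos (2 * (t * Real.log p - Pool.Agent.IT.tt ph T p)) / p| ≤ 1 / 2 ^ a - 1 / 2 ^ l := by
      clear h1 h2
      induction l, hal using Nat.le_induction with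
      | base => rw [WB_self, Finset.sum_empty]; simp
      | succ l hal ih =>
        have ih' := ih (by omega)
        have h3 := hcon l (Finset.mem_Ico.2 ⟨by omega, by omega⟩) t ht
        rw [WB_succ hal, Finset.sum_union (WB_disj a l)]
        have e : ∑ p ∈ BL l, Real.cos (2 * (t * Real.log p - Pool.Agent.IT.tt ph T p)) / p = gl ph l T t := by
          unfold gl
          refine Finset.sum_congr rfl fun p _ => ?_
          rw [cos_tt]
          ring
        rw [e]
        refine (abs_add_le _ _).trans ?_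
        have h4 : (1 : ℝ) / 2 ^ l = 1 / 2 ^ (l + 1) + 1 / 2 ^ (l + 1) := by
          rw [pow_succ]
          field_simp
          norm_num
        linarith
    have h5 : (1 : ℝ) / 2 ^ a ≤ 1 := by
      rw [div_le_one (by positivity)]
      exact one_le_pow₀ (by norm_num)
    have h6 : (0 : ℝ) < 1 / 2 ^ l := by positivity
    have h7 : WB a l = PP (Y l) \ PP (Y a) := rfl
    rw [h7] at key
    linarith
  · refine (pr_exists _ _ _).trans (Finset.sum_le_sum fun j hj => ?_)
    exact level_le (Finset.mem_Ico.1 hj).2 ph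

end Pool.Agent.Helper96.IT
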