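import Pool.Agent.Helper96.IT.Dg
import Pool.Agent.Helper52.IT.TwB
import Pool.Agent.Helper52.IT.DgW

/-!
# Project IT (MP_a499ba_nt): directional recurrence at `t`, window form (general lemma)
-/

set_option autoImplicit false

open Complex Filter Topology MeasureTheory Set
open Pool.Agent.Helper57.Zeta
open Pool.Agent.IT (mt DgAt DgW)
open Pool.Agent.Helper52.Tw (PJ cF Jv Ft kp Fr Fr_sys cr_ne)
open Pool.Agent.Helper71.MA (big_of_fail le_of_big big_re Big)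

namespace Pool.Agent.Helper96.ITd

/-- window form of `TwLe` -/
def TwLeW (F : ℝ → ℝ) (θ : ℝ) : Prop := ∃ κ : ℂ, ∀ φ B : ℝ,
  (∀ η : ℝ, 0 < η → ∀ C : ℝ, ∃ T : ℝ, C ≤ T ∧ ∀ u ∈ Icc T (T + Real.log T + C),
    (cexp (Complex.I * φ) * (Pf F θ u + κ * cexp (cc θ * u))).re ≤ B + η) →
  (∀ u : ℝ, (cexp (Complex.I * φ) * (Pf F θ u + κ * cexp (cc θ * u))).re ≤ B) ∧
    (∀ w : ℂ, xi (1 / 2 + w) = 0 → w.re = 0)

theorem Pf_eq52 (F : ℝ → ℝ) (θ u : ℝ) : Pf F θ u = PJ (cF F) θ u := by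
  unfold Pf PJ Jv cF
  simp only [Complex.ofReal_sub]
  rfl

theorem Ft_eq52 (F : ℝ → ℝ) (θ u : ℝ) : Pf F θ u + kp F θ * cexp (cc θ * u) = Ft F θ u := by
  rw [Pf_eq52]
  rfl

theorem twLeW_of {F : ℝ → ℝ} {A : ℝ} {c : ℂ → ℂ} (hS : Pool.Agent.Helper71.MA.Sys F A c)
    (hne : Pool.Agent.Helper71.MA.Ne c 1) {θ : ℝ} (hθ : θ ≠ 0) : TwLeW F θ := by
  refine ⟨kp F θ, fun φ B h => ?_⟩
  simp_rw [Ft_eq52] at h ⊢
  have hS' := Fr_sys hS θ φ
  have hne' := cr_ne hS hne hθ φ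
  have key : ∀ η : ℝ, 0 < η → ∃ C4 : ℝ, 0 ≤ C4 ∧ Big (Fr F θ φ) 1 (B + η) C4 1 := by
    intro η hη
    apply big_of_fail hS' (by simp) (Or.inl rfl)
    intro C
    obtain ⟨T, hT, hU⟩ := h η hη C
    refine ⟨T, hT, fun t ht => ?_⟩
    rw [one_mul, one_mul]
    exact hU t ht
  constructor
  · intro u
    apply le_of_forall_pos_le_add
    intro η hη
    obtain ⟨C4, h4, hB⟩ := key η hη
    have := le_of_big hS' (Or.inl rfl) hne' h4 hB u
    rwa [one_mul] at this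
  · intro w hw
    obtain ⟨C4, h4, hB⟩ := key 1 one_pos
    exact big_re hS' (Or.inl rfl) hne' hB hw

/-- general lemma: directional bound for the rotated sums, window form -/
theorem dg_genW {F : ℝ → ℝ} {a : ℕ → ℂ} (ha : a 1 = 1) {θ C1 C2 : ℝ} (hθ : 10 ≤ |θ|) (hT : TwLeW F θ)
    (h1 : ∀ η : ℝ, 0 < η → ∃ U : ℝ, ∀ u : ℝ, U ≤ u →
      ‖Pf F θ u - ((Real.exp (-(u / 2)) : ℝ) : ℂ) * mt a θ (Real.exp u)‖ ≤ C1 + η)
    (h2 : (∀ w : ℂ, xi (1 / 2 + w) = 0 → w.re = 0) → ∃ k : ℂ, ∀ u : ℝ, 0 ≤ u →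
      ‖Pf F θ u - ((Real.exp (-(u / 2)) : ℝ) : ℂ) * mt a θ (Real.exp u) - k * cexp (cc θ * u)‖ ≤ C2) :
    DgW a (3 * (C1 + C2) + 1) θ := by
  obtain ⟨κ, hκ⟩ := hT
  intro φ B hB hx
  set e : ℂ := cexp (Complex.I * φ) with he
  have hne : ‖e‖ = 1 := norm_phi φ
  have hre : ∀ z : ℂ, (e * z).re ≤ ‖z‖ := by
    intro z
    refine (Complex.re_le_norm _).trans ?_
    rw [norm_mul, hne, one_mul]
  have hsq : ∀ u : ℝ, Real.sqrt (Real.exp u) = Real.exp (u / 2) := by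
    intro u
    rw [Real.sqrt_eq_rpow, ← Real.exp_mul]
    congr 1; ring
  have hmre : ∀ u : ℝ, (e * (((Real.exp (-(u / 2)) : ℝ) : ℂ) * mt a θ (Real.exp u))).re =
      Real.exp (-(u / 2)) * (e * mt a θ (Real.exp u)).re := by
    intro u
    rw [mul_left_comm, Complex.re_ofReal_mul]
  have hee : ∀ u : ℝ, Real.exp (-(u / 2)) * Real.exp (u / 2) = 1 := by
    intro u
    rw [← Real.exp_add]; simp
  have hev : ∀ η : ℝ, 0 < η → ∀ C : ℝ, ∃ T : ℝ, C ≤ T ∧ ∀ u ∈ Icc T (T + Real.log T + C),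
      (e * (Pf F θ u + κ * cexp (cc θ * u))).re ≤ (B + C1) + η := by
    intro η hη C
    obtain ⟨U1, hU1⟩ := h1 (η / 2) (by positivity)
    have hlim : Tendsto (fun u : ℝ => ‖κ‖ * Real.exp (-(u / 2))) atTop (𝓝 (‖κ‖ * 0)) := by
      apply Tendsto.const_mul
      apply Real.tendsto_exp_neg_atTop_nhds_zero.comp
      exact Tendsto.atTop_div_const (by norm_num) tendsto_id
    rw [mul_zero] at hlim
    have h3 := hlim.eventually (ge_mem_nhds (show (0:ℝ) < η / 2 by positivity))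
    obtain ⟨U2, hU2⟩ := eventually_atTop.1 h3
    set M0 : ℝ := max (max U1 U2) (max C 1) with hM0
    obtain ⟨X, hX0, hX⟩ := hx (Real.exp M0)
    have hXp : 0 < X := lt_of_lt_of_le (Real.exp_pos _) hX0
    set T : ℝ := Real.log X with hT
    have hMT : M0 ≤ T := (Real.le_log_iff_exp_le hXp).2 hX0
    have hT1 : U1 ≤ T := ((le_max_left _ _).trans (le_max_left _ _)).trans hMT
    have hT2 : U2 ≤ T := ((le_max_right _ _).trans (le_max_left _ _)).trans hMT
    have hT3 : C ≤ T := ((le_max_left _ _).trans (le_max_right _ _)).trans hMT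
    have hT4 : 1 ≤ T := ((le_max_right _ _).trans (le_max_right _ _)).trans hMT
    have hT5 : Real.exp C ≤ Real.exp M0 :=
      Real.exp_le_exp.2 ((le_max_left _ _).trans (le_max_right _ _))
    refine ⟨T, hT3, fun u hu => ?_⟩
    have hu1 := hU1 u (hT1.trans hu.1)
    have hu2 := hU2 u (hT2.trans hu.1)
    have hXu : X ≤ Real.exp u := by
      rw [← Real.exp_log hXp]
      exact Real.exp_le_exp.2 hu.1
    have hXu2 : Real.exp u ≤ Real.exp M0 * X * T := by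
      calc Real.exp u ≤ Real.exp (T + Real.log T + C) := Real.exp_le_exp.2 hu.2
        _ = X * T * Real.exp C := by
          rw [Real.exp_add, Real.exp_add, Real.exp_log (by linarith : 0 < T), hT, Real.exp_log hXp]
        _ ≤ X * T * Real.exp M0 := mul_le_mul_of_nonneg_left hT5 (by positivity)
        _ = _ := by ring
    have hu3 := hX (Real.exp u) hXu hXu2
    rw [hsq] at hu3
    have e1 : e * (Pf F θ u + κ * cexp (cc θ * u)) =
        e * (Pf F θ u - ((Real.exp (-(u / 2)) : ℝ) : ℂ) * mt a θ (Real.exp u)) +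
        e * (((Real.exp (-(u / 2)) : ℝ) : ℂ) * mt a θ (Real.exp u)) + e * (κ * cexp (cc θ * u)) := by ring
    rw [e1, Complex.add_re, Complex.add_re, hmre]
    have h5 := hre (Pf F θ u - ((Real.exp (-(u / 2)) : ℝ) : ℂ) * mt a θ (Real.exp u))
    have h6 := hre (κ * cexp (cc θ * u))
    rw [norm_mul, norm_ccexp] at h6
    have h7 : Real.exp (-(u / 2)) * (e * mt a θ (Real.exp u)).re ≤ B := by
      have := mul_le_mul_of_nonneg_left hu3 (Real.exp_pos (-(u / 2))).le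
      calc _ ≤ Real.exp (-(u / 2)) * (B * Real.exp (u / 2)) := this
        _ = B * (Real.exp (-(u / 2)) * Real.exp (u / 2)) := by ring
        _ = B := by rw [hee, mul_one]
    linarith
  obtain ⟨h3, hRH⟩ := hκ φ (B + C1) hev
  obtain ⟨k, hk⟩ := h2 hRH
  set W : ℝ := B + C1 + C2 with hW
  have h4 : ∀ u : ℝ, 0 ≤ u →
      (e * (((Real.exp (-(u / 2)) : ℝ) : ℂ) * mt a θ (Real.exp u) + (k + κ) * cexp (cc θ * u))).re ≤ W := by
    intro u hu
    have h5 := h3 u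
    have h6 := hk u hu
    have e1 : e * (((Real.exp (-(u / 2)) : ℝ) : ℂ) * mt a θ (Real.exp u) + (k + κ) * cexp (cc θ * u)) =
        e * (Pf F θ u + κ * cexp (cc θ * u)) +
        e * (-(Pf F θ u - ((Real.exp (-(u / 2)) : ℝ) : ℂ) * mt a θ (Real.exp u) - k * cexp (cc θ * u))) := by ring
    rw [e1, Complex.add_re]
    have h7 := hre (-(Pf F θ u - ((Real.exp (-(u / 2)) : ℝ) : ℂ) * mt a θ (Real.exp u) - k * cexp (cc θ * u)))
    rw [norm_neg] at h7
    linarith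
  have h5 : ‖1 + k + κ‖ ≤ 3 / 2 * W := by
    obtain ⟨u, hu0, hu1, hu⟩ := circle hθ φ (1 + k + κ)
    have h6 := h4 u hu0
    rw [mt_small ha θ hu0 hu1] at h6
    have e1 : e * (((Real.exp (-(u / 2)) : ℝ) : ℂ) * cexp (Complex.I * ((θ * u : ℝ) : ℂ)) + (k + κ) * cexp (cc θ * u)) =
        ((Real.exp (-(u / 2)) * ‖1 + k + κ‖ : ℝ) : ℂ) := by
      push_cast
      rw [← hu, ccexp_eq]
      push_cast
      ring
    rw [e1, Complex.ofReal_re] at h6
    have h7 : Real.exp (u / 2) ≤ 3 / 2 := by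
      have h8 : Real.exp (u / 2) ≤ Real.exp (Real.log 2 / 2) := Real.exp_le_exp.2 (by linarith)
      have h9 : Real.exp (Real.log 2 / 2) ^ 2 = 2 := by
        rw [← Real.exp_nat_mul]
        push_cast
        rw [show (2 : ℝ) * (Real.log 2 / 2) = Real.log 2 by ring, Real.exp_log (by norm_num)]
      nlinarith [Real.exp_pos (Real.log 2 / 2)]
    have h8 : ‖1 + k + κ‖ ≤ W * Real.exp (u / 2) := by
      have := mul_le_mul_of_nonneg_right h6 (Real.exp_pos (u / 2)).le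
      calc ‖1 + k + κ‖ = ‖1 + k + κ‖ * (Real.exp (-(u / 2)) * Real.exp (u / 2)) := by rw [hee, mul_one]
        _ = Real.exp (-(u / 2)) * ‖1 + k + κ‖ * Real.exp (u / 2) := by ring
        _ ≤ _ := this
    have hW0 : 0 ≤ W := by
      have : 0 ≤ Real.exp (-(u / 2)) * ‖1 + k + κ‖ := by positivity
      linarith
    nlinarith
  have hW0 : 0 ≤ W := by
    have := norm_nonneg (1 + k + κ)
    linarith
  have h6 : ‖k + κ‖ ≤ 1 + 3 / 2 * W := by
    have : k + κ = (1 + k + κ) - 1 := by ring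
    rw [this]
    refine (norm_sub_le _ _).trans ?_
    rw [norm_one]
    linarith
  intro x hx1
  have hx0 : 0 < x := by linarith
  set u : ℝ := Real.log x with hu
  have hu0 : 0 ≤ u := Real.log_nonneg hx1
  have hxu : Real.exp u = x := Real.exp_log hx0
  have h7 := h4 u hu0
  rw [mul_add, Complex.add_re, hmre, hxu] at h7
  have h8 := hre (-((k + κ) * cexp (cc θ * u)))
  rw [norm_neg, norm_mul, norm_ccexp, mul_neg, Complex.neg_re] at h8
  have h9 : Real.exp (-(u / 2)) ≤ 1 := Real.exp_le_one_iff.2 (by linarith)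
  have h10 : Real.exp (-(u / 2)) * (e * mt a θ x).re ≤ W + (1 + 3 / 2 * W) := by
    have : ‖k + κ‖ * Real.exp (-(u / 2)) ≤ (1 + 3 / 2 * W) * 1 :=
      mul_le_mul h6 h9 (Real.exp_pos _).le (by positivity)
    linarith
  have h11 : (e * mt a θ x).re ≤ (W + (1 + 3 / 2 * W)) * Real.sqrt x := by
    rw [← hxu, hsq]
    have := mul_le_mul_of_nonneg_right h10 (Real.exp_pos (u / 2)).le
    rw [hxu]
    calc (e * mt a θ x).re = (e * mt a θ x).re * (Real.exp (-(u / 2)) * Real.exp (u / 2)) := by rw [hee, mul_one]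
      _ = Real.exp (-(u / 2)) * (e * mt a θ x).re * Real.exp (u / 2) := by ring
      _ ≤ _ := this
  refine h11.trans (mul_le_mul_of_nonneg_right ?_ (Real.sqrt_nonneg _))
  rw [hW] at hW0 ⊢
  linarith

end Pool.Agent.Helper96.ITd
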