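import Pool.Agent.Helper96.IT.DirL
import Pool.Agent.Helper96.IT.DgW
import Pool.Agent.Helper95.IT.Rem

/-!
# Project IT (MP_a499ba_nt): `StmtDgW lac` from the twisted one-sided theory and the remainder lemma
-/

set_option autoImplicit false

open Complex Filter Topology MeasureTheory Set
open Pool.Agent.Helper57.Zeta
open Pool.Agent.IT (mt DgAt lac DgW StmtDgW)
open Pool.Agent.Helper71.LA (Lf)
open Pool.Agent.Helper18.ES (bb)

namespace Pool.Agent.Helper96.ITd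

theorem twLeW_Lf {θ : ℝ} (hθ : θ ≠ 0) : TwLeW Lf θ := by
  obtain ⟨A, hS⟩ := Pool.Agent.Helper71.LA.sys
  exact twLeW_of hS Pool.Agent.Helper71.LA.ne_el hθ

theorem dgW_la {θ C : ℝ} (hθ : 10 ≤ |θ|)
    (hrem : (∀ w : ℂ, xi (1 / 2 + w) = 0 → w.re = 0) → ∃ k : ℂ, ∀ u : ℝ, 0 ≤ u →
      ‖Pf rhoL θ u - k * cexp (cc θ * u)‖ ≤ C) :
    DgW lac (3 * (|bb| + (C + |bb|)) + 1) θ := by
  have hθ0 : θ ≠ 0 := by
    intro h0
    rw [h0, abs_zero] at hθ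
    norm_num at hθ
  exact dg_genW (by simp [Pool.Agent.IT.lac]) hθ (twLeW_Lf hθ0) (h1_la θ) (fun hRH => h2_la (hrem hRH))

theorem rh_of (h : ∀ w : ℂ, xi (1 / 2 + w) = 0 → w.re = 0) : ∀ s : ℂ, 1 / 2 < s.re → s ≠ 1 → riemannZeta s ≠ 0 := by
  intro s hs _ hz
  by_cases h2 : 1 ≤ s.re
  · exact riemannZeta_ne_zero_of_one_le_re h2 hz
  · have h3 : xi s = 0 := xi_eq_zero_iff.2 ⟨by linarith, by linarith, hz⟩
    have h4 := h (s - 1 / 2) (by rwa [show (1 : ℂ) / 2 + (s - 1 / 2) = s by ring])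
    have h5 : (s - 1 / 2).re = s.re - 1 / 2 := by simp
    rw [h5] at h4
    linarith

/-- the condition for all large `|t|` gives the block -/
theorem stmtDgW_of_large {a : ℕ → ℂ} {C t0 : ℝ} (h : ∀ t : ℝ, t0 ≤ |t| → DgW a C t) : StmtDgW a := by
  refine ⟨C, fun η hη => ⟨2 * |t0| / η, fun H hH U => ?_⟩⟩
  have h1 : {t : ℝ | U ≤ t ∧ t ≤ U + H ∧ ¬ DgW a C t} ⊆ Ioo (-|t0|) |t0| := by
    rintro t ⟨_, _, ht⟩
    by_contra hc
    apply ht
    apply h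
    rw [mem_Ioo, ← abs_lt, not_lt] at hc
    exact (le_abs_self t0).trans hc
  refine (measure_mono h1).trans ?_
  rw [Real.volume_Ioo]
  apply ENNReal.ofReal_le_ofReal
  rw [div_le_iff₀ hη] at hH
  linarith

/-- the condition for every `|t| ≥ 10`, with one constant -/
theorem dgW_la_all (hrem : (∀ s : ℂ, 1 / 2 < s.re → s ≠ 1 → riemannZeta s ≠ 0) → ∃ C : ℝ, ∀ t : ℝ, ∃ k : ℂ, ∀ u : ℝ, 0 ≤ u →
      ‖(rhoL u : ℂ) + Complex.I * t * (∫ w in (0:ℝ)..u, (rhoL w : ℂ) * cexp ((Complex.I * t - 1 / 2) * (u - w))) -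
        k * cexp ((Complex.I * t - 1 / 2) * u)‖ ≤ C) : ∃ C : ℝ, ∀ t : ℝ, 10 ≤ |t| → DgW lac C t := by
  by_cases hRH : ∀ w : ℂ, xi (1 / 2 + w) = 0 → w.re = 0
  · obtain ⟨C, h⟩ := hrem (rh_of hRH)
    refine ⟨3 * (|bb| + (C + |bb|)) + 1, fun t ht => dgW_la ht (fun _ => ?_)⟩
    obtain ⟨k, hk⟩ := h t
    refine ⟨k, fun u hu => ?_⟩
    have h1 := hk u hu
    unfold Pf cc
    simp only [Complex.ofReal_sub]
    exact h1
  · exact ⟨3 * (|bb| + (0 + |bb|)) + 1, fun t ht => dgW_la ht (fun h => absurd h hRH)⟩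

/-- the block for the Liouville sums, from the uniqueness statement -/
theorem stmtDgW_la_of (hU : (∀ s : ℂ, 1 / 2 < s.re → s ≠ 1 → riemannZeta s ≠ 0) → Pool.Agent.Helper95.IT.StmtUniq) :
    StmtDgW lac := by
  obtain ⟨C, h⟩ := dgW_la_all (fun hRH => Pool.Agent.Helper95.IT.rem_la_of (hU hRH) hRH)
  exact stmtDgW_of_large h

end Pool.Agent.Helper96.ITd
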