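import Pool.Agent.Helper96.IT.Mean
import Pool.Agent.Helper96.IT.Grad
import Pool.Agent.Helper96.CM.Conc

/-!
# Project IT (port of CM) (MP_a499ba_nt). CM5: chain over the levels
-/

set_option autoImplicit false

namespace Pool.Agent.Helper96.IT

open Finset Pool.Agent.Helper5.RM Pool.Agent.Helper96.AF Pool.Agent.Helper96.CM

lemma pr_restrict {S S' : Finset ℕ} (h : S' ⊆ S) (P : Finset ℕ → Prop) (hP : ∀ T, P T ↔ P (T ∩ S')) :
    pr S P = pr S' P := by
  unfold pr
  refine av_restrict h _ fun T => ?_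
  by_cases h1 : P T
  · rw [if_pos h1, if_pos ((hP T).1 h1)]
  · rw [if_neg h1, if_neg (fun h2 => h1 ((hP T).2 h2))]

lemma FF_nonneg {c : ℕ → ℝ × ℝ} {tau : ℕ → ℝ} {lam om a b : ℝ} {w : ℝ → ℝ} {S : Finset ℕ} (hc : Adm c) (hl : 0 ≤ lam) (hl1 : lam ≤ 1)
    (h : 0 < om) (hab : a ≤ b) (hw : ∀ t, 0 ≤ w t) (hS : ∀ p ∈ S, 2 ≤ p) (T : Finset ℕ) :
    0 ≤ FF c tau lam om a b w S T := by
  unfold FF
  refine intervalIntegral.integral_nonneg hab fun t _ => ?_
  exact mul_nonneg (hw t) (mul_nonneg (RR_pos hc hl hl1 hS T t).le (Gf_pos h _).le)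

lemma fl_union {T0 T : Finset ℕ} {p : ℕ} (h : p ∉ T0) : fl p (T0 ∪ T) = T0 ∪ fl p T := by
  unfold fl
  ext q
  simp only [Finset.mem_symmDiff, Finset.mem_union, Finset.mem_singleton]
  by_cases hq : q = p
  · subst hq
    simp [h]
  · simp [hq]

lemma fl_sub {T Q : Finset ℕ} {p : ℕ} (h : T ⊆ Q) (hp : p ∈ Q) : fl p T ⊆ Q := by
  unfold fl
  intro q hq
  simp only [Finset.mem_symmDiff, Finset.mem_singleton] at hq
  rcases hq with ⟨h1, _⟩ | ⟨h1, _⟩
  · exact h h1
  · exact h1 ▸ hp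

theorem chain : ∃ C : ℝ, 0 < C ∧ ∀ (c : ℕ → ℝ × ℝ) (tau : ℕ → ℝ) (lam om a b kap r A : ℝ) (w : ℝ → ℝ) (s m n : ℕ),
    Adm c → 0 ≤ lam → lam ≤ 1 → 0 < om → om ≤ 1 / 4 → 0 ≤ a → a ≤ b → b ≤ 1 → Continuous w →
    (∀ t, 0 ≤ w t ∧ w t ≤ 2) → 2 ≤ s → s ≤ m → m ≤ n → (∀ p : ℕ, Y m < p → p ≤ Y n → tau p = lam) →
    0 < kap → 0 ≤ r → 0 ≤ A →
    (∀ j : ℕ, m ≤ j → j < n → ∀ T ⊆ WB s (j + 1), ∀ t ∈ Set.Icc a b,
      C / 2 ^ j * (RR c lam (WB s (j + 1)) T t * Gf om (XX c tau (WB s (j + 1)) T t)) ≤ kap) →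
    ((n : ℝ) - m) * (C * om ^ 2) ≤ 1 / 2 →
    pr (WB s n) (fun T => A ^ 2 ≤ FF c tau lam om a b w (WB s m) T ∧
      Real.sqrt (FF c tau lam om a b w (WB s n) T) < A / 2 - ((n : ℝ) - m) * (Real.sqrt kap + r)) ≤
      2 * ((n : ℝ) - m) * Real.exp (-(r / Real.sqrt kap)) := by
  obtain ⟨C1, hC1, h1⟩ := mean_step
  obtain ⟨C2, hC2, h2⟩ := gradient
  set C := max C1 C2 with hCdef
  have hCC1 : C1 ≤ C := le_max_left _ _
  have hCC2 : C2 ≤ C := le_max_right _ _
  have hC : 0 < C := lt_of_lt_of_le hC1 hCC1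
  refine ⟨C, hC, ?_⟩
  intro c tau lam om a b kap r A w s m n hc hl hl1 hom hom4 ha hab hb hw hw2 hs hsm hmn htau hk hr hA hsup hsmall
  set q := Real.sqrt (1 - C * om ^ 2) with hq
  have hq0 : 0 ≤ q := Real.sqrt_nonneg _
  have hq1 : q ≤ 1 := by
    rw [hq]
    exact Real.sqrt_le_one.2 (by nlinarith [sq_nonneg om, mul_nonneg hC.le (sq_nonneg om)])
  set E := Real.exp (-(r / Real.sqrt kap)) with hE
  have hE0 : 0 ≤ E := (Real.exp_pos _).le
  have hsk : 0 ≤ Real.sqrt kap := Real.sqrt_nonneg _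
  -- one level
  have level : ∀ j : ℕ, m ≤ j → j < n → ∀ T0 ⊆ WB s j,
      pr (BL j) (fun T => Real.sqrt (FF c tau lam om a b w (WB s (j + 1)) (T0 ∪ T)) <
        q * Real.sqrt (FF c tau lam om a b w (WB s j) T0) - Real.sqrt kap - r) ≤ 2 * E := by
    intro j hj hjn T0 hT0
    have hsj : s ≤ j := hsm.trans hj
    have h2j : (0 : ℝ) < 2 ^ j := by positivity
    have hS : ∀ p ∈ WB s j, 2 ≤ p := fun p hp => two_le_WB hp
    have hS' : ∀ p ∈ WB s (j + 1), 2 ≤ p := fun p hp => two_le_WB hp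
    have hsub : ∀ T ⊆ BL j, T0 ∪ T ⊆ WB s j ∪ BL j := fun T hT => Finset.union_subset_union hT0 hT
    have hF : ∀ T ⊆ BL j, 0 ≤ FF c tau lam om a b w (WB s j ∪ BL j) (T0 ∪ T) := by
      intro T hT
      rw [← WB_succ hsj]
      exact FF_nonneg hc hl hl1 hom hab (fun t => (hw2 t).1) hS' _
    have hg : ∀ T ⊆ BL j, ∑ p ∈ BL j, (FF c tau lam om a b w (WB s j ∪ BL j) (T0 ∪ T) -
        FF c tau lam om a b w (WB s j ∪ BL j) (T0 ∪ fl p T)) ^ 2 ≤
        kap * FF c tau lam om a b w (WB s j ∪ BL j) (T0 ∪ T) := by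
      intro T hT
      have h3 := h2 c tau lam om a b (kap * 2 ^ j / C) w (WB s j) j hc hl hl1 hom hom4 ha hab hb hw hw2 (by omega)
        (WB_disj s j) hS ?_ (T0 ∪ T) (hsub T hT)
      · have e1 : ∑ p ∈ BL j, (FF c tau lam om a b w (WB s j ∪ BL j) (T0 ∪ T) -
            FF c tau lam om a b w (WB s j ∪ BL j) (fl p (T0 ∪ T))) ^ 2 =
            ∑ p ∈ BL j, (FF c tau lam om a b w (WB s j ∪ BL j) (T0 ∪ T) -
            FF c tau lam om a b w (WB s j ∪ BL j) (T0 ∪ fl p T)) ^ 2 := by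
          refine Finset.sum_congr rfl fun p hp => ?_
          rw [fl_union]
          intro hp0
          exact Finset.disjoint_left.1 (WB_disj s j) (hT0 hp0) hp
        rw [← e1]
        refine h3.trans (mul_le_mul_of_nonneg_right ?_ (hF T hT))
        have e2 : C2 / 2 ^ j * (kap * 2 ^ j / C) = C2 / C * kap := by
          field_simp
        rw [e2]
        have h4 : C2 / C ≤ 1 := (div_le_one hC).2 hCC2
        nlinarith
      · intro T' hT' t ht
        rw [← WB_succ hsj] at hT' ⊢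
        have h5 := hsup j hj hjn T' hT' t ht
        rw [le_div_iff₀ hC]
        rw [div_mul_eq_mul_div, div_le_iff₀ h2j] at h5
        linarith
    have h6 := conc_sqrt (Q := BL j) (F := fun T => FF c tau lam om a b w (WB s j ∪ BL j) (T0 ∪ T)) hk hr hF hg
    refine le_trans (pr_mono ?_) h6
    intro T hT h7
    rw [WB_succ hsj] at h7
    refine h7.le.trans ?_
    have hjn1 : (1 : ℝ) ≤ (n : ℝ) - m := by
      have : (m : ℝ) + 1 ≤ n := by exact_mod_cast (by omega : m + 1 ≤ n)
      linarith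
    have hpos : 0 ≤ C * om ^ 2 := by positivity
    have hCo : C * om ^ 2 ≤ 1 / 2 := by nlinarith
    have hFF0 : 0 ≤ FF c tau lam om a b w (WB s j) T0 := FF_nonneg hc hl hl1 hom hab (fun t => (hw2 t).1) hS _
    have h8 := h1 c tau lam om a b w (WB s j) j hc hl hl1 hom hom4 hab hw (fun t => (hw2 t).1) (WB_disj s j) hS
      (fun p hp => by
        rw [mem_BL] at hp
        exact htau p (lt_of_le_of_lt (Y_mono hj) hp.2.1) (hp.2.2.trans (Y_mono (by omega)))) T0 hT0
    have h9 : q * Real.sqrt (FF c tau lam om a b w (WB s j) T0) ≤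
        Real.sqrt (av (BL j) (fun T => FF c tau lam om a b w (WB s j ∪ BL j) (T0 ∪ T))) := by
      rw [hq, ← Real.sqrt_mul (by linarith)]
      refine Real.sqrt_le_sqrt (le_trans (mul_le_mul_of_nonneg_right ?_ hFF0) h8)
      nlinarith [sq_nonneg om]
    linarith
  -- induction
  have ind : ∀ k : ℕ, m + k ≤ n →
      pr (WB s (m + k)) (fun T => A ^ 2 ≤ FF c tau lam om a b w (WB s m) T ∧
        Real.sqrt (FF c tau lam om a b w (WB s (m + k)) T) < q ^ k * A - k * (Real.sqrt kap + r)) ≤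
        2 * k * E := by
    intro k
    induction k with
    | zero =>
      intro _
      rw [pr_false]
      · simp
      · rintro T hT ⟨h3, h4⟩
        simp only [add_zero, pow_zero, one_mul, Nat.cast_zero, zero_mul, sub_zero] at h4
        have h5 : A ≤ Real.sqrt (FF c tau lam om a b w (WB s m) T) := Real.le_sqrt_of_sq_le h3
        linarith
    | succ k ih =>
      intro hk'
      have ih' := ih (by omega)
      have hsk' : s ≤ m + k := by omega
      have e0 : m + (k + 1) = (m + k) + 1 := by ring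
      rw [e0]
      have h3 : pr (WB s (m + k + 1)) (fun T => A ^ 2 ≤ FF c tau lam om a b w (WB s m) T ∧
          Real.sqrt (FF c tau lam om a b w (WB s (m + k + 1)) T) < q ^ (k + 1) * A - ((k + 1 : ℕ) : ℝ) * (Real.sqrt kap + r)) ≤
          pr (WB s (m + k + 1)) (fun T => A ^ 2 ≤ FF c tau lam om a b w (WB s m) T ∧
            Real.sqrt (FF c tau lam om a b w (WB s (m + k)) T) < q ^ k * A - k * (Real.sqrt kap + r)) +
          pr (WB s (m + k + 1)) (fun T => Real.sqrt (FF c tau lam om a b w (WB s (m + k + 1)) T) <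
            q * Real.sqrt (FF c tau lam om a b w (WB s (m + k)) T) - Real.sqrt kap - r) := by
        refine pr_le_add fun T hT h => ?_
        by_cases h4 : Real.sqrt (FF c tau lam om a b w (WB s (m + k)) T) < q ^ k * A - k * (Real.sqrt kap + r)
        · exact Or.inl ⟨h.1, h4⟩
        · right
          push Not at h4
          refine h.2.trans_le ?_
          have h5 : q * (q ^ k * A - k * (Real.sqrt kap + r)) ≤ q * Real.sqrt (FF c tau lam om a b w (WB s (m + k)) T) :=
            mul_le_mul_of_nonneg_left h4 hq0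
          have h6 : q * (k * (Real.sqrt kap + r)) ≤ k * (Real.sqrt kap + r) :=
            mul_le_of_le_one_left (by positivity) hq1
          push_cast
          rw [pow_succ]
          nlinarith
      have h4 : pr (WB s (m + k + 1)) (fun T => A ^ 2 ≤ FF c tau lam om a b w (WB s m) T ∧
            Real.sqrt (FF c tau lam om a b w (WB s (m + k)) T) < q ^ k * A - k * (Real.sqrt kap + r)) =
          pr (WB s (m + k)) (fun T => A ^ 2 ≤ FF c tau lam om a b w (WB s m) T ∧
            Real.sqrt (FF c tau lam om a b w (WB s (m + k)) T) < q ^ k * A - k * (Real.sqrt kap + r)) := by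
        refine pr_restrict (WB_mono (Nat.le_succ _)) _ fun T => ?_
        rw [FF_congr (S := WB s m) (T := T) (T' := T ∩ WB s (m + k)) (fun p hp => by
            have := WB_mono (s := s) (Nat.le_add_right m k) hp
            simp [this]),
          FF_congr (S := WB s (m + k)) (T := T) (T' := T ∩ WB s (m + k)) (fun p hp => by simp [hp])]
      have h5 : pr (WB s (m + k + 1)) (fun T => Real.sqrt (FF c tau lam om a b w (WB s (m + k + 1)) T) <
            q * Real.sqrt (FF c tau lam om a b w (WB s (m + k)) T) - Real.sqrt kap - r) ≤ 2 * E := by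
        conv_lhs => rw [WB_succ hsk']
        unfold pr
        rw [av_union (WB_disj s (m + k))]
        refine le_trans (av_mono (G := fun _ => 2 * E) fun T0 hT0 => ?_) (av_const _ _).le
        have h6 := level (m + k) (by omega) (by omega) T0 hT0
        unfold pr at h6
        rw [← WB_succ hsk']
        refine le_trans (le_of_eq (av_congr fun T hT => ?_)) h6
        beta_reduce
        rw [FF_congr (S := WB s (m + k)) (T := T0 ∪ T) (T' := T0) (fun p hp => by
          have : p ∉ T := fun h => Finset.disjoint_left.1 (WB_disj s (m + k)) hp (hT h)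
          simp [this])]
      rw [h4] at h3
      refine (h3.trans (add_le_add ih' h5)).trans (le_of_eq ?_)
      push_cast
      ring
  obtain ⟨k, rfl⟩ := Nat.exists_eq_add_of_le hmn
  have h3 := ind k le_rfl
  have e1 : (((m + k : ℕ) : ℝ) - m) = k := by push_cast; ring
  rw [e1] at hsmall ⊢
  refine le_trans (pr_mono ?_) h3
  rintro T hT ⟨h4, h5⟩
  refine ⟨h4, h5.trans_le ?_⟩
  have h6 : (1 : ℝ) / 2 ≤ q ^ k := by
    rcases Nat.eq_zero_or_pos k with rfl | hk0
    · norm_num
    · have hk1 : (1 : ℝ) ≤ k := by exact_mod_cast hk0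
      have hpos : 0 ≤ C * om ^ 2 := by positivity
      have hCo : C * om ^ 2 ≤ 1 / 2 := by nlinarith
      have h7 : (1 : ℝ) + k * (-(C * om ^ 2)) ≤ (1 + -(C * om ^ 2)) ^ k :=
        one_add_mul_le_pow (by linarith) k
      have h8 : (q ^ k) ^ 2 = (1 + -(C * om ^ 2)) ^ k := by
        rw [← pow_mul, mul_comm k 2, pow_mul, hq, Real.sq_sqrt (by linarith)]
        ring
      have h9 : 0 ≤ q ^ k := by positivity
      nlinarith
  nlinarith
end Pool.Agent.Helper96.IT
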