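import Pool.Agent.Helper96.IT.Theta

/-!
# Project IT (port of CM) (MP_a499ba_nt). CM8b: exponential moment of the barrier distance
-/

set_option autoImplicit false

namespace Pool.Agent.Helper96.IT

open Finset Pool.Agent.Helper5.RM Pool.Agent.Helper96.AF Pool.Agent.Helper96.CM

private lemma point_av {AA a : ℝ} {C : ℝ} (hC : ∀ c : ℕ → ℝ × ℝ, Adm c → Th AA a c → ∀ s l : ℕ, s ≤ l → ∀ t ∈ Set.Icc a 1,
    ∑ p ∈ WB s l, tc c p t ^ 2 ≤ 2 * Real.log 2 * ((l : ℝ) - s) + C) {c : ℕ → ℝ × ℝ} (hc : Adm c) (hT : Th AA a c) {lam mu : ℝ}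
    (h0 : 0 ≤ lam) (h1 : lam ≤ 1) {s m : ℕ} (hsm : s ≤ m) {t : ℝ} (ht : t ∈ Set.Icc a 1) :
    av (WB s m) (fun T => RR c lam (WB s m) T t * Real.exp (mu * XX c (fun _ => lam) (WB s m) T t)) ≤
      Real.exp (4 * mu ^ 2 * (2 * Real.log 2 * ((m : ℝ) - s) + C)) := by
  have hθ : ∀ p ∈ WB s m, |lam * tc c p t| ≤ 1 := by
    intro p hp
    have h2 := abs_tc_lt_one hc (two_le_WB hp) t
    rw [abs_mul, abs_of_nonneg h0]
    have := abs_nonneg (tc c p t)
    nlinarith
  have e : av (WB s m) (fun T => RR c lam (WB s m) T t * Real.exp (mu * XX c (fun _ => lam) (WB s m) T t)) =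
      aw (WB s m) (fun p => lam * tc c p t)
        (fun T => Real.exp (∑ p ∈ WB s m, (-(mu * tc c p t)) * (sg T p - lam * tc c p t))) := by
    unfold aw RR XX
    refine av_congr fun T _ => ?_
    congr 2
    rw [mul_neg, Finset.mul_sum, ← Finset.sum_neg_distrib]
    exact Finset.sum_congr rfl fun p _ => by ring
  rw [e]
  refine (Pool.Agent.Helper66.AF.aw_exp_le hθ _).trans (Real.exp_le_exp.2 ?_)
  have e2 : ∑ p ∈ WB s m, (-(mu * tc c p t)) ^ 2 = mu ^ 2 * ∑ p ∈ WB s m, tc c p t ^ 2 := by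
    rw [Finset.mul_sum]
    exact Finset.sum_congr rfl fun p _ => by ring
  rw [e2]
  have h3 := mul_le_mul_of_nonneg_left (hC c hc hT s m hsm t ht) (sq_nonneg mu)
  linarith

theorem convert_av (AA a b : ℝ) (ha : 0 < a) (hab : a < b) (hb : b ≤ 1) : ∃ C : ℝ, 0 < C ∧ ∀ (c : ℕ → ℝ × ℝ)
    (lam mu : ℝ) (s m : ℕ), Adm c → Th AA a c → 0 ≤ lam → lam ≤ 1 → s ≤ m →
    av (WB s m) (fun T => ∫ t in a..b, RR c lam (WB s m) T t * Real.exp (mu * XX c (fun _ => lam) (WB s m) T t)) ≤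
      Real.exp (4 * mu ^ 2 * (2 * Real.log 2 * ((m : ℝ) - s) + C)) := by
  obtain ⟨C, hC0, hC⟩ := theta_up AA a
  refine ⟨C, hC0, fun c lam mu s m hc hT h0 h1 hsm => ?_⟩
  have hcont : ∀ T : Finset ℕ, Continuous (fun t => RR c lam (WB s m) T t *
      Real.exp (mu * XX c (fun _ => lam) (WB s m) T t)) := fun T =>
    (continuous_RR c lam _ T).mul (Real.continuous_exp.comp (continuous_const.mul (continuous_XX c _ _ T)))
  simp only [intervalIntegral.integral_of_le hab.le]
  rw [av_integral _ _ _ fun T _ => ((hcont T).integrableOn_Icc (a := a) (b := b)).mono_set Set.Ioc_subset_Icc_self]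
  set E := Real.exp (4 * mu ^ 2 * (2 * Real.log 2 * ((m : ℝ) - s) + C)) with hE
  have hcont2 : Continuous (fun t => av (WB s m) (fun T => RR c lam (WB s m) T t *
      Real.exp (mu * XX c (fun _ => lam) (WB s m) T t))) := by
    unfold av
    exact (continuous_finsetSum _ fun T _ => hcont T).div_const _
  have h2 : ∫ t in Set.Ioc a b, av (WB s m) (fun T => RR c lam (WB s m) T t *
      Real.exp (mu * XX c (fun _ => lam) (WB s m) T t)) ≤ ∫ t in Set.Ioc a b, E := by
    refine MeasureTheory.setIntegral_mono_on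
      ((hcont2.integrableOn_Icc (a := a) (b := b)).mono_set Set.Ioc_subset_Icc_self)
      (MeasureTheory.integrableOn_const (by simp)) measurableSet_Ioc fun t ht => ?_
    exact point_av hC hc hT h0 h1 hsm ⟨ht.1.le, ht.2.trans hb⟩
  refine h2.trans ?_
  rw [MeasureTheory.setIntegral_const, MeasureTheory.measureReal_def, Real.volume_Ioc,
    ENNReal.toReal_ofReal (by linarith), smul_eq_mul]
  have hE0 : 0 < E := Real.exp_pos _
  nlinarith

end Pool.Agent.Helper96.IT
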