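import Pool.Agent.Helper96.CM.Gf
import Pool.Agent.Helper96.CM.Schur
import Pool.Agent.Helper96.CM.Conc
import Pool.Agent.Helper96.CM.Step
import Pool.Agent.Helper96.CM.Par

/-!
# Project IT (port of CM) (MP_a499ba_nt): lower bound for the critical chaos of the random Euler product. Definitions
-/

set_option autoImplicit false

namespace Pool.Agent.Helper96.IT

open Finset Pool.Agent.Helper5.RM Pool.Agent.Helper96.AF Pool.Agent.Helper96.CM

/-- admissible coefficients -/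
def Adm (c : ℕ → ℝ × ℝ) : Prop := ∀ p : ℕ, 0 ≤ (c p).1 ∧ (c p).1 ≤ 2 * Real.sqrt p / (p + 1)

noncomputable def tc (c : ℕ → ℝ × ℝ) (p : ℕ) (t : ℝ) : ℝ := (c p).1 * Real.cos (t * Real.log p - (c p).2)

/-- the normalised Euler product -/
noncomputable def dc (c : ℕ → ℝ × ℝ) (S T : Finset ℕ) (t : ℝ) : ℝ := ∏ p ∈ S, (1 + sg T p * tc c p t)

/-- the density of the tilt -/
noncomputable def RR (c : ℕ → ℝ × ℝ) (lam : ℝ) (S T : Finset ℕ) (t : ℝ) : ℝ :=
  ∏ p ∈ S, (1 + sg T p * (lam * tc c p t))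

/-- the distance to the barrier -/
noncomputable def XX (c : ℕ → ℝ × ℝ) (tau : ℕ → ℝ) (S T : Finset ℕ) (t : ℝ) : ℝ :=
  - ∑ p ∈ S, tc c p t * (sg T p - tau p * tc c p t)

/-- the truncated mass -/
noncomputable def FF (c : ℕ → ℝ × ℝ) (tau : ℕ → ℝ) (lam om a b : ℝ) (w : ℝ → ℝ) (S T : Finset ℕ) : ℝ :=
  ∫ t in a..b, w t * (RR c lam S T t * Gf om (XX c tau S T t))

/-- the sum of the squares is at most the mean, up to a constant -/
def Th (A a : ℝ) (c : ℕ → ℝ × ℝ) : Prop := ∀ s l : ℕ, s ≤ l → ∀ t ∈ Set.Icc a 1,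
  ∑ p ∈ WB s l, tc c p t ^ 2 ≤ 2 * Real.log 2 * ((l : ℝ) - s) + A

/-! ### basic facts -/

lemma abs_tc_le {c : ℕ → ℝ × ℝ} (hc : Adm c) (p : ℕ) (t : ℝ) : |tc c p t| ≤ 2 * Real.sqrt p / (p + 1) := by
  unfold tc
  rw [abs_mul, abs_of_nonneg (hc p).1]
  exact (mul_le_of_le_one_right (hc p).1 (Real.abs_cos_le_one _)).trans (hc p).2

lemma tc_sq_le {c : ℕ → ℝ × ℝ} (hc : Adm c) {p : ℕ} (hp : 1 ≤ p) (t : ℝ) : tc c p t ^ 2 ≤ 4 / p := by
  have h0 : (1 : ℝ) ≤ p := by exact_mod_cast hp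
  have h1 : tc c p t ^ 2 ≤ (2 * Real.sqrt p / (p + 1)) ^ 2 := by
    rw [← sq_abs]
    exact pow_le_pow_left₀ (abs_nonneg _) (abs_tc_le hc p t) 2
  refine h1.trans ?_
  rw [div_pow, mul_pow, Real.sq_sqrt (by positivity), div_le_div_iff₀ (by positivity) (by positivity)]
  nlinarith

lemma abs_tc_le' {c : ℕ → ℝ × ℝ} (hc : Adm c) {p : ℕ} (hp : 1 ≤ p) (t : ℝ) : |tc c p t| ≤ 2 / Real.sqrt p := by
  have h0 : (1 : ℝ) ≤ p := by exact_mod_cast hp
  have h1 := tc_sq_le hc hp t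
  have h2 : 0 < Real.sqrt p := Real.sqrt_pos.2 (by linarith)
  refine abs_le_of_sq_le_sq ?_ (by positivity)
  rw [div_pow, Real.sq_sqrt (by positivity)]
  norm_num
  exact h1

lemma abs_tc_lt_one {c : ℕ → ℝ × ℝ} (hc : Adm c) {p : ℕ} (hp : 2 ≤ p) (t : ℝ) : |tc c p t| < 1 := by
  have h0 : (2 : ℝ) ≤ p := by exact_mod_cast hp
  refine (abs_tc_le hc p t).trans_lt ?_
  rw [div_lt_one (by positivity)]
  have h1 : Real.sqrt p ^ 2 = p := Real.sq_sqrt (by positivity)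
  have h2 : 1 < Real.sqrt p := by
    rw [Real.lt_sqrt (by norm_num)]
    linarith
  nlinarith

/-- for `p ≥ 16` -/
lemma abs_tc_le_half {c : ℕ → ℝ × ℝ} (hc : Adm c) {p : ℕ} (hp : 16 ≤ p) (t : ℝ) : |tc c p t| ≤ 1 / 2 := by
  refine (abs_tc_le' hc (by omega) t).trans ?_
  have h0 : (16 : ℝ) ≤ p := by exact_mod_cast hp
  have h2 : 4 ≤ Real.sqrt p := by
    rw [Real.le_sqrt' (by norm_num)]
    linarith
  rw [div_le_div_iff₀ (by linarith) (by norm_num)]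
  linarith

lemma continuous_tc (c : ℕ → ℝ × ℝ) (p : ℕ) : Continuous (tc c p) := by
  unfold tc
  fun_prop

lemma continuous_RR (c : ℕ → ℝ × ℝ) (lam : ℝ) (S T : Finset ℕ) : Continuous (RR c lam S T) := by
  unfold RR
  refine continuous_finsetProd _ fun p _ => ?_
  exact continuous_const.add (continuous_const.mul (continuous_const.mul (continuous_tc c p)))

lemma continuous_dc (c : ℕ → ℝ × ℝ) (S T : Finset ℕ) : Continuous (dc c S T) := by
  unfold dc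
  refine continuous_finsetProd _ fun p _ => ?_
  exact continuous_const.add (continuous_const.mul (continuous_tc c p))

lemma continuous_XX (c : ℕ → ℝ × ℝ) (tau : ℕ → ℝ) (S T : Finset ℕ) : Continuous (XX c tau S T) := by
  unfold XX
  refine (continuous_finsetSum _ fun p _ => ?_).neg
  exact (continuous_tc c p).mul (continuous_const.sub (continuous_const.mul (continuous_tc c p)))

lemma RR_pos {c : ℕ → ℝ × ℝ} (hc : Adm c) {lam : ℝ} (h0 : 0 ≤ lam) (h1 : lam ≤ 1) {S : Finset ℕ} (hS : ∀ p ∈ S, 2 ≤ p)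
    (T : Finset ℕ) (t : ℝ) : 0 < RR c lam S T t := by
  unfold RR
  refine Finset.prod_pos fun p hp => ?_
  have h2 := abs_tc_lt_one hc (hS p hp) t
  have h3 : |sg T p * (lam * tc c p t)| < 1 := by
    rw [abs_mul, abs_sg, one_mul, abs_mul, abs_of_nonneg h0]
    have := abs_nonneg (tc c p t)
    nlinarith
  linarith [(abs_lt.1 h3).1]

lemma dc_pos {c : ℕ → ℝ × ℝ} (hc : Adm c) {S : Finset ℕ} (hS : ∀ p ∈ S, 2 ≤ p)
    (T : Finset ℕ) (t : ℝ) : 0 < dc c S T t := by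
  have h := RR_pos hc (lam := 1) zero_le_one le_rfl hS T t
  unfold RR at h
  simpa [dc] using h

lemma dc_eq_RR (c : ℕ → ℝ × ℝ) (S T : Finset ℕ) (t : ℝ) : dc c S T t = RR c 1 S T t := by
  unfold dc RR
  simp

lemma RR_union {S S' : Finset ℕ} (h : Disjoint S S') (c : ℕ → ℝ × ℝ) (lam : ℝ) (T : Finset ℕ) (t : ℝ) :
    RR c lam (S ∪ S') T t = RR c lam S T t * RR c lam S' T t := by
  unfold RR
  rw [Finset.prod_union h]

lemma dc_union {S S' : Finset ℕ} (h : Disjoint S S') (c : ℕ → ℝ × ℝ) (T : Finset ℕ) (t : ℝ) :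
    dc c (S ∪ S') T t = dc c S T t * dc c S' T t := by
  unfold dc
  rw [Finset.prod_union h]

lemma XX_union {S S' : Finset ℕ} (h : Disjoint S S') (c : ℕ → ℝ × ℝ) (tau : ℕ → ℝ) (T : Finset ℕ) (t : ℝ) :
    XX c tau (S ∪ S') T t = XX c tau S T t + XX c tau S' T t := by
  unfold XX
  rw [Finset.sum_union h]
  ring

lemma RR_congr {S T T' : Finset ℕ} (h : ∀ p ∈ S, (p ∈ T ↔ p ∈ T')) (c : ℕ → ℝ × ℝ) (lam t : ℝ) :
    RR c lam S T t = RR c lam S T' t := by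
  unfold RR
  exact Finset.prod_congr rfl fun p hp => by rw [sg_congr (h p hp)]

lemma dc_congr {S T T' : Finset ℕ} (h : ∀ p ∈ S, (p ∈ T ↔ p ∈ T')) (c : ℕ → ℝ × ℝ) (t : ℝ) :
    dc c S T t = dc c S T' t := by
  unfold dc
  exact Finset.prod_congr rfl fun p hp => by rw [sg_congr (h p hp)]

lemma XX_congr {S T T' : Finset ℕ} (h : ∀ p ∈ S, (p ∈ T ↔ p ∈ T')) (c : ℕ → ℝ × ℝ) (tau : ℕ → ℝ) (t : ℝ) :
    XX c tau S T t = XX c tau S T' t := by
  unfold XX
  congr 1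
  exact Finset.sum_congr rfl fun p hp => by rw [sg_congr (h p hp)]

lemma FF_congr {S T T' : Finset ℕ} (h : ∀ p ∈ S, (p ∈ T ↔ p ∈ T')) (c : ℕ → ℝ × ℝ) (tau : ℕ → ℝ) (lam om a b : ℝ) (w : ℝ → ℝ) :
    FF c tau lam om a b w S T = FF c tau lam om a b w S T' := by
  unfold FF
  refine intervalIntegral.integral_congr fun t _ => ?_
  simp only [RR_congr h, XX_congr h]

end Pool.Agent.Helper96.IT
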