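import Pool.Agent.Helper71.MA.Main
import Pool.Agent.Helper55.IT.Mt

/-!
# Project IT (MP_a499ba_nt): directional recurrence at `t` from the one-sided theory (general lemma)
-/

set_option autoImplicit false

open Complex Filter Topology MeasureTheory Set
open Pool.Agent.Helper57.Zeta
open Pool.Agent.IT (mt DgAt)

namespace Pool.Agent.Helper96.ITd

/-- the exponent `iθ - 1/2` -/
noncomputable def cc (θ : ℝ) : ℂ := Complex.I * θ - 1 / 2

/-- `F(u) + iθ ∫_0^u F(w) e^{(iθ - 1/2)(u - w)} dw` -/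
noncomputable def Pf (F : ℝ → ℝ) (θ u : ℝ) : ℂ :=
  (F u : ℂ) + Complex.I * θ * ∫ w in (0:ℝ)..u, (F w : ℂ) * cexp (cc θ * ((u - w : ℝ) : ℂ))

/-- one-sided eventual bounds of the twisted function are bounds everywhere, and give the Riemann hypothesis -/
def TwLe (F : ℝ → ℝ) (θ : ℝ) : Prop := ∃ κ : ℂ, ∀ φ B : ℝ,
  (∀ η : ℝ, 0 < η → ∃ U : ℝ, ∀ u : ℝ, U ≤ u → (cexp (Complex.I * φ) * (Pf F θ u + κ * cexp (cc θ * u))).re ≤ B + η) →
  (∀ u : ℝ, (cexp (Complex.I * φ) * (Pf F θ u + κ * cexp (cc θ * u))).re ≤ B) ∧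
    (∀ w : ℂ, xi (1 / 2 + w) = 0 → w.re = 0)

theorem norm_ccexp (θ u : ℝ) : ‖cexp (cc θ * u)‖ = Real.exp (-(u / 2)) := by
  rw [Complex.norm_exp]
  congr 1
  simp [cc]
  ring

theorem ccexp_eq (θ u : ℝ) : cexp (cc θ * u) = ((Real.exp (-(u / 2)) : ℝ) : ℂ) * cexp (Complex.I * ((θ * u : ℝ) : ℂ)) := by
  rw [Complex.ofReal_exp, ← Complex.exp_add]
  congr 1
  unfold cc
  push_cast
  ring

theorem norm_phi (φ : ℝ) : ‖cexp (Complex.I * φ)‖ = 1 := by
  rw [mul_comm, Complex.norm_exp_ofReal_mul_I]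

/-- the circle -/
theorem circle {θ : ℝ} (hθ : 10 ≤ |θ|) (φ : ℝ) (z : ℂ) : ∃ u : ℝ, 0 ≤ u ∧ u < Real.log 2 ∧
    cexp (Complex.I * φ) * (z * cexp (Complex.I * ((θ * u : ℝ) : ℂ))) = (‖z‖ : ℂ) := by
  have hpi := Real.pi_pos
  have hθ0 : 0 < |θ| := by linarith
  obtain ⟨s, hs, hsθ⟩ : ∃ s : ℤ, (s = 1 ∨ s = -1) ∧ θ = s * |θ| := by
    rcases le_total 0 θ with h | h
    · exact ⟨1, Or.inl rfl, by rw [abs_of_nonneg h]; simp⟩
    · exact ⟨-1, Or.inr rfl, by rw [abs_of_nonpos h]; simp⟩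
  set β : ℝ := φ + Complex.arg z with hβ
  set v : ℝ := 2 * Real.pi * Int.fract (-(s * β) / (2 * Real.pi)) with hv
  have h0 := Int.fract_nonneg (-(s * β) / (2 * Real.pi))
  have h1 := Int.fract_lt_one (-(s * β) / (2 * Real.pi))
  have hv0 : 0 ≤ v := by positivity
  have hv1 : v < 2 * Real.pi := by
    have := mul_lt_mul_of_pos_left h1 (by positivity : 0 < 2 * Real.pi)
    rw [mul_one] at this
    exact this
  have hv2 : v = -(s * β) - 2 * Real.pi * (⌊-(s * β) / (2 * Real.pi)⌋ : ℝ) := by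
    rw [hv, Int.fract]
    field_simp
  refine ⟨v / |θ|, by positivity, ?_, ?_⟩
  · rw [div_lt_iff₀ hθ0]
    have h2 := Real.log_two_gt_d9
    have h3 := Real.pi_lt_d2
    nlinarith
  · have h4 : θ * (v / |θ|) = s * v := by
      rw [hsθ, abs_mul, abs_abs]
      have : |(s : ℝ)| = 1 := by rcases hs with h | h <;> rw [h] <;> simp
      rw [this, one_mul]
      field_simp
    have hss : (s : ℝ) * s = 1 := by rcases hs with h | h <;> rw [h] <;> simp
    have h5 : (s : ℝ) * v = -β + ((-s * ⌊-(s * β) / (2 * Real.pi)⌋ : ℤ) : ℝ) * (2 * Real.pi) := by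
      rw [hv2]
      push_cast
      linear_combination (-β) * hss
    have hz : z = (‖z‖ : ℂ) * cexp (Complex.arg z * Complex.I) := (Complex.norm_mul_exp_arg_mul_I z).symm
    rw [h4, h5]
    calc cexp (Complex.I * φ) * (z * cexp (Complex.I * ((-β + ((-s * ⌊-(s * β) / (2 * Real.pi)⌋ : ℤ) : ℝ) * (2 * Real.pi) : ℝ) : ℂ)))
        = (‖z‖ : ℂ) * (cexp (Complex.I * φ) * cexp (Complex.arg z * Complex.I) *
          cexp (Complex.I * ((-β + ((-s * ⌊-(s * β) / (2 * Real.pi)⌋ : ℤ) : ℝ) * (2 * Real.pi) : ℝ) : ℂ))) := by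
          conv_lhs => rw [hz]
          ring
      _ = (‖z‖ : ℂ) * 1 := by
          congr 1
          rw [← Complex.exp_add, ← Complex.exp_add, Complex.exp_eq_one_iff]
          refine ⟨-s * ⌊-(s * β) / (2 * Real.pi)⌋, ?_⟩
          rw [hβ]
          push_cast
          ring
      _ = _ := mul_one _

/-- the rotated sums on `[1, 2)` -/
theorem mt_small {a : ℕ → ℂ} (ha : a 1 = 1) (θ : ℝ) {u : ℝ} (h0 : 0 ≤ u) (h1 : u < Real.log 2) :
    mt a θ (Real.exp u) = cexp (Complex.I * ((θ * u : ℝ) : ℂ)) := by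
  have h2 : ⌊Real.exp u⌋₊ = 1 := by
    rw [Nat.floor_eq_iff (Real.exp_pos _).le]
    constructor
    · simpa using Real.one_le_exp h0
    · have := (Real.lt_log_iff_exp_lt (by norm_num)).1 h1
      norm_num
      linarith
  unfold Pool.Agent.IT.mt
  rw [h2]
  simp [ha]

/-- general lemma: directional bound for the rotated sums -/
theorem dg_gen {F : ℝ → ℝ} {a : ℕ → ℂ} (ha : a 1 = 1) {θ C1 C2 : ℝ} (hθ : 10 ≤ |θ|) (hT : TwLe F θ)
    (h1 : ∀ η : ℝ, 0 < η → ∃ U : ℝ, ∀ u : ℝ, U ≤ u →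
      ‖Pf F θ u - ((Real.exp (-(u / 2)) : ℝ) : ℂ) * mt a θ (Real.exp u)‖ ≤ C1 + η)
    (h2 : (∀ w : ℂ, xi (1 / 2 + w) = 0 → w.re = 0) → ∃ k : ℂ, ∀ u : ℝ, 0 ≤ u →
      ‖Pf F θ u - ((Real.exp (-(u / 2)) : ℝ) : ℂ) * mt a θ (Real.exp u) - k * cexp (cc θ * u)‖ ≤ C2) :
    DgAt a (3 * (C1 + C2) + 1) θ := by
  obtain ⟨κ, hκ⟩ := hT
  intro φ B x0 hB hx
  set e : ℂ := cexp (Complex.I * φ) with he
  have hne : ‖e‖ = 1 := norm_phi φ
  have hre : ∀ z : ℂ, (e * z).re ≤ ‖z‖ := by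
    intro z
    refine (Complex.re_le_norm _).trans ?_
    rw [norm_mul, hne, one_mul]
  have hsq : ∀ u : ℝ, Real.sqrt (Real.exp u) = Real.exp (u / 2) := by
    intro u
    rw [Real.sqrt_eq_rpow, ← Real.exp_mul]
    congr 1; ring
  have hmre : ∀ u : ℝ, (e * (((Real.exp (-(u / 2)) : ℝ) : ℂ) * mt a θ (Real.exp u))).re =
      Real.exp (-(u / 2)) * (e * mt a θ (Real.exp u)).re := by
    intro u
    rw [mul_left_comm, Complex.re_ofReal_mul]
  have hee : ∀ u : ℝ, Real.exp (-(u / 2)) * Real.exp (u / 2) = 1 := by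
    intro u
    rw [← Real.exp_add]; simp
  have hev : ∀ η : ℝ, 0 < η → ∃ U : ℝ, ∀ u : ℝ, U ≤ u →
      (e * (Pf F θ u + κ * cexp (cc θ * u))).re ≤ (B + C1) + η := by
    intro η hη
    obtain ⟨U1, hU1⟩ := h1 (η / 2) (by positivity)
    have hlim : Tendsto (fun u : ℝ => ‖κ‖ * Real.exp (-(u / 2))) atTop (𝓝 (‖κ‖ * 0)) := by
      apply Tendsto.const_mul
      apply Real.tendsto_exp_neg_atTop_nhds_zero.comp
      exact Tendsto.atTop_div_const (by norm_num) tendsto_id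
    rw [mul_zero] at hlim
    have h3 := hlim.eventually (ge_mem_nhds (show (0:ℝ) < η / 2 by positivity))
    obtain ⟨U2, hU2⟩ := eventually_atTop.1 h3
    have h4 := Real.tendsto_exp_atTop.eventually (eventually_ge_atTop x0)
    obtain ⟨U3, hU3⟩ := eventually_atTop.1 h4
    refine ⟨max U1 (max U2 U3), fun u hu => ?_⟩
    have hu1 := hU1 u ((le_max_left _ _).trans hu)
    have hu2 := hU2 u ((le_max_left _ _).trans ((le_max_right _ _).trans hu))
    have hu3 := hx (Real.exp u) (hU3 u ((le_max_right _ _).trans ((le_max_right _ _).trans hu)))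
    rw [hsq] at hu3
    have e1 : e * (Pf F θ u + κ * cexp (cc θ * u)) =
        e * (Pf F θ u - ((Real.exp (-(u / 2)) : ℝ) : ℂ) * mt a θ (Real.exp u)) +
        e * (((Real.exp (-(u / 2)) : ℝ) : ℂ) * mt a θ (Real.exp u)) + e * (κ * cexp (cc θ * u)) := by ring
    rw [e1, Complex.add_re, Complex.add_re, hmre]
    have h5 := hre (Pf F θ u - ((Real.exp (-(u / 2)) : ℝ) : ℂ) * mt a θ (Real.exp u))
    have h6 := hre (κ * cexp (cc θ * u))
    rw [norm_mul, norm_ccexp] at h6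
    have h7 : Real.exp (-(u / 2)) * (e * mt a θ (Real.exp u)).re ≤ B := by
      have := mul_le_mul_of_nonneg_left hu3 (Real.exp_pos (-(u / 2))).le
      calc _ ≤ Real.exp (-(u / 2)) * (B * Real.exp (u / 2)) := this
        _ = B * (Real.exp (-(u / 2)) * Real.exp (u / 2)) := by ring
        _ = B := by rw [hee, mul_one]
    linarith
  obtain ⟨h3, hRH⟩ := hκ φ (B + C1) hev
  obtain ⟨k, hk⟩ := h2 hRH
  set W : ℝ := B + C1 + C2 with hW
  have h4 : ∀ u : ℝ, 0 ≤ u →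
      (e * (((Real.exp (-(u / 2)) : ℝ) : ℂ) * mt a θ (Real.exp u) + (k + κ) * cexp (cc θ * u))).re ≤ W := by
    intro u hu
    have h5 := h3 u
    have h6 := hk u hu
    have e1 : e * (((Real.exp (-(u / 2)) : ℝ) : ℂ) * mt a θ (Real.exp u) + (k + κ) * cexp (cc θ * u)) =
        e * (Pf F θ u + κ * cexp (cc θ * u)) +
        e * (-(Pf F θ u - ((Real.exp (-(u / 2)) : ℝ) : ℂ) * mt a θ (Real.exp u) - k * cexp (cc θ * u))) := by ring
    rw [e1, Complex.add_re]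
    have h7 := hre (-(Pf F θ u - ((Real.exp (-(u / 2)) : ℝ) : ℂ) * mt a θ (Real.exp u) - k * cexp (cc θ * u)))
    rw [norm_neg] at h7
    linarith
  have h5 : ‖1 + k + κ‖ ≤ 3 / 2 * W := by
    obtain ⟨u, hu0, hu1, hu⟩ := circle hθ φ (1 + k + κ)
    have h6 := h4 u hu0
    rw [mt_small ha θ hu0 hu1] at h6
    have e1 : e * (((Real.exp (-(u / 2)) : ℝ) : ℂ) * cexp (Complex.I * ((θ * u : ℝ) : ℂ)) + (k + κ) * cexp (cc θ * u)) =
        ((Real.exp (-(u / 2)) * ‖1 + k + κ‖ : ℝ) : ℂ) := by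
      push_cast
      rw [← hu, ccexp_eq]
      push_cast
      ring
    rw [e1, Complex.ofReal_re] at h6
    have h7 : Real.exp (u / 2) ≤ 3 / 2 := by
      have h8 : Real.exp (u / 2) ≤ Real.exp (Real.log 2 / 2) := Real.exp_le_exp.2 (by linarith)
      have h9 : Real.exp (Real.log 2 / 2) ^ 2 = 2 := by
        rw [← Real.exp_nat_mul]
        push_cast
        rw [show (2 : ℝ) * (Real.log 2 / 2) = Real.log 2 by ring, Real.exp_log (by norm_num)]
      nlinarith [Real.exp_pos (Real.log 2 / 2)]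
    have h8 : ‖1 + k + κ‖ ≤ W * Real.exp (u / 2) := by
      have := mul_le_mul_of_nonneg_right h6 (Real.exp_pos (u / 2)).le
      calc ‖1 + k + κ‖ = ‖1 + k + κ‖ * (Real.exp (-(u / 2)) * Real.exp (u / 2)) := by rw [hee, mul_one]
        _ = Real.exp (-(u / 2)) * ‖1 + k + κ‖ * Real.exp (u / 2) := by ring
        _ ≤ _ := this
    have hW0 : 0 ≤ W := by
      have : 0 ≤ Real.exp (-(u / 2)) * ‖1 + k + κ‖ := by positivity
      linarith
    nlinarith
  have hW0 : 0 ≤ W := by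
    have := norm_nonneg (1 + k + κ)
    linarith
  have h6 : ‖k + κ‖ ≤ 1 + 3 / 2 * W := by
    have : k + κ = (1 + k + κ) - 1 := by ring
    rw [this]
    refine (norm_sub_le _ _).trans ?_
    rw [norm_one]
    linarith
  intro x hx1
  have hx0 : 0 < x := by linarith
  set u : ℝ := Real.log x with hu
  have hu0 : 0 ≤ u := Real.log_nonneg hx1
  have hxu : Real.exp u = x := Real.exp_log hx0
  have h7 := h4 u hu0
  rw [mul_add, Complex.add_re, hmre, hxu] at h7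
  have h8 := hre (-((k + κ) * cexp (cc θ * u)))
  rw [norm_neg, norm_mul, norm_ccexp, mul_neg, Complex.neg_re] at h8
  have h9 : Real.exp (-(u / 2)) ≤ 1 := Real.exp_le_one_iff.2 (by linarith)
  have h10 : Real.exp (-(u / 2)) * (e * mt a θ x).re ≤ W + (1 + 3 / 2 * W) := by
    have : ‖k + κ‖ * Real.exp (-(u / 2)) ≤ (1 + 3 / 2 * W) * 1 :=
      mul_le_mul h6 h9 (Real.exp_pos _).le (by positivity)
    linarith
  have h11 : (e * mt a θ x).re ≤ (W + (1 + 3 / 2 * W)) * Real.sqrt x := by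
    rw [← hxu, hsq]
    have := mul_le_mul_of_nonneg_right h10 (Real.exp_pos (u / 2)).le
    rw [hxu]
    calc (e * mt a θ x).re = (e * mt a θ x).re * (Real.exp (-(u / 2)) * Real.exp (u / 2)) := by rw [hee, mul_one]
      _ = Real.exp (-(u / 2)) * (e * mt a θ x).re * Real.exp (u / 2) := by ring
      _ ≤ _ := this
  refine h11.trans (mul_le_mul_of_nonneg_right ?_ (Real.sqrt_nonneg _))
  rw [hW] at hW0 ⊢
  linarith

end Pool.Agent.Helper96.ITd
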