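import Pool.Agent.Helper96.IT.DgL
import Pool.Agent.Helper51.IT.Uniq

/-!
# Project IT (MP_a499ba_nt): `StmtDgW lac`, no hypotheses
-/

set_option autoImplicit false

namespace Pool.Agent.Helper96.ITd

theorem stmtDgW_la : Pool.Agent.IT.StmtDgW Pool.Agent.IT.lac :=
  stmtDgW_la_of fun hRH _ _ _ hm hκ hκ2 h1 h2 h3 =>
    Pool.Agent.Helper51.IT.uniq_kr hRH hm hκ hκ2 h1 h2 h3

end Pool.Agent.Helper96.ITd
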