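import Pool.Agent.Helper96.IT.Dg
import Pool.Agent.Helper71.LA.LDec

/-!
# Project IT (MP_a499ba_nt): directional recurrence at `t` for the Liouville sums
-/

set_option autoImplicit false

open Complex Filter Topology MeasureTheory Set
open Pool.Agent.Helper57.Zeta
open Pool.Agent.IT (mt DgAt lac)
open Pool.Agent.Helper71.LA (Lf II CI CI_nonneg II_cont II_meas IIexp_le)
open Pool.Agent.Helper18.ES (S lam lam_le bb adm_S)

namespace Pool.Agent.Helper96.ITd

/-- the sums of `λ` -/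
noncomputable def llL (u : ℝ) : ℝ := S lam (Real.exp u) * Real.exp (-u / 2)

/-- the remainder -/
noncomputable def rhoL (u : ℝ) : ℝ := (1 + II (Real.exp u)) * Real.exp (-u / 2)

theorem Lf_split (u : ℝ) : Lf u = llL u - rhoL u - bb := by
  unfold Lf llL rhoL
  ring

theorem cc_ne (θ : ℝ) : cc θ ≠ 0 := by
  intro h
  have := congrArg Complex.re h
  simp [cc] at this

theorem norm_cc (θ : ℝ) : 1 / 2 ≤ ‖cc θ‖ := by
  have h := Complex.abs_re_le_norm (cc θ)
  have h2 : (cc θ).re = -(1 / 2) := by simp [cc]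
  rw [h2, abs_neg, abs_of_pos (by norm_num)] at h
  exact h

theorem ii_of_bd {f : ℝ → ℝ} (hf : Measurable f) {A : ℝ} (hb : ∀ t, |f t| ≤ A * Real.exp (3 / 4 * |t|)) (θ u a b : ℝ) :
    IntervalIntegrable (fun w : ℝ => (f w : ℂ) * cexp (cc θ * ((u - w : ℝ) : ℂ))) volume a b := by
  have hc : Continuous (fun w : ℝ => A * Real.exp (3 / 4 * |w|) * Real.exp (-((u - w) / 2))) := by fun_prop
  refine IntervalIntegrable.mono_fun' (hc.intervalIntegrable a b) ?_ ?_
  · apply Measurable.aestronglyMeasurable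
    fun_prop
  · filter_upwards with w
    rw [norm_mul, Complex.norm_real, Real.norm_eq_abs, norm_ccexp]
    exact mul_le_mul_of_nonneg_right (hb w) (Real.exp_pos _).le

theorem Pf_sub {f g : ℝ → ℝ} (hf : Measurable f) {A : ℝ} (hfb : ∀ t, |f t| ≤ A * Real.exp (3 / 4 * |t|))
    (hg : Measurable g) {B : ℝ} (hgb : ∀ t, |g t| ≤ B * Real.exp (3 / 4 * |t|)) (θ u : ℝ) :
    Pf (fun t => f t - g t) θ u = Pf f θ u - Pf g θ u := by
  unfold Pf
  have e : (∫ w in (0:ℝ)..u, ((f w - g w : ℝ) : ℂ) * cexp (cc θ * ((u - w : ℝ) : ℂ))) =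
      (∫ w in (0:ℝ)..u, (f w : ℂ) * cexp (cc θ * ((u - w : ℝ) : ℂ))) -
      ∫ w in (0:ℝ)..u, (g w : ℂ) * cexp (cc θ * ((u - w : ℝ) : ℂ)) := by
    rw [← intervalIntegral.integral_sub (ii_of_bd hf hfb θ u 0 u) (ii_of_bd hg hgb θ u 0 u)]
    apply intervalIntegral.integral_congr
    intro w _
    simp only
    push_cast; ring
  rw [e]
  push_cast
  ring

theorem int_ccexp (θ u : ℝ) : ∫ w in (0:ℝ)..u, cexp (cc θ * ((u - w : ℝ) : ℂ)) = (cexp (cc θ * u) - 1) / cc θ := by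
  have h := intervalIntegral.integral_comp_sub_left (a := 0) (b := u) (fun v : ℝ => cexp (cc θ * (v : ℂ))) u
  rw [sub_zero, sub_self] at h
  rw [h, integral_exp_mul_complex (cc_ne θ)]
  simp

theorem Pf_const (b θ u : ℝ) : Pf (fun _ => b) θ u =
    -((b : ℂ) / (2 * cc θ)) + (b : ℂ) * (Complex.I * θ / cc θ) * cexp (cc θ * u) := by
  unfold Pf
  have e : (∫ w in (0:ℝ)..u, (b : ℂ) * cexp (cc θ * ((u - w : ℝ) : ℂ))) = (b : ℂ) * ((cexp (cc θ * u) - 1) / cc θ) := by
    rw [← int_ccexp, ← intervalIntegral.integral_const_mul]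
  rw [e]
  have h := cc_ne θ
  have h2 : Complex.I * θ = cc θ + 1 / 2 := by unfold cc; ring
  field_simp
  rw [h2]
  ring

theorem llL_meas : Measurable llL := by
  have := (adm_S lam_le).meas
  unfold llL
  fun_prop

theorem rhoL_meas : Measurable rhoL := by
  have := II_meas
  unfold rhoL
  fun_prop

theorem llL_neg {u : ℝ} (h : u < 0) : llL u = 0 := by
  unfold llL
  rw [(adm_S lam_le).zero (Real.exp u) (Real.exp_lt_one_iff.2 h), zero_mul]

theorem llL_bd (t : ℝ) : |llL t| ≤ 1 * Real.exp (3 / 4 * |t|) := by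
  have hS := adm_S lam_le
  rcases lt_or_ge t 0 with h | h
  · rw [llL_neg h, abs_zero]
    positivity
  · unfold llL
    have h1 := hS.bound (Real.exp t) (Real.one_le_exp h)
    rw [abs_mul, abs_of_pos (Real.exp_pos _)]
    calc |S lam (Real.exp t)| * Real.exp (-t / 2) ≤ (1 * Real.exp t) * Real.exp (-t / 2) :=
          mul_le_mul_of_nonneg_right h1 (Real.exp_pos _).le
      _ = 1 * Real.exp (t + -t / 2) := by rw [mul_assoc, ← Real.exp_add]
      _ ≤ _ := by
        rw [abs_of_nonneg h, one_mul, one_mul]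
        apply Real.exp_le_exp.mpr; linarith

theorem rhoL_bd' (t : ℝ) : |rhoL t| ≤ Real.exp (-t / 2) + CI * Real.exp (-(3 * t / 4)) := by
  unfold rhoL
  have h1 := IIexp_le t
  rw [abs_mul, abs_of_pos (Real.exp_pos _)]
  have h4 : Real.exp (-t / 4) * Real.exp (-t / 2) = Real.exp (-(3 * t / 4)) := by
    rw [← Real.exp_add]; congr 1; ring
  have h5 : |1 + II (Real.exp t)| ≤ 1 + CI * Real.exp (-t / 4) := by
    have := abs_add_le 1 (II (Real.exp t))
    rw [abs_one] at this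
    linarith
  calc _ ≤ (1 + CI * Real.exp (-t / 4)) * Real.exp (-t / 2) := mul_le_mul_of_nonneg_right h5 (Real.exp_pos _).le
    _ = _ := by rw [← h4]; ring

theorem rhoL_bd (t : ℝ) : |rhoL t| ≤ (1 + CI) * Real.exp (3 / 4 * |t|) := by
  refine (rhoL_bd' t).trans ?_
  have hC := CI_nonneg
  have e2 : Real.exp (-t / 2) ≤ Real.exp (3 / 4 * |t|) := by
    apply Real.exp_le_exp.mpr
    have := neg_abs_le t
    have := abs_nonneg t
    linarith
  have e3 : Real.exp (-(3 * t / 4)) ≤ Real.exp (3 / 4 * |t|) := by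
    apply Real.exp_le_exp.mpr
    have := neg_abs_le t
    have := abs_nonneg t
    linarith
  nlinarith [mul_le_mul_of_nonneg_left e3 hC]

theorem rhoL_bdp {t : ℝ} (ht : 0 ≤ t) : |rhoL t| ≤ (1 + CI) * Real.exp (-(t / 2)) := by
  refine (rhoL_bd' t).trans ?_
  have hC := CI_nonneg
  have e3 : Real.exp (-(3 * t / 4)) ≤ Real.exp (-(t / 2)) := by
    apply Real.exp_le_exp.mpr
    linarith
  rw [neg_div]
  nlinarith [mul_le_mul_of_nonneg_left e3 hC]

theorem lac_eq (n : ℕ) : lac n = (lam n : ℂ) := by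
  unfold Pool.Agent.IT.lac lam
  rcases eq_or_ne n 0 with rfl | hn
  · simp
  · rw [if_neg hn, ArithmeticFunction.liouville_apply hn]
    push_cast
    rfl

/-- partial summation: the twisted sums -/
theorem Pf_llL (θ : ℝ) {u : ℝ} (hu : 0 ≤ u) :
    Pf llL θ u = ((Real.exp (-(u / 2)) : ℝ) : ℂ) * mt lac θ (Real.exp u) := by
  classical
  set N := ⌊Real.exp u⌋₊ with hN
  have hmem : ∀ n ∈ Finset.Icc 1 N, (0:ℝ) < n ∧ 0 ≤ Real.log n ∧ Real.log n ≤ u := by
    intro n hn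
    rw [Finset.mem_Icc] at hn
    have hn0 : (0:ℝ) < n := by exact_mod_cast hn.1
    have h3 : (n:ℝ) ≤ Real.exp u := (Nat.le_floor_iff (Real.exp_pos _).le).1 hn.2
    exact ⟨hn0, Real.log_nonneg (by exact_mod_cast hn.1), (Real.log_le_iff_le_exp hn0).2 h3⟩
  -- pointwise
  have hpt : ∀ w ∈ Icc (0:ℝ) u, (llL w : ℂ) * cexp (cc θ * ((u - w : ℝ) : ℂ)) =
      ∑ n ∈ Finset.Icc 1 N, (if Real.log n ≤ w then (lam n : ℂ) * ((Real.exp (-(u / 2)) : ℝ) : ℂ) *
        cexp (Complex.I * ((θ * (u - w) : ℝ) : ℂ)) else 0) := by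
    intro w hw
    have h1 : S lam (Real.exp w) = ∑ n ∈ Finset.Icc 1 N, if Real.log n ≤ w then lam n else 0 := by
      unfold S
      rw [← Finset.sum_filter]
      apply Finset.sum_congr _ (fun _ _ => rfl)
      ext n
      rw [Finset.mem_filter, Finset.mem_Icc, Finset.mem_Icc]
      constructor
      · rintro ⟨h1, h2⟩
        have hn0 : (0:ℝ) < n := by exact_mod_cast h1
        have h3 : (n:ℝ) ≤ Real.exp w := (Nat.le_floor_iff (Real.exp_pos _).le).1 h2
        have h4 : Real.log n ≤ w := (Real.log_le_iff_le_exp hn0).2 h3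
        exact ⟨⟨h1, (Nat.le_floor_iff (Real.exp_pos _).le).2 (h3.trans (Real.exp_le_exp.2 hw.2))⟩, h4⟩
      · rintro ⟨⟨h1, _⟩, h2⟩
        have hn0 : (0:ℝ) < n := by exact_mod_cast h1
        exact ⟨h1, (Nat.le_floor_iff (Real.exp_pos _).le).2 ((Real.log_le_iff_le_exp hn0).1 h2)⟩
    have h2 : ((Real.exp (-w / 2) : ℝ) : ℂ) * cexp (cc θ * ((u - w : ℝ) : ℂ)) =
        ((Real.exp (-(u / 2)) : ℝ) : ℂ) * cexp (Complex.I * ((θ * (u - w) : ℝ) : ℂ)) := by
      rw [Complex.ofReal_exp, Complex.ofReal_exp, ← Complex.exp_add, ← Complex.exp_add]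
      congr 1
      unfold cc
      push_cast
      ring
    unfold llL
    rw [h1, Complex.ofReal_mul, mul_assoc, h2, Complex.ofReal_sum, Finset.sum_mul]
    apply Finset.sum_congr rfl
    intro n _
    split_ifs
    · ring
    · simp
  have hS1 : (llL u : ℂ) = ∑ n ∈ Finset.Icc 1 N, (lam n : ℂ) * ((Real.exp (-(u / 2)) : ℝ) : ℂ) := by
    rw [← Finset.sum_mul]
    unfold llL S
    rw [neg_div]
    push_cast
    rfl
  have hint : ∀ n ∈ Finset.Icc 1 N, IntervalIntegrable (fun w : ℝ => (if Real.log n ≤ w then (lam n : ℂ) *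
      ((Real.exp (-(u / 2)) : ℝ) : ℂ) * cexp (Complex.I * ((θ * (u - w) : ℝ) : ℂ)) else 0)) volume 0 u := by
    intro n _
    have hc : Continuous (fun w : ℝ => (lam n : ℂ) *
      ((Real.exp (-(u / 2)) : ℝ) : ℂ) * cexp (Complex.I * ((θ * (u - w) : ℝ) : ℂ))) := by fun_prop
    have h := hc.intervalIntegrable (μ := volume) 0 u
    refine IntervalIntegrable.mono_fun h ?_ ?_
    · exact ((hc.measurable.ite measurableSet_Ici measurable_const)).aestronglyMeasurable
    · filter_upwards with w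
      split_ifs
      · exact le_rfl
      · rw [norm_zero]; exact norm_nonneg _
  have hval : ∀ n ∈ Finset.Icc 1 N, Complex.I * θ * (∫ w in (0:ℝ)..u, (if Real.log n ≤ w then (lam n : ℂ) *
      ((Real.exp (-(u / 2)) : ℝ) : ℂ) * cexp (Complex.I * ((θ * (u - w) : ℝ) : ℂ)) else 0)) =
      (lam n : ℂ) * ((Real.exp (-(u / 2)) : ℝ) : ℂ) * (cexp (Complex.I * ((θ * (u - Real.log n) : ℝ) : ℂ)) - 1) := by
    intro n hn
    obtain ⟨_, hl0, hl1⟩ := hmem n hn
    have hder : ∀ w : ℝ, HasDerivAt (fun w : ℝ => -((lam n : ℂ) * ((Real.exp (-(u / 2)) : ℝ) : ℂ) *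
        cexp (Complex.I * ((θ * (u - w) : ℝ) : ℂ)))) (Complex.I * θ * ((lam n : ℂ) *
      ((Real.exp (-(u / 2)) : ℝ) : ℂ) * cexp (Complex.I * ((θ * (u - w) : ℝ) : ℂ)))) w := by
      intro w
      have h1 : HasDerivAt (fun w : ℝ => ((θ * (u - w) : ℝ) : ℂ)) ((-θ : ℝ) : ℂ) w := by
        apply HasDerivAt.ofReal_comp
        have := ((hasDerivAt_id w).const_sub u).const_mul θ
        simpa using this
      have h2 := ((h1.const_mul Complex.I).cexp.const_mul ((lam n : ℂ) * ((Real.exp (-(u / 2)) : ℝ) : ℂ))).neg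
      refine h2.congr_deriv ?_
      push_cast
      ring
    rw [← intervalIntegral.integral_const_mul]
    have hsplit := intervalIntegral.integral_add_adjacent_intervals (a := 0) (b := Real.log n) (c := u) (μ := volume)
      (f := fun w : ℝ => Complex.I * θ * (if Real.log n ≤ w then (lam n : ℂ) *
      ((Real.exp (-(u / 2)) : ℝ) : ℂ) * cexp (Complex.I * ((θ * (u - w) : ℝ) : ℂ)) else 0))
      (((hint n hn).const_mul _).mono_set (by
        rw [uIcc_of_le hl0, uIcc_of_le hu]; exact Icc_subset_Icc le_rfl hl1))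
      (((hint n hn).const_mul _).mono_set (by
        rw [uIcc_of_le hl1, uIcc_of_le hu]; exact Icc_subset_Icc hl0 le_rfl))
    rw [← hsplit]
    have e1 : (∫ w in (0:ℝ)..Real.log n, Complex.I * θ * (if Real.log n ≤ w then (lam n : ℂ) *
      ((Real.exp (-(u / 2)) : ℝ) : ℂ) * cexp (Complex.I * ((θ * (u - w) : ℝ) : ℂ)) else 0)) = 0 := by
      apply intervalIntegral.integral_zero_ae
      have h3 : ∀ᵐ w : ℝ, w ≠ Real.log n := by
        rw [ae_iff]
        simp
      filter_upwards [h3] with w hw hw2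
      rw [uIoc_of_le hl0] at hw2
      rw [if_neg (not_le.2 (lt_of_le_of_ne hw2.2 hw)), mul_zero]
    have e2 : (∫ w in (Real.log n)..u, Complex.I * θ * (if Real.log n ≤ w then (lam n : ℂ) *
      ((Real.exp (-(u / 2)) : ℝ) : ℂ) * cexp (Complex.I * ((θ * (u - w) : ℝ) : ℂ)) else 0)) =
      ∫ w in (Real.log n)..u, Complex.I * θ * ((lam n : ℂ) *
      ((Real.exp (-(u / 2)) : ℝ) : ℂ) * cexp (Complex.I * ((θ * (u - w) : ℝ) : ℂ))) := by
      apply intervalIntegral.integral_congr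
      intro w hw
      rw [uIcc_of_le hl1] at hw
      simp only
      rw [if_pos hw.1]
    rw [e1, zero_add, e2, intervalIntegral.integral_eq_sub_of_hasDerivAt (fun w _ => hder w)
      (Continuous.intervalIntegrable (by fun_prop) _ _)]
    rw [sub_self, mul_zero, Complex.ofReal_zero, mul_zero, Complex.exp_zero]
    ring
  unfold Pf
  have hI : (∫ w in (0:ℝ)..u, (llL w : ℂ) * cexp (cc θ * ((u - w : ℝ) : ℂ))) =
      ∫ w in (0:ℝ)..u, ∑ n ∈ Finset.Icc 1 N, (if Real.log n ≤ w then (lam n : ℂ) * ((Real.exp (-(u / 2)) : ℝ) : ℂ) *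
        cexp (Complex.I * ((θ * (u - w) : ℝ) : ℂ)) else 0) := by
    apply intervalIntegral.integral_congr
    intro w hw
    rw [uIcc_of_le hu] at hw
    exact hpt w hw
  rw [hI, intervalIntegral.integral_finsetSum hint, Finset.mul_sum, hS1, ← Finset.sum_add_distrib]
  unfold Pool.Agent.IT.mt
  rw [Finset.mul_sum]
  apply Finset.sum_congr rfl
  intro n hn
  rw [hval n hn, lac_eq, Real.log_exp]
  ring

theorem Lf_Pf (θ : ℝ) {u : ℝ} (hu : 0 ≤ u) :
    Pf Lf θ u - ((Real.exp (-(u / 2)) : ℝ) : ℂ) * mt lac θ (Real.exp u) =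
      -Pf rhoL θ u + (bb : ℂ) / (2 * cc θ) - (bb : ℂ) * (Complex.I * θ / cc θ) * cexp (cc θ * u) := by
  have e1 : Pf Lf θ u = Pf llL θ u - Pf rhoL θ u - Pf (fun _ => bb) θ u := by
    have h1 : Pf Lf θ u = Pf (fun t => (fun t => llL t - rhoL t) t - (fun _ => bb) t) θ u := by
      congr 1
      funext t
      exact Lf_split t
    have hm : Measurable (fun t => llL t - rhoL t) := llL_meas.sub rhoL_meas
    have hb1 : ∀ t, |(fun t => llL t - rhoL t) t| ≤ (1 + (1 + CI)) * Real.exp (3 / 4 * |t|) := by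
      intro t
      have h2 := abs_sub (llL t) (rhoL t)
      have h3 := llL_bd t
      have h4 := rhoL_bd t
      rw [add_mul]
      exact h2.trans (add_le_add h3 h4)
    have hb2 : ∀ t : ℝ, |(fun _ : ℝ => bb) t| ≤ |bb| * Real.exp (3 / 4 * |t|) := by
      intro t
      have h2 : 1 ≤ Real.exp (3 / 4 * |t|) := Real.one_le_exp (by positivity)
      have := abs_nonneg bb
      show |bb| ≤ _
      nlinarith
    rw [h1, Pf_sub hm hb1 measurable_const hb2]
    rw [Pf_sub llL_meas llL_bd rhoL_meas rhoL_bd]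
  rw [e1, Pf_llL θ hu, Pf_const]
  ring

theorem norm_bbcc (θ : ℝ) : ‖(bb : ℂ) / (2 * cc θ)‖ ≤ |bb| := by
  have h := norm_cc θ
  rw [norm_div, norm_mul, Complex.norm_real, Real.norm_eq_abs, RCLike.norm_ofNat, div_le_iff₀ (by positivity)]
  have := abs_nonneg bb
  nlinarith

theorem Pf_rhoL_bd (θ : ℝ) {u : ℝ} (hu : 0 ≤ u) :
    ‖Pf rhoL θ u‖ ≤ (1 + CI) * (1 + |θ| * u) * Real.exp (-(u / 2)) := by
  unfold Pf
  have hC := CI_nonneg
  have h1 : ‖∫ w in (0:ℝ)..u, (rhoL w : ℂ) * cexp (cc θ * ((u - w : ℝ) : ℂ))‖ ≤ ((1 + CI) * Real.exp (-(u / 2))) * |u - 0| := by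
    apply intervalIntegral.norm_integral_le_of_norm_le_const
    intro w hw
    rw [uIoc_of_le hu] at hw
    rw [norm_mul, Complex.norm_real, Real.norm_eq_abs, norm_ccexp]
    calc |rhoL w| * Real.exp (-((u - w) / 2)) ≤ ((1 + CI) * Real.exp (-(w / 2))) * Real.exp (-((u - w) / 2)) :=
          mul_le_mul_of_nonneg_right (rhoL_bdp hw.1.le) (Real.exp_pos _).le
      _ = _ := by rw [mul_assoc, ← Real.exp_add]; congr 2; ring
  rw [sub_zero, abs_of_nonneg hu] at h1
  refine (norm_add_le _ _).trans ?_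
  rw [norm_mul, norm_mul, Complex.norm_I, one_mul, Complex.norm_real, Complex.norm_real, Real.norm_eq_abs, Real.norm_eq_abs]
  have h2 := rhoL_bdp hu
  have h3 := mul_le_mul_of_nonneg_left h1 (abs_nonneg θ)
  calc _ ≤ (1 + CI) * Real.exp (-(u / 2)) + |θ| * ((1 + CI) * Real.exp (-(u / 2)) * u) := add_le_add h2 h3
    _ = _ := by ring

/-- the decaying bound of the remainder -/
theorem Pf_rhoL_lim (θ : ℝ) : Tendsto (fun u : ℝ => (1 + CI) * (1 + |θ| * u) * Real.exp (-(u / 2)) +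
    |bb| * (2 * |θ|) * Real.exp (-(u / 2))) atTop (𝓝 0) := by
  have h1 : Tendsto (fun u : ℝ => Real.exp (-(u / 2))) atTop (𝓝 0) := by
    apply Real.tendsto_exp_neg_atTop_nhds_zero.comp
    exact Tendsto.atTop_div_const (by norm_num) tendsto_id
  have h2 : Tendsto (fun u : ℝ => (u / 2) * Real.exp (-(u / 2))) atTop (𝓝 0) := by
    have h3 := Real.tendsto_pow_mul_exp_neg_atTop_nhds_zero 1
    have h4 : Tendsto (fun u : ℝ => u / 2) atTop atTop := Tendsto.atTop_div_const (by norm_num) tendsto_id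
    have := h3.comp h4
    refine this.congr ?_
    intro u
    simp
  have h3 := ((h1.const_mul (1 + CI)).add (h2.const_mul ((1 + CI) * |θ| * 2))).add (h1.const_mul (|bb| * (2 * |θ|)))
  simp only [mul_zero, add_zero] at h3
  refine h3.congr ?_
  intro u
  ring

theorem norm_thcc (θ : ℝ) : ‖Complex.I * θ / cc θ‖ ≤ 2 * |θ| := by
  have h := norm_cc θ
  rw [norm_div, norm_mul, Complex.norm_I, one_mul, Complex.norm_real, Real.norm_eq_abs, div_le_iff₀ (by linarith)]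
  nlinarith [abs_nonneg θ]

/-- the eventual bound -/
theorem h1_la (θ : ℝ) : ∀ η : ℝ, 0 < η → ∃ U : ℝ, ∀ u : ℝ, U ≤ u →
    ‖Pf Lf θ u - ((Real.exp (-(u / 2)) : ℝ) : ℂ) * mt lac θ (Real.exp u)‖ ≤ |bb| + η := by
  intro η hη
  obtain ⟨U, hU⟩ := eventually_atTop.1 ((Pf_rhoL_lim θ).eventually (ge_mem_nhds hη))
  refine ⟨max U 0, fun u hu => ?_⟩
  have hu0 : 0 ≤ u := (le_max_right _ _).trans hu
  have h1 := hU u ((le_max_left _ _).trans hu)
  rw [Lf_Pf θ hu0]
  have h2 := norm_bbcc θ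
  have h3 := Pf_rhoL_bd θ hu0
  have h4 : ‖(bb : ℂ) * (Complex.I * θ / cc θ) * cexp (cc θ * u)‖ ≤ |bb| * (2 * |θ|) * Real.exp (-(u / 2)) := by
    rw [norm_mul, norm_mul, norm_ccexp, Complex.norm_real, Real.norm_eq_abs]
    exact mul_le_mul_of_nonneg_right (mul_le_mul_of_nonneg_left (norm_thcc θ) (abs_nonneg _)) (Real.exp_pos _).le
  have h5 := norm_sub_le (-Pf rhoL θ u + (bb : ℂ) / (2 * cc θ)) ((bb : ℂ) * (Complex.I * θ / cc θ) * cexp (cc θ * u))
  have h6 := norm_add_le (-Pf rhoL θ u) ((bb : ℂ) / (2 * cc θ))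
  rw [norm_neg] at h6
  linarith

/-- the bound for all `u ≥ 0` -/
theorem h2_la {θ C : ℝ} (h : ∃ k : ℂ, ∀ u : ℝ, 0 ≤ u → ‖Pf rhoL θ u - k * cexp (cc θ * u)‖ ≤ C) :
    ∃ k : ℂ, ∀ u : ℝ, 0 ≤ u →
      ‖Pf Lf θ u - ((Real.exp (-(u / 2)) : ℝ) : ℂ) * mt lac θ (Real.exp u) - k * cexp (cc θ * u)‖ ≤ C + |bb| := by
  obtain ⟨k, hk⟩ := h
  refine ⟨-k - (bb : ℂ) * (Complex.I * θ / cc θ), fun u hu => ?_⟩
  have h1 := hk u hu
  rw [Lf_Pf θ hu]
  have e : -Pf rhoL θ u + (bb : ℂ) / (2 * cc θ) - (bb : ℂ) * (Complex.I * θ / cc θ) * cexp (cc θ * u) -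
      (-k - (bb : ℂ) * (Complex.I * θ / cc θ)) * cexp (cc θ * u) =
      -(Pf rhoL θ u - k * cexp (cc θ * u)) + (bb : ℂ) / (2 * cc θ) := by ring
  rw [e]
  refine (norm_add_le _ _).trans ?_
  rw [norm_neg]
  exact add_le_add h1 (norm_bbcc θ)

/-- the directional recurrence for the Liouville sums at `t` from the remainder bound -/
theorem dg_la {θ C : ℝ} (hθ : 10 ≤ |θ|) (hT : TwLe Lf θ)
    (hrem : (∀ w : ℂ, xi (1 / 2 + w) = 0 → w.re = 0) → ∃ k : ℂ, ∀ u : ℝ, 0 ≤ u →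
      ‖Pf rhoL θ u - k * cexp (cc θ * u)‖ ≤ C) :
    DgAt lac (3 * (|bb| + (C + |bb|)) + 1) θ :=
  dg_gen (by simp [Pool.Agent.IT.lac]) hθ hT (h1_la θ) (fun hRH => h2_la (hrem hRH))

end Pool.Agent.Helper96.ITd
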