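import Pool.Agent.Helper96.IT.Defs

/-!
# Project IT (port of CM) (MP_a499ba_nt). CM10: the low levels
-/

set_option autoImplicit false

namespace Pool.Agent.Helper96.IT

open Finset Pool.Agent.Helper5.RM Pool.Agent.Helper96.AF Pool.Agent.Helper96.CM

/-- averages and interval integrals may be interchanged -/
private lemma low_av_integral (S : Finset ℕ) (a b : ℝ) (G : Finset ℕ → ℝ → ℝ) (hG : ∀ T, Continuous (G T)) :
    av S (fun T => ∫ t in a..b, G T t) = ∫ t in a..b, av S (fun T => G T t) := by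
  unfold av
  rw [intervalIntegral.integral_div, intervalIntegral.integral_finsetSum]
  intro T _
  exact (hG T).intervalIntegrable a b

private lemma low_av_RR (c : ℕ → ℝ × ℝ) (S : Finset ℕ) (t : ℝ) : av S (fun T => RR c 1 S T t) = 1 := by
  induction S using Finset.induction_on with
  | empty => simp [av_empty, RR]
  | insert q S hq ih =>
    rw [av_insert hq]
    have h1 : av S (fun T => RR c 1 (insert q S) T t) = (1 + tc c q t) * av S (fun T => RR c 1 S T t) := by
      rw [← av_mul_left]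
      refine av_congr fun T hT => ?_
      have hqT : q ∉ T := fun h => hq (hT h)
      simp only [RR, Finset.prod_insert hq, sg_not_mem hqT, one_mul]
    have h2 : av S (fun T => RR c 1 (insert q S) (insert q T) t) =
        (1 - tc c q t) * av S (fun T => RR c 1 S T t) := by
      rw [← av_mul_left]
      refine av_congr fun T hT => ?_
      simp only [RR, Finset.prod_insert hq, sg_mem (Finset.mem_insert_self q T)]
      congr 1
      · ring
      · refine Finset.prod_congr rfl fun p hp => ?_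
        have hpq : p ≠ q := fun h => hq (h ▸ hp)
        rw [sg_insert_of_ne hpq]
    rw [h1, h2, ih]
    ring

/-- for `p ≥ 2` the coefficient is at most `17/18` -/
private lemma low_tc_le {c : ℕ → ℝ × ℝ} (hc : Adm c) {p : ℕ} (hp : 2 ≤ p) (t : ℝ) : |tc c p t| ≤ 17 / 18 := by
  have h0 : (2 : ℝ) ≤ p := by exact_mod_cast hp
  refine (abs_tc_le hc p t).trans ?_
  have h1 : Real.sqrt p ^ 2 = p := Real.sq_sqrt (by positivity)
  have h2 : (141 / 100 : ℝ) ≤ Real.sqrt p := by
    rw [Real.le_sqrt' (by norm_num)]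
    linarith
  rw [div_le_div_iff₀ (by positivity) (by norm_num)]
  nlinarith

private lemma low_inv_le {y : ℝ} (hy : |y| ≤ 17 / 18) : 1 / (1 + y) ≤ Real.exp (-y + 18 * y ^ 2) := by
  have h1 := (abs_le.1 hy).1
  have h2 : (1 : ℝ) / 18 ≤ 1 + y := by linarith
  have h3 : 0 < 1 + y := by linarith
  have h4 : 1 / (1 + y) ≤ -y + 18 * y ^ 2 + 1 := by
    rw [div_le_iff₀ h3]
    nlinarith [mul_nonneg (sq_nonneg y) (show 0 ≤ 18 * (1 + y) - 1 by linarith)]
  exact h4.trans (Real.add_one_le_exp _)

/-- the negative moment at a fixed point -/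
private lemma low_moment (q : ℕ) {c : ℕ → ℝ × ℝ} (hc : Adm c) {S : Finset ℕ} (hS : ∀ p ∈ S, 2 ≤ p) (t : ℝ) :
    av S (fun T => 1 / dc c S T t ^ q) ≤
      Real.exp ((18 * q + q ^ 2) * ∑ p ∈ S, tc c p t ^ 2) := by
  set V := ∑ p ∈ S, tc c p t ^ 2 with hV
  have hV0 : 0 ≤ V := Finset.sum_nonneg fun p _ => sq_nonneg _
  have h1 : ∀ T ⊆ S, 1 / dc c S T t ^ q ≤
      Real.exp (18 * q * V) * Real.exp (∑ p ∈ S, sg T p * (-(q : ℝ) * tc c p t)) := by
    intro T _
    have h2 : 1 / dc c S T t ≤ Real.exp (∑ p ∈ S, (-(sg T p * tc c p t) + 18 * (sg T p * tc c p t) ^ 2)) := by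
      rw [Real.exp_sum]
      unfold dc
      rw [one_div, ← Finset.prod_inv_distrib]
      refine Finset.prod_le_prod (fun p hp => ?_) fun p hp => ?_
      · have h3 : |sg T p * tc c p t| ≤ 17 / 18 := by
          rw [abs_mul, abs_sg, one_mul]
          exact low_tc_le hc (hS p hp) t
        have h4 := (abs_le.1 h3).1
        exact inv_nonneg.2 (by linarith)
      · rw [← one_div]
        refine low_inv_le ?_
        rw [abs_mul, abs_sg, one_mul]
        exact low_tc_le hc (hS p hp) t
    have h5 : 0 < dc c S T t := dc_pos hc hS T t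
    have h6 : 1 / dc c S T t ^ q = (1 / dc c S T t) ^ q := by rw [one_div, one_div, inv_pow]
    rw [h6]
    refine (pow_le_pow_left₀ (by positivity) h2 q).trans (le_of_eq ?_)
    rw [← Real.exp_nat_mul, ← Real.exp_add]
    congr 1
    have h7 : ∀ p ∈ S, (-(sg T p * tc c p t) + 18 * (sg T p * tc c p t) ^ 2) =
        18 * tc c p t ^ 2 - sg T p * tc c p t := by
      intro p _
      rw [mul_pow, sg_sq]
      ring
    rw [Finset.sum_congr rfl h7, Finset.sum_sub_distrib, ← Finset.mul_sum, ← hV]
    have h8 : ∑ p ∈ S, sg T p * (-(q : ℝ) * tc c p t) = -(q : ℝ) * ∑ p ∈ S, sg T p * tc c p t := by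
      rw [Finset.mul_sum]
      exact Finset.sum_congr rfl fun p _ => by ring
    rw [h8]
    ring
  have h9 := av_exp S (fun p => -(q : ℝ) * tc c p t)
  have h10 : ∑ p ∈ S, (-(q : ℝ) * tc c p t) ^ 2 = q ^ 2 * V := by
    rw [hV, Finset.mul_sum]
    exact Finset.sum_congr rfl fun p _ => by ring
  simp only [h10] at h9
  refine (av_mono h1).trans ?_
  rw [av_mul_left]
  refine (mul_le_mul_of_nonneg_left h9 (Real.exp_pos _).le).trans ?_
  rw [← Real.exp_add]
  refine Real.exp_le_exp.2 ?_
  have h11 : 0 ≤ (q : ℝ) ^ 2 * V := by positivity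
  nlinarith

private lemma low_sum : ∃ C : ℝ, 0 ≤ C ∧ ∀ (c : ℕ → ℝ × ℝ) (t : ℝ) (s : ℕ), Adm c →
    ∑ p ∈ PP (Y s), tc c p t ^ 2 ≤ C + 4 * s := by
  obtain ⟨C1, hC1, h1⟩ := Helper66.AF.mertens_upper
  have h2 : 0 ≤ ∑ p ∈ PP (Y 0), (1 : ℝ) / p := Finset.sum_nonneg fun p _ => by positivity
  refine ⟨4 * (C1 + ∑ p ∈ PP (Y 0), (1 : ℝ) / p), by positivity, fun c t s hc => ?_⟩
  have h3 : ∑ p ∈ PP (Y s), tc c p t ^ 2 ≤ 4 * ∑ p ∈ PP (Y s), (1 : ℝ) / p := by
    rw [Finset.mul_sum]
    refine Finset.sum_le_sum fun p hp => ?_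
    have h4 := tc_sq_le hc (by have := two_le_of_mem_PP hp; omega) t (p := p)
    have h5 : 4 * ((1 : ℝ) / p) = 4 / p := by ring
    linarith
  rcases Nat.eq_zero_or_pos s with rfl | hs
  · push_cast
    linarith
  · have e1 := h1 (Y s) (three_le_Y hs)
    rw [loglog_Y] at e1
    have e2 : Real.log (Real.log 2) ≤ 0 := by
      refine Real.log_nonpos (Real.log_nonneg (by norm_num)) ?_
      have := Real.log_two_lt_d9
      linarith
    have e3 : Real.log 2 ≤ 1 := by
      have := Real.log_two_lt_d9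
      linarith
    have e4 : (s : ℝ) * Real.log 2 ≤ s := mul_le_of_le_one_right (by positivity) e3
    linarith

theorem low (q : ℕ) : ∃ C : ℝ, 0 < C ∧ ∀ (c : ℕ → ℝ × ℝ) (a b H : ℝ) (s K : ℕ), Adm c → 0 ≤ a → a ≤ b → b ≤ 1 → s ≤ K →
    0 < H →
    pr (PP (Y K)) (fun T => H ≤ ∫ t in a..b, RR c 1 (WB s K) T t / dc c (PP (Y s)) T t ^ q) ≤
      C * Real.exp (C * s) / H := by
  obtain ⟨C0, hC0, h0⟩ := low_sum
  set D : ℝ := 18 * q + q ^ 2 with hD
  have hD0 : 0 ≤ D := by positivity
  refine ⟨Real.exp (D * C0) + 4 * D, by positivity, fun c a b H s K hc ha hab hb hsK hH => ?_⟩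
  have hP : ∀ p ∈ PP (Y s), 2 ≤ p := fun p hp => two_le_of_mem_PP hp
  have hpos : ∀ T t, 0 < dc c (PP (Y s)) T t := fun T t => dc_pos hc hP T t
  have hcont : ∀ T, Continuous (fun t => RR c 1 (WB s K) T t / dc c (PP (Y s)) T t ^ q) := fun T =>
    (continuous_RR c 1 _ T).div ((continuous_dc c _ T).pow q) fun t => (pow_pos (hpos T t) q).ne'
  refine markov (fun T _ => ?_) hH ?_
  · refine intervalIntegral.integral_nonneg hab fun t _ => ?_
    exact div_nonneg (RR_pos hc zero_le_one le_rfl (fun p hp => two_le_WB hp) T t).le (pow_pos (hpos T t) q).le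
  · rw [low_av_integral _ _ _ _ hcont]
    have hfix : ∀ t, av (PP (Y K)) (fun T => RR c 1 (WB s K) T t / dc c (PP (Y s)) T t ^ q) ≤
        Real.exp (D * (C0 + 4 * s)) := by
      intro t
      rw [PP_eq_union hsK, av_union (PP_WB_disj s K)]
      have h1 : av (PP (Y s)) (fun T => av (WB s K) (fun T' =>
          RR c 1 (WB s K) (T ∪ T') t / dc c (PP (Y s)) (T ∪ T') t ^ q)) =
          av (PP (Y s)) (fun T => 1 / dc c (PP (Y s)) T t ^ q) := by
        refine av_congr fun T hT => ?_
        have h2 : av (WB s K) (fun T' =>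
            RR c 1 (WB s K) (T ∪ T') t / dc c (PP (Y s)) (T ∪ T') t ^ q) =
            av (WB s K) (fun T' => (1 / dc c (PP (Y s)) T t ^ q) * RR c 1 (WB s K) T' t) := by
          refine av_congr fun T' hT' => ?_
          have h3 : RR c 1 (WB s K) (T ∪ T') t = RR c 1 (WB s K) T' t := by
            refine RR_congr (fun p hp => ?_) c 1 t
            have : p ∉ T := fun hh => Finset.disjoint_left.1 (PP_WB_disj s K) (hT hh) hp
            simp [this]
          have h4 : dc c (PP (Y s)) (T ∪ T') t = dc c (PP (Y s)) T t := by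
            refine dc_congr (fun p hp => ?_) c t
            have : p ∉ T' := fun hh => Finset.disjoint_left.1 (PP_WB_disj s K) hp (hT' hh)
            simp [this]
          rw [h3, h4]
          ring
        rw [h2, av_mul_left, low_av_RR, mul_one]
      rw [h1]
      refine (low_moment q hc hP t).trans ?_
      exact Real.exp_le_exp.2 (mul_le_mul_of_nonneg_left (h0 c t s hc) hD0)
    have hcontav : Continuous (fun t => av (PP (Y K)) (fun T => RR c 1 (WB s K) T t / dc c (PP (Y s)) T t ^ q)) := by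
      unfold av
      exact Continuous.div_const (continuous_finsetSum _ fun T _ => hcont T) _
    have h5 : (∫ t in a..b, av (PP (Y K)) (fun T => RR c 1 (WB s K) T t / dc c (PP (Y s)) T t ^ q)) ≤
        ∫ t in a..b, Real.exp (D * (C0 + 4 * s)) :=
      intervalIntegral.integral_mono_on hab (hcontav.intervalIntegrable _ _)
        (continuous_const.intervalIntegrable _ _) fun t _ => hfix t
    rw [intervalIntegral.integral_const, smul_eq_mul] at h5
    refine h5.trans ?_
    have h6 : Real.exp (D * (C0 + 4 * s)) = Real.exp (D * C0) * Real.exp (4 * D * s) := by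
      rw [← Real.exp_add]
      congr 1
      ring
    have h7 : Real.exp (4 * D * s) ≤ Real.exp ((Real.exp (D * C0) + 4 * D) * s) := by
      refine Real.exp_le_exp.2 (mul_le_mul_of_nonneg_right ?_ (by positivity))
      linarith [Real.exp_pos (D * C0)]
    calc (b - a) * Real.exp (D * (C0 + 4 * s)) ≤ 1 * Real.exp (D * (C0 + 4 * s)) :=
          mul_le_mul_of_nonneg_right (by linarith) (Real.exp_pos _).le
      _ = Real.exp (D * C0) * Real.exp (4 * D * s) := by rw [one_mul, h6]
      _ ≤ (Real.exp (D * C0) + 4 * D) * Real.exp ((Real.exp (D * C0) + 4 * D) * s) := by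
          refine mul_le_mul (by linarith) h7 (Real.exp_pos _).le ?_
          have := Real.exp_pos (D * C0)
          linarith

end Pool.Agent.Helper96.IT
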