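import Pool.Agent.Helper96.IT.Defs

/-!
# Project IT (port of CM) (MP_a499ba_nt). CM9: smoothness
-/

set_option autoImplicit false

namespace Pool.Agent.Helper96.IT

open Finset Pool.Agent.Helper5.RM Pool.Agent.Helper96.AF Pool.Agent.Helper96.CM

/-! ### moments of the product and of its derivative -/

private noncomputable def Rp (S : Finset ℕ) (al : ℕ → ℝ) (T : Finset ℕ) : ℝ := ∏ p ∈ S, (1 + sg T p * al p)

private noncomputable def Dp (S : Finset ℕ) (al be : ℕ → ℝ) (T : Finset ℕ) : ℝ :=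
  ∑ i ∈ S, (∏ j ∈ S.erase i, (1 + sg T j * al j)) * (sg T i * be i)

private noncomputable def Wp (S : Finset ℕ) (be : ℕ → ℝ) (T : Finset ℕ) : ℝ := ∑ i ∈ S, sg T i * be i

private lemma Rp_ins {S : Finset ℕ} {q : ℕ} (hq : q ∉ S) (al : ℕ → ℝ) (T : Finset ℕ) :
    Rp (insert q S) al T = (1 + sg T q * al q) * Rp S al T := Finset.prod_insert hq

private lemma Wp_ins {S : Finset ℕ} {q : ℕ} (hq : q ∉ S) (be : ℕ → ℝ) (T : Finset ℕ) :
    Wp (insert q S) be T = sg T q * be q + Wp S be T := Finset.sum_insert hq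

private lemma Dp_ins {S : Finset ℕ} {q : ℕ} (hq : q ∉ S) (al be : ℕ → ℝ) (T : Finset ℕ) :
    Dp (insert q S) al be T = (1 + sg T q * al q) * Dp S al be T + Rp S al T * (sg T q * be q) := by
  unfold Dp Rp
  rw [Finset.sum_insert hq, Finset.erase_insert hq, add_comm]
  congr 1
  rw [Finset.mul_sum]
  refine Finset.sum_congr rfl fun i hi => ?_
  have hne : i ≠ q := fun h => hq (h ▸ hi)
  rw [Finset.erase_insert_of_ne hne.symm, Finset.prod_insert (fun h => hq (Finset.mem_of_mem_erase h))]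
  ring

private lemma Rp_flip {S : Finset ℕ} {q : ℕ} (hq : q ∉ S) (al : ℕ → ℝ) (T : Finset ℕ) :
    Rp S al (insert q T) = Rp S al T := by
  unfold Rp
  refine Finset.prod_congr rfl fun p hp => ?_
  have hpq : p ≠ q := fun h => hq (h ▸ hp)
  rw [sg_insert_of_ne hpq]

private lemma Wp_flip {S : Finset ℕ} {q : ℕ} (hq : q ∉ S) (be : ℕ → ℝ) (T : Finset ℕ) :
    Wp S be (insert q T) = Wp S be T := by
  unfold Wp
  refine Finset.sum_congr rfl fun p hp => ?_
  have hpq : p ≠ q := fun h => hq (h ▸ hp)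
  rw [sg_insert_of_ne hpq]

private lemma Dp_flip {S : Finset ℕ} {q : ℕ} (hq : q ∉ S) (al be : ℕ → ℝ) (T : Finset ℕ) :
    Dp S al be (insert q T) = Dp S al be T := by
  unfold Dp
  refine Finset.sum_congr rfl fun p hp => ?_
  have hpq : p ≠ q := fun h => hq (h ▸ hp)
  rw [sg_insert_of_ne hpq]
  congr 1
  refine Finset.prod_congr rfl fun j hj => ?_
  have hjq : j ≠ q := fun h => hq (h ▸ Finset.mem_of_mem_erase hj)
  rw [sg_insert_of_ne hjq]

private lemma av_ins3 {S : Finset ℕ} {q : ℕ} (hq : q ∉ S) {F A B C : Finset ℕ → ℝ} {a b c : ℝ}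
    (h : ∀ T ⊆ S, (F T + F (insert q T)) / 2 = a * A T + b * B T + c * C T) :
    av (insert q S) F = a * av S A + b * av S B + c * av S C := by
  rw [av_insert hq, ← av_mul_left, ← av_mul_left, ← av_mul_left, ← av_add, ← av_add, ← av_add,
    ← av_congr h]
  unfold av
  rw [← Finset.sum_div]
  ring

private lemma av_R2 (S : Finset ℕ) (al : ℕ → ℝ) :
    av S (fun T => Rp S al T ^ 2) = ∏ p ∈ S, (1 + al p ^ 2) := by
  induction S using Finset.induction_on with
  | empty => rw [av_empty]; simp [Rp]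
  | insert q S hq ih =>
    rw [Finset.prod_insert hq, ← ih,
      av_ins3 hq (A := fun T => Rp S al T ^ 2) (B := fun _ => 0) (C := fun _ => 0) (a := 1 + al q ^ 2) (b := 0)
        (c := 0)]
    · ring
    · intro T hT
      have hqT : q ∉ T := fun h => hq (hT h)
      rw [Rp_ins hq, Rp_ins hq, Rp_flip hq, sg_mem (Finset.mem_insert_self q T), sg_not_mem hqT]
      ring

private lemma av_RD (S : Finset ℕ) (al be : ℕ → ℝ) :
    |av S (fun T => Rp S al T * Dp S al be T)| ≤ (∏ p ∈ S, (1 + al p ^ 2)) * ∑ p ∈ S, |al p * be p| := by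
  induction S using Finset.induction_on with
  | empty => rw [av_empty]; simp [Dp]
  | insert q S hq ih =>
    rw [Finset.prod_insert hq, Finset.sum_insert hq,
      av_ins3 hq (A := fun T => Rp S al T * Dp S al be T) (B := fun T => Rp S al T ^ 2) (C := fun _ => 0)
        (a := 1 + al q ^ 2) (b := al q * be q) (c := 0)]
    · rw [av_R2]
      have hP : 1 ≤ ∏ p ∈ S, (1 + al p ^ 2) := Finset.one_le_prod fun p _ => by nlinarith [sq_nonneg (al p)]
      have h1 : 0 ≤ ∑ p ∈ S, |al p * be p| := Finset.sum_nonneg fun p _ => abs_nonneg _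
      set P := ∏ p ∈ S, (1 + al p ^ 2)
      set s := ∑ p ∈ S, |al p * be p|
      set M := av S (fun T => Rp S al T * Dp S al be T)
      have h2 := abs_nonneg (al q * be q)
      have h3 : |(1 + al q ^ 2) * M + al q * be q * P + 0 * av S (fun _ => 0)| ≤
          (1 + al q ^ 2) * |M| + |al q * be q| * P := by
        rw [zero_mul, add_zero]
        refine (abs_add_le _ _).trans ?_
        rw [abs_mul, abs_mul _ P, abs_of_nonneg (by positivity : (0 : ℝ) ≤ 1 + al q ^ 2),
          abs_of_nonneg (by linarith : (0 : ℝ) ≤ P)]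
      refine h3.trans ?_
      have h4 : (1 + al q ^ 2) * |M| ≤ (1 + al q ^ 2) * (P * s) := mul_le_mul_of_nonneg_left ih (by positivity)
      have h5 : 0 ≤ al q ^ 2 * (P * |al q * be q|) := by positivity
      nlinarith
    · intro T hT
      have hqT : q ∉ T := fun h => hq (hT h)
      rw [Rp_ins hq, Rp_ins hq, Rp_flip hq, Dp_ins hq, Dp_ins hq, Dp_flip hq, Rp_flip hq,
        sg_mem (Finset.mem_insert_self q T), sg_not_mem hqT]
      ring

private lemma av_D2 (S : Finset ℕ) (al be : ℕ → ℝ) :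
    av S (fun T => Dp S al be T ^ 2) ≤
      (∏ p ∈ S, (1 + al p ^ 2)) * ((∑ p ∈ S, |al p * be p|) ^ 2 + ∑ p ∈ S, be p ^ 2) := by
  induction S using Finset.induction_on with
  | empty => rw [av_empty]; simp [Dp]
  | insert q S hq ih =>
    rw [Finset.prod_insert hq, Finset.sum_insert hq, Finset.sum_insert hq,
      av_ins3 hq (A := fun T => Dp S al be T ^ 2) (B := fun T => Rp S al T * Dp S al be T)
        (C := fun T => Rp S al T ^ 2) (a := 1 + al q ^ 2) (b := 2 * (al q * be q)) (c := be q ^ 2)]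
    · rw [av_R2]
      have hM := av_RD S al be
      have hP : 1 ≤ ∏ p ∈ S, (1 + al p ^ 2) := Finset.one_le_prod fun p _ => by nlinarith [sq_nonneg (al p)]
      have h1 : 0 ≤ ∑ p ∈ S, |al p * be p| := Finset.sum_nonneg fun p _ => abs_nonneg _
      have h1b : 0 ≤ ∑ p ∈ S, be p ^ 2 := Finset.sum_nonneg fun p _ => sq_nonneg _
      set P := ∏ p ∈ S, (1 + al p ^ 2)
      set s := ∑ p ∈ S, |al p * be p|
      set s2 := ∑ p ∈ S, be p ^ 2
      set M := av S (fun T => Rp S al T * Dp S al be T)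
      set V := av S (fun T => Dp S al be T ^ 2)
      have h2 := abs_nonneg (al q * be q)
      have h3 : 2 * (al q * be q) * M ≤ 2 * (|al q * be q| * (P * s)) := by
        have e1 : al q * be q * M ≤ |al q * be q| * |M| := by
          rw [← abs_mul]; exact le_abs_self _
        have e2 : |al q * be q| * |M| ≤ |al q * be q| * (P * s) := mul_le_mul_of_nonneg_left hM h2
        linarith
      have h4 : (1 + al q ^ 2) * V ≤ (1 + al q ^ 2) * (P * (s ^ 2 + s2)) := mul_le_mul_of_nonneg_left ih (by positivity)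
      have h5 : 0 ≤ al q ^ 2 * (P * (2 * (|al q * be q| * s))) := by positivity
      have h6 : 0 ≤ (1 + al q ^ 2) * (P * |al q * be q| ^ 2) := by positivity
      have h7 : 0 ≤ al q ^ 2 * (P * be q ^ 2) := by positivity
      nlinarith
    · intro T hT
      have hqT : q ∉ T := fun h => hq (hT h)
      rw [Dp_ins hq, Dp_ins hq, Dp_flip hq, Rp_flip hq, sg_mem (Finset.mem_insert_self q T), sg_not_mem hqT]
      ring

private lemma av_W2 (S : Finset ℕ) (be : ℕ → ℝ) :
    av S (fun T => Wp S be T ^ 2) = ∑ p ∈ S, be p ^ 2 := by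
  induction S using Finset.induction_on with
  | empty => rw [av_empty]; simp [Wp]
  | insert q S hq ih =>
    rw [Finset.sum_insert hq, ← ih,
      av_ins3 hq (A := fun T => Wp S be T ^ 2) (B := fun _ => 1) (C := fun _ => 0) (a := 1) (b := be q ^ 2)
        (c := 0)]
    · rw [av_const]; ring
    · intro T hT
      have hqT : q ∉ T := fun h => hq (hT h)
      rw [Wp_ins hq, Wp_ins hq, Wp_flip hq, sg_mem (Finset.mem_insert_self q T), sg_not_mem hqT]
      ring

/-! ### derivatives -/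

private noncomputable def tc' (c : ℕ → ℝ × ℝ) (p : ℕ) (t : ℝ) : ℝ := -((c p).1 * Real.log p * Real.sin (t * Real.log p - (c p).2))

private lemma hasDerivAt_tc (c : ℕ → ℝ × ℝ) (p : ℕ) (t : ℝ) : HasDerivAt (tc c p) (tc' c p t) t := by
  unfold tc tc'
  have h1 : HasDerivAt (fun t : ℝ => t * Real.log p - (c p).2) (Real.log p) t := by
    simpa using ((hasDerivAt_id t).mul_const (Real.log p)).sub_const (c p).2
  have h2 := (h1.cos).const_mul (c p).1
  refine h2.congr_deriv ?_
  ring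

private lemma continuous_tc' (c : ℕ → ℝ × ℝ) (p : ℕ) : Continuous (tc' c p) := by
  unfold tc'
  fun_prop

private lemma hasDerivAt_RR (c : ℕ → ℝ × ℝ) (S T : Finset ℕ) (t : ℝ) :
    HasDerivAt (RR c 1 S T) (Dp S (fun p => tc c p t) (fun p => tc' c p t) T) t := by
  have h0 : ∀ p ∈ S, HasDerivAt (fun x => 1 + sg T p * (1 * tc c p x)) (sg T p * tc' c p t) t := by
    intro p _
    have h1 := ((hasDerivAt_tc c p t).const_mul (sg T p)).const_add 1
    simpa using h1
  have h2 := HasDerivAt.fun_finsetProd h0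
  unfold RR Dp
  refine h2.congr_deriv ?_
  refine Finset.sum_congr rfl fun i _ => ?_
  simp only [smul_eq_mul, one_mul]

private noncomputable def XX' (c : ℕ → ℝ × ℝ) (tau : ℕ → ℝ) (S T : Finset ℕ) (t : ℝ) : ℝ :=
  - Wp S (fun p => tc' c p t) T + 2 * ∑ p ∈ S, tau p * (tc c p t * tc' c p t)

private lemma hasDerivAt_XX (c : ℕ → ℝ × ℝ) (tau : ℕ → ℝ) (S T : Finset ℕ) (t : ℝ) :
    HasDerivAt (XX c tau S T) (XX' c tau S T t) t := by
  have h0 : ∀ p ∈ S, HasDerivAt (fun x => tc c p x * (sg T p - tau p * tc c p x))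
      (tc' c p t * (sg T p - tau p * tc c p t) + tc c p t * (0 - tau p * tc' c p t)) t := by
    intro p _
    have h1 := hasDerivAt_tc c p t
    exact h1.mul ((hasDerivAt_const t (sg T p)).sub (h1.const_mul (tau p)))
  have h2 := (HasDerivAt.fun_sum h0).neg
  unfold XX
  refine h2.congr_deriv ?_
  unfold XX' Wp
  rw [Finset.mul_sum, ← Finset.sum_neg_distrib, ← Finset.sum_neg_distrib, ← Finset.sum_add_distrib]
  refine Finset.sum_congr rfl fun p _ => ?_
  ring

private lemma continuous_Dt (c : ℕ → ℝ × ℝ) (S T : Finset ℕ) :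
    Continuous (fun t => Dp S (fun p => tc c p t) (fun p => tc' c p t) T) := by
  unfold Dp
  refine continuous_finsetSum _ fun i _ => ?_
  refine (continuous_finsetProd _ fun j _ => ?_).mul (continuous_const.mul (continuous_tc' c i))
  exact continuous_const.add (continuous_const.mul (continuous_tc c j))

private lemma continuous_Wt (c : ℕ → ℝ × ℝ) (S T : Finset ℕ) :
    Continuous (fun t => Wp S (fun p => tc' c p t) T) := by
  unfold Wp
  exact continuous_finsetSum _ fun i _ => continuous_const.mul (continuous_tc' c i)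

private lemma continuous_XX' (c : ℕ → ℝ × ℝ) (tau : ℕ → ℝ) (S T : Finset ℕ) : Continuous (XX' c tau S T) := by
  unfold XX'
  refine (continuous_Wt c S T).neg.add (continuous_const.mul ?_)
  exact continuous_finsetSum _ fun i _ => continuous_const.mul ((continuous_tc c i).mul (continuous_tc' c i))

/-- integration by parts -/
private lemma ibp {h h' : ℝ → ℝ} (hd : ∀ t, HasDerivAt h (h' t) t) (hc : Continuous h') {K : ℝ → ℝ}
    (hK : Continuous K) (hle : ∀ t, |h' t| ≤ K t) {a b u : ℝ} (hab : a ≤ b) (hu : 0 < |u|) :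
    |∫ t in a..b, Real.cos (t * u) * h t| ≤ (|h a| + |h b| + ∫ t in a..b, K t) / |u| := by
  have hu0 : u ≠ 0 := abs_pos.1 hu
  have hv : ∀ t : ℝ, HasDerivAt (fun t => Real.sin (t * u) / u) (Real.cos (t * u)) t := by
    intro t
    have h1 : HasDerivAt (fun t : ℝ => t * u) u t := by simpa using (hasDerivAt_id t).mul_const u
    have h2 := h1.sin.div_const u
    refine h2.congr_deriv ?_
    field_simp
  have h3 := intervalIntegral.integral_mul_deriv_eq_deriv_mul (a := a) (b := b) (u := h) (u' := h')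
    (v := fun t => Real.sin (t * u) / u) (v' := fun t => Real.cos (t * u)) (fun t _ => hd t) (fun t _ => hv t)
    (hc.intervalIntegrable a b) ((by fun_prop : Continuous fun t : ℝ => Real.cos (t * u)).intervalIntegrable a b)
  have h4 : ∫ t in a..b, Real.cos (t * u) * h t = ∫ t in a..b, h t * Real.cos (t * u) :=
    intervalIntegral.integral_congr fun t _ => mul_comm _ _
  rw [h4, h3]
  have hvb : ∀ t : ℝ, |Real.sin (t * u) / u| ≤ 1 / |u| := by
    intro t
    rw [abs_div]
    exact div_le_div_of_nonneg_right (Real.abs_sin_le_one _) hu.le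
  have h5 : |∫ t in a..b, h' t * (Real.sin (t * u) / u)| ≤ ∫ t in a..b, K t * (1 / |u|) := by
    refine (intervalIntegral.abs_integral_le_integral_abs hab).trans ?_
    refine intervalIntegral.integral_mono_on hab ?_ ?_ fun t _ => ?_
    · have : Continuous fun t : ℝ => Real.sin (t * u) / u := by fun_prop
      exact ((hc.mul this).abs).intervalIntegrable a b
    · exact (hK.mul continuous_const).intervalIntegrable a b
    · rw [abs_mul]
      exact mul_le_mul (hle t) (hvb t) (abs_nonneg _) ((abs_nonneg _).trans (hle t))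
  rw [intervalIntegral.integral_mul_const] at h5
  have h6 : |h b * (Real.sin (b * u) / u)| ≤ |h b| * (1 / |u|) := by
    rw [abs_mul]; exact mul_le_mul_of_nonneg_left (hvb b) (abs_nonneg _)
  have h7 : |h a * (Real.sin (a * u) / u)| ≤ |h a| * (1 / |u|) := by
    rw [abs_mul]; exact mul_le_mul_of_nonneg_left (hvb a) (abs_nonneg _)
  have h8 : (|h a| + |h b| + ∫ t in a..b, K t) / |u| =
      |h a| * (1 / |u|) + |h b| * (1 / |u|) + (∫ t in a..b, K t) * (1 / |u|) := by ring
  rw [h8]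
  have h9 := abs_sub (h b * (Real.sin (b * u) / u) - h a * (Real.sin (a * u) / u))
    (∫ t in a..b, h' t * (Real.sin (t * u) / u))
  have h10 := abs_sub (h b * (Real.sin (b * u) / u)) (h a * (Real.sin (a * u) / u))
  linarith

private lemma av_ival (S : Finset ℕ) (a b : ℝ) (G : Finset ℕ → ℝ → ℝ) (hG : ∀ T, Continuous (G T)) :
    av S (fun T => ∫ t in a..b, G T t) = ∫ t in a..b, av S (fun T => G T t) := by
  unfold av
  rw [intervalIntegral.integral_div, intervalIntegral.integral_finsetSum]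
  intro T _
  exact (hG T).intervalIntegrable a b

/-! ### sums over primes -/

private lemma c_sq_le {c : ℕ → ℝ × ℝ} (hc : Adm c) {p : ℕ} (hp : 1 ≤ p) : (c p).1 ^ 2 ≤ 4 / p := by
  have h0 : (1 : ℝ) ≤ p := by exact_mod_cast hp
  have h1 : (c p).1 ^ 2 ≤ (2 * Real.sqrt p / (p + 1)) ^ 2 := pow_le_pow_left₀ (hc p).1 (hc p).2 2
  refine h1.trans ?_
  rw [div_pow, mul_pow, Real.sq_sqrt (by positivity), div_le_div_iff₀ (by positivity) (by positivity)]
  nlinarith

private lemma prod_bd : ∃ C : ℝ, 1 ≤ C ∧ ∀ (c : ℕ → ℝ × ℝ) (s m : ℕ) (t : ℝ), Adm c →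
    ∏ p ∈ WB s m, (1 + tc c p t ^ 2) ≤ C * 16 ^ m := by
  obtain ⟨C, hC, h⟩ := mertens_prod
  refine ⟨max 1 (C ^ 4), le_max_left _ _, fun c s m t hc => ?_⟩
  have h1 : ∏ p ∈ WB s m, (1 + tc c p t ^ 2) ≤ ∏ p ∈ WB s m, (1 + (1 : ℝ) / p) ^ 4 := by
    refine Finset.prod_le_prod (fun p _ => by positivity) fun p hp => ?_
    have h2 : 1 ≤ p := by have := two_le_WB hp; omega
    have h3 := tc_sq_le hc h2 t
    have h4 : (0 : ℝ) ≤ 1 / p := by positivity
    have h5 := one_add_mul_le_pow (a := (1 : ℝ) / p) (by linarith) 4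
    have h6 : (4 : ℝ) / p = 4 * (1 / p) := by ring
    push_cast at h5
    linarith
  have h2 : ∏ p ∈ WB s m, (1 + (1 : ℝ) / p) ^ 4 ≤ ∏ p ∈ PP (Y m), (1 + (1 : ℝ) / p) ^ 4 := by
    refine Finset.prod_le_prod_of_subset_of_one_le (WB_sub_PP s m) (fun p _ => by positivity) fun p _ _ => ?_
    have h4 : (0 : ℝ) ≤ 1 / p := by positivity
    exact one_le_pow₀ (by linarith)
  refine h1.trans (h2.trans ?_)
  rw [Finset.prod_pow]
  have h3 : (∏ p ∈ PP (Y m), (1 + (1 : ℝ) / p)) ^ 4 ≤ (C * 2 ^ m) ^ 4 :=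
    pow_le_pow_left₀ (Finset.prod_nonneg fun p _ => by positivity) (h m) 4
  refine h3.trans ?_
  rw [mul_pow, ← pow_mul, mul_comm m 4, pow_mul]
  norm_num

private lemma s1_bd : ∃ C : ℝ, 1 ≤ C ∧ ∀ (c : ℕ → ℝ × ℝ) (s m : ℕ) (t : ℝ), Adm c →
    (∑ p ∈ WB s m, |tc c p t * tc' c p t| ≤ C * 2 ^ m) ∧ (∑ p ∈ WB s m, tc' c p t ^ 2 ≤ C * 4 ^ m) := by
  obtain ⟨C, hC, h⟩ := logp_sum
  refine ⟨max 1 (8 * C), le_max_left _ _, fun c s m t hc => ?_⟩
  have hY : 1 ≤ Y m := by have := two_le_Y m; omega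
  have hl := log_Y m
  have hl2 : Real.log 2 ≤ 1 := by have := Real.log_two_lt_d9; linarith
  have hl0 : 0 < Real.log 2 := Real.log_pos (by norm_num)
  have h2m : (1 : ℝ) ≤ 2 ^ m := one_le_pow₀ (by norm_num)
  have hsum : ∑ p ∈ PP (Y m), Real.log p / p ≤ 2 * C * 2 ^ m := by
    refine (h (Y m) hY).trans ?_
    rw [hl]
    have : 1 + 2 ^ m * Real.log 2 ≤ 2 * 2 ^ m := by nlinarith
    nlinarith
  have hlog : ∀ p ∈ PP (Y m), 0 ≤ Real.log p ∧ Real.log p ≤ 2 ^ m := by
    intro p hp
    have hp2 : p ≤ Y m := (mem_PP.1 hp).2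
    have hp1 : 2 ≤ p := two_le_of_mem_PP hp
    refine ⟨Real.log_nonneg (by exact_mod_cast (by omega : 1 ≤ p)), ?_⟩
    have h1 : Real.log p ≤ Real.log (Y m) :=
      Real.log_le_log (by exact_mod_cast (by omega : 0 < p)) (by exact_mod_cast hp2)
    rw [hl] at h1
    nlinarith
  constructor
  · have h1 : ∑ p ∈ WB s m, |tc c p t * tc' c p t| ≤ ∑ p ∈ WB s m, 4 * (Real.log p / p) := by
      refine Finset.sum_le_sum fun p hp => ?_
      have hpp := WB_sub_PP s m hp
      have hp1 : 1 ≤ p := by have := two_le_of_mem_PP hpp; omega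
      have h2 := c_sq_le hc hp1
      have h3 := (hlog p hpp).1
      have h4 := Real.abs_cos_le_one (t * Real.log p - (c p).2)
      have h5 := Real.abs_sin_le_one (t * Real.log p - (c p).2)
      unfold tc tc'
      have e1 : |(c p).1 * Real.cos (t * Real.log p - (c p).2) * -((c p).1 * Real.log p * Real.sin (t * Real.log p - (c p).2))| =
          (c p).1 ^ 2 * Real.log p * (|Real.cos (t * Real.log p - (c p).2)| * |Real.sin (t * Real.log p - (c p).2)|) := by
        rw [abs_mul, abs_neg, abs_mul, abs_mul, abs_mul, abs_of_nonneg h3, abs_of_nonneg (hc p).1]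
        ring
      rw [e1]
      have e2 : |Real.cos (t * Real.log p - (c p).2)| * |Real.sin (t * Real.log p - (c p).2)| ≤ 1 :=
        mul_le_one₀ h4 (abs_nonneg _) h5
      have e3 : (c p).1 ^ 2 * Real.log p * (|Real.cos (t * Real.log p - (c p).2)| * |Real.sin (t * Real.log p - (c p).2)|) ≤
          (c p).1 ^ 2 * Real.log p := mul_le_of_le_one_right (by positivity) e2
      refine e3.trans ?_
      have e4 : (c p).1 ^ 2 * Real.log p ≤ 4 / p * Real.log p := mul_le_mul_of_nonneg_right h2 h3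
      refine e4.trans (le_of_eq ?_)
      ring
    refine h1.trans ?_
    rw [← Finset.mul_sum]
    have h2 : ∑ p ∈ WB s m, Real.log p / p ≤ ∑ p ∈ PP (Y m), Real.log p / p :=
      Finset.sum_le_sum_of_subset_of_nonneg (WB_sub_PP s m) fun p hp _ => div_nonneg (hlog p hp).1 (by positivity)
    have h3 : 8 * C ≤ max 1 (8 * C) := le_max_right _ _
    nlinarith
  · have h1 : ∑ p ∈ WB s m, tc' c p t ^ 2 ≤ ∑ p ∈ WB s m, 4 * 2 ^ m * (Real.log p / p) := by
      refine Finset.sum_le_sum fun p hp => ?_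
      have hpp := WB_sub_PP s m hp
      have hp1 : 1 ≤ p := by have := two_le_of_mem_PP hpp; omega
      have h2 := c_sq_le hc hp1
      have h3 := hlog p hpp
      have h5 := Real.sin_sq_le_one (t * Real.log p - (c p).2)
      unfold tc'
      have e1 : (-((c p).1 * Real.log p * Real.sin (t * Real.log p - (c p).2))) ^ 2 =
          (c p).1 ^ 2 * Real.log p ^ 2 * Real.sin (t * Real.log p - (c p).2) ^ 2 := by ring
      rw [e1]
      have e3 : (c p).1 ^ 2 * Real.log p ^ 2 * Real.sin (t * Real.log p - (c p).2) ^ 2 ≤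
          (c p).1 ^ 2 * Real.log p ^ 2 := mul_le_of_le_one_right (by positivity) h5
      have e4 : (c p).1 ^ 2 * Real.log p ^ 2 ≤ 4 / p * Real.log p ^ 2 := mul_le_mul_of_nonneg_right h2 (by positivity)
      have e5 : Real.log p ^ 2 ≤ 2 ^ m * Real.log p := by
        rw [sq]; exact mul_le_mul_of_nonneg_right h3.2 h3.1
      have e6 : 4 / (p : ℝ) * Real.log p ^ 2 ≤ 4 / p * (2 ^ m * Real.log p) :=
        mul_le_mul_of_nonneg_left e5 (by positivity)
      refine e3.trans (e4.trans (e6.trans (le_of_eq ?_)))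
      ring
    refine h1.trans ?_
    rw [← Finset.mul_sum]
    have h2 : ∑ p ∈ WB s m, Real.log p / p ≤ ∑ p ∈ PP (Y m), Real.log p / p :=
      Finset.sum_le_sum_of_subset_of_nonneg (WB_sub_PP s m) fun p hp _ => div_nonneg (hlog p hp).1 (by positivity)
    have h3 : 8 * C ≤ max 1 (8 * C) := le_max_right _ _
    have h4 : (4 : ℝ) ^ m = 2 ^ m * 2 ^ m := by rw [← mul_pow]; norm_num
    rw [h4]
    have h5 : 4 * 2 ^ m * ∑ p ∈ WB s m, Real.log p / p ≤ 4 * 2 ^ m * (2 * C * 2 ^ m) :=
      mul_le_mul_of_nonneg_left (h2.trans hsum) (by positivity)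
    refine h5.trans ?_
    have h6 : 4 * 2 ^ m * (2 * C * 2 ^ m) = 8 * C * ((2 : ℝ) ^ m * 2 ^ m) := by ring
    rw [h6]
    exact mul_le_mul_of_nonneg_right h3 (by positivity)

/-! ### the theorem -/

private noncomputable def Kt (c : ℕ → ℝ × ℝ) (s m : ℕ) (L : ℝ) (T : Finset ℕ) (t : ℝ) : ℝ :=
  (4 ^ m + (1 / 4 ^ m) * Dp (WB s m) (fun p => tc c p t) (fun p => tc' c p t) T ^ 2) +
    (Rp (WB s m) (fun p => tc c p t) T ^ 2 + (2 * Wp (WB s m) (fun p => tc' c p t) T ^ 2 + L))

private lemma continuous_Rt (c : ℕ → ℝ × ℝ) (S T : Finset ℕ) :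
    Continuous (fun t => Rp S (fun p => tc c p t) T) := by
  unfold Rp
  refine (continuous_finsetProd _ fun j _ => ?_)
  exact continuous_const.add (continuous_const.mul (continuous_tc c j))

private lemma continuous_Kt (c : ℕ → ℝ × ℝ) (s m : ℕ) (L : ℝ) (T : Finset ℕ) : Continuous (Kt c s m L T) := by
  unfold Kt
  refine (continuous_const.add (continuous_const.mul ((continuous_Dt c _ T).pow 2))).add ?_
  exact ((continuous_Rt c _ T).pow 2).add ((continuous_const.mul ((continuous_Wt c _ T).pow 2)).add continuous_const)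

theorem smooth_u : ∃ C : ℝ, 0 < C ∧ ∀ (c : ℕ → ℝ × ℝ) (tau : ℕ → ℝ) (om a b rho : ℝ) (s m : ℕ), Adm c → 0 < om → om ≤ 1 / 4 →
    0 ≤ a → a ≤ b → b ≤ 1 → (∀ p : ℕ, |tau p| ≤ 1) → s ≤ m → 0 < rho →
    pr (WB s m) (fun T => ∃ u : ℝ, 0 < |u| ∧ rho / |u| <
      |∫ t in a..b, Real.cos (t * u) * (RR c 1 (WB s m) T t * Gf om (XX c tau (WB s m) T t))|) ≤ C * 16 ^ m / rho := by
  obtain ⟨C1, hC1, h1⟩ := prod_bd
  obtain ⟨C2, hC2, h2⟩ := s1_bd
  refine ⟨100 * C1 * C2 ^ 2, by positivity, ?_⟩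
  intro c tau om a b rho s m hc hom hom1 ha hab hb htau hsm hrho
  set S := WB s m with hS
  have h4 : (1 : ℝ) ≤ 4 ^ m := one_le_pow₀ (by norm_num)
  have h16 : (16 : ℝ) ^ m = 4 ^ m * 4 ^ m := by rw [← mul_pow]; norm_num
  have h416 : (4 : ℝ) ^ m ≤ 16 ^ m := by rw [h16]; nlinarith
  have h24 : ((2 : ℝ) ^ m) ^ 2 = 4 ^ m := by rw [← pow_mul, mul_comm, pow_mul]; norm_num
  set L : ℝ := 8 * C2 ^ 2 * 4 ^ m with hL
  have hRp : ∀ (T : Finset ℕ) (t : ℝ), RR c 1 S T t = Rp S (fun p => tc c p t) T := by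
    intro T t
    unfold RR Rp
    simp
  have hRpos : ∀ (T : Finset ℕ) (t : ℝ), 0 < Rp S (fun p => tc c p t) T := by
    intro T t
    rw [← hRp]
    exact RR_pos hc zero_le_one le_rfl (fun p hp => two_le_WB hp) T t
  -- the pointwise bound
  set B : Finset ℕ → ℝ := fun T => (1 + Rp S (fun p => tc c p a) T ^ 2) + (1 + Rp S (fun p => tc c p b) T ^ 2) +
    ∫ t in a..b, Kt c s m L T t with hB
  have key : ∀ (T : Finset ℕ) (u : ℝ), 0 < |u| →
      |∫ t in a..b, Real.cos (t * u) * (RR c 1 S T t * Gf om (XX c tau S T t))| ≤ B T / |u| := by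
    intro T u hu
    have hd : ∀ t, HasDerivAt (fun t => RR c 1 S T t * Gf om (XX c tau S T t))
        (Dp S (fun p => tc c p t) (fun p => tc' c p t) T * Gf om (XX c tau S T t) +
          RR c 1 S T t * (Gd om (XX c tau S T t) * XX' c tau S T t)) t := by
      intro t
      exact (hasDerivAt_RR c S T t).mul ((hasDerivAt_Gf hom (XX c tau S T t)).comp t (hasDerivAt_XX c tau S T t))
    have hcont : Continuous (fun t => Dp S (fun p => tc c p t) (fun p => tc' c p t) T * Gf om (XX c tau S T t) +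
          RR c 1 S T t * (Gd om (XX c tau S T t) * XX' c tau S T t)) := by
      refine ((continuous_Dt c S T).mul ((continuous_Gf hom.le).comp (continuous_XX c tau S T))).add ?_
      exact (continuous_RR c 1 S T).mul (((continuous_Gd hom.le).comp (continuous_XX c tau S T)).mul
        (continuous_XX' c tau S T))
    have hG0 : ∀ x, 0 < Gf om x := Gf_pos hom
    have hG1 : ∀ x, Gf om x ≤ 1 := Gf_le_one hom.le
    have hle : ∀ t, |Dp S (fun p => tc c p t) (fun p => tc' c p t) T * Gf om (XX c tau S T t) +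
          RR c 1 S T t * (Gd om (XX c tau S T t) * XX' c tau S T t)| ≤ Kt c s m L T t := by
      intro t
      have e1 := hG0 (XX c tau S T t)
      have e2 := hG1 (XX c tau S T t)
      have e3 := Gd_nonneg hom (XX c tau S T t)
      have e4 := Gd_le hom (XX c tau S T t)
      rw [hRp]
      have e5 := hRpos T t
      set D := Dp S (fun p => tc c p t) (fun p => tc' c p t) T with hD
      set R := Rp S (fun p => tc c p t) T with hR
      set X := XX' c tau S T t with hX
      have f1 : |D * Gf om (XX c tau S T t)| ≤ |D| := by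
        rw [abs_mul, abs_of_pos e1]
        exact mul_le_of_le_one_right (abs_nonneg _) e2
      have f2 : |R * (Gd om (XX c tau S T t) * X)| ≤ R * |X| := by
        rw [abs_mul, abs_mul, abs_of_pos e5, abs_of_nonneg e3]
        refine mul_le_mul_of_nonneg_left ?_ e5.le
        exact mul_le_of_le_one_left (abs_nonneg _) (e4.trans e2)
      have f3 := abs_add_le (D * Gf om (XX c tau S T t)) (R * (Gd om (XX c tau S T t) * X))
      have f4 : |D| ≤ 4 ^ m + 1 / 4 ^ m * D ^ 2 := by
        rw [← sq_abs D]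
        have hx := abs_nonneg D
        have g1 : (4 : ℝ) ^ m * (1 / 4 ^ m * |D| ^ 2) = |D| ^ 2 := by field_simp
        have g2 : 0 ≤ 1 / (4 : ℝ) ^ m * |D| ^ 2 := by positivity
        have g3 : 0 ≤ (4 : ℝ) ^ m := by positivity
        nlinarith [sq_nonneg ((4 : ℝ) ^ m - 1 / 4 ^ m * |D| ^ 2)]
      have f5 : R * |X| ≤ R ^ 2 + X ^ 2 := by
        rw [← sq_abs X]
        nlinarith [sq_nonneg (R - |X|), mul_nonneg e5.le (abs_nonneg X)]
      have f6 : X ^ 2 ≤ 2 * Wp S (fun p => tc' c p t) T ^ 2 + L := by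
        have g1 : |∑ p ∈ S, tau p * (tc c p t * tc' c p t)| ≤ C2 * 2 ^ m := by
          refine (Finset.abs_sum_le_sum_abs _ _).trans ((Finset.sum_le_sum fun p _ => ?_).trans (h2 c s m t hc).1)
          rw [abs_mul]
          exact mul_le_of_le_one_left (abs_nonneg _) (htau p)
        have g2 : (∑ p ∈ S, tau p * (tc c p t * tc' c p t)) ^ 2 ≤ C2 ^ 2 * 4 ^ m := by
          rw [← sq_abs, ← h24, ← mul_pow]
          exact pow_le_pow_left₀ (abs_nonneg _) g1 2
        rw [hX]
        unfold XX'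
        rw [hL]
        nlinarith [sq_nonneg (Wp S (fun p => tc' c p t) T + 2 * ∑ p ∈ S, tau p * (tc c p t * tc' c p t))]
      unfold Kt
      rw [← hS, ← hD, ← hR]
      linarith
    refine (ibp hd hcont (continuous_Kt c s m L T) hle hab hu).trans ?_
    refine div_le_div_of_nonneg_right ?_ hu.le
    have hbd : ∀ t, |RR c 1 S T t * Gf om (XX c tau S T t)| ≤ 1 + Rp S (fun p => tc c p t) T ^ 2 := by
      intro t
      rw [hRp, abs_mul, abs_of_pos (hRpos T t), abs_of_pos (hG0 _)]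
      have e5 := hRpos T t
      have e6 : Rp S (fun p => tc c p t) T * Gf om (XX c tau S T t) ≤ Rp S (fun p => tc c p t) T :=
        mul_le_of_le_one_right e5.le (hG1 _)
      nlinarith [sq_nonneg (Rp S (fun p => tc c p t) T - 1)]
    rw [hB]
    have := hbd a
    have := hbd b
    simp only
    linarith
  -- the average
  have hP : ∀ t, av S (fun T => Rp S (fun p => tc c p t) T ^ 2) ≤ C1 * 16 ^ m := by
    intro t
    rw [av_R2]
    exact h1 c s m t hc
  have hK : ∀ t, av S (fun T => Kt c s m L T t) ≤ 60 * C1 * C2 ^ 2 * 16 ^ m := by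
    intro t
    unfold Kt
    rw [← hS, av_add, av_add, av_add, av_add, av_const, av_const, av_mul_left, av_mul_left, av_W2]
    have e1 := hP t
    have e2 := av_D2 S (fun p => tc c p t) (fun p => tc' c p t)
    have e3 := h1 c s m t hc
    have e4 := h2 c s m t hc
    rw [← hS] at e3 e4
    have e5 : (∑ p ∈ S, |tc c p t * tc' c p t|) ^ 2 ≤ C2 ^ 2 * 4 ^ m := by
      rw [← h24, ← mul_pow]
      exact pow_le_pow_left₀ (Finset.sum_nonneg fun p _ => abs_nonneg _) e4.1 2
    have e6 : (∑ p ∈ S, |tc c p t * tc' c p t|) ^ 2 + ∑ p ∈ S, tc' c p t ^ 2 ≤ 2 * C2 ^ 2 * 4 ^ m := by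
      have : C2 ≤ C2 ^ 2 := by nlinarith
      nlinarith [e4.2]
    have e7 : av S (fun T => Dp S (fun p => tc c p t) (fun p => tc' c p t) T ^ 2) ≤
        (C1 * 16 ^ m) * (2 * C2 ^ 2 * 4 ^ m) := by
      refine e2.trans ?_
      exact mul_le_mul e3 e6 (add_nonneg (sq_nonneg _) (Finset.sum_nonneg fun p _ => sq_nonneg _)) (by positivity)
    have e8 : 1 / (4 : ℝ) ^ m * av S (fun T => Dp S (fun p => tc c p t) (fun p => tc' c p t) T ^ 2) ≤
        2 * C1 * C2 ^ 2 * 16 ^ m := by
      have := mul_le_mul_of_nonneg_left e7 (by positivity : (0 : ℝ) ≤ 1 / 4 ^ m)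
      refine this.trans (le_of_eq ?_)
      field_simp
    have hC21 : 1 ≤ C2 ^ 2 := one_le_pow₀ hC2
    have hCC : C2 ≤ C2 ^ 2 := by nlinarith
    have hCC1 : C2 ^ 2 ≤ C1 * C2 ^ 2 := by nlinarith
    have hCC2 : C1 ≤ C1 * C2 ^ 2 := by nlinarith
    have h16p : (0 : ℝ) < 16 ^ m := by positivity
    have t1 : (4 : ℝ) ^ m ≤ C1 * C2 ^ 2 * 16 ^ m := by nlinarith
    have t2 : C2 * 4 ^ m ≤ C1 * C2 ^ 2 * 16 ^ m := by
      exact mul_le_mul (by linarith) h416 (by positivity) (by positivity)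
    have t3 : C1 * 16 ^ m ≤ C1 * C2 ^ 2 * 16 ^ m := mul_le_mul_of_nonneg_right hCC2 h16p.le
    have t4 : L ≤ 8 * (C1 * C2 ^ 2 * 16 ^ m) := by
      rw [hL]
      have : C2 ^ 2 * 4 ^ m ≤ C1 * C2 ^ 2 * 16 ^ m := mul_le_mul hCC1 h416 (by positivity) (by positivity)
      linarith
    have t5 := e4.2
    nlinarith
  have hBav : av S B ≤ 100 * C1 * C2 ^ 2 * 16 ^ m := by
    rw [hB, av_add, av_add, av_add, av_add, av_const, av_ival S a b _ (fun T => continuous_Kt c s m L T)]
    have e1 := hP a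
    have e2 := hP b
    have e3 : ∫ t in a..b, av S (fun T => Kt c s m L T t) ≤ ∫ t in a..b, 60 * C1 * C2 ^ 2 * 16 ^ m := by
      refine intervalIntegral.integral_mono_on hab ?_ ?_ fun t _ => hK t
      · refine Continuous.intervalIntegrable ?_ a b
        unfold av
        exact (continuous_finsetSum _ fun T _ => continuous_Kt c s m L T).div_const _
      · exact continuous_const.intervalIntegrable a b
    rw [intervalIntegral.integral_const, smul_eq_mul] at e3
    have e4 : (b - a) * (60 * C1 * C2 ^ 2 * 16 ^ m) ≤ 60 * C1 * C2 ^ 2 * 16 ^ m :=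
      mul_le_of_le_one_left (by positivity) (by linarith)
    have hC21 : 1 ≤ C2 ^ 2 := one_le_pow₀ hC2
    have hCC2 : C1 ≤ C1 * C2 ^ 2 := by nlinarith
    have h16p : (1 : ℝ) ≤ 16 ^ m := one_le_pow₀ (by norm_num)
    have t3 : C1 * 16 ^ m ≤ C1 * C2 ^ 2 * 16 ^ m := mul_le_mul_of_nonneg_right hCC2 (by linarith)
    have t4 : (1 : ℝ) ≤ C1 * C2 ^ 2 * 16 ^ m := by
      have : 1 ≤ C1 * C2 ^ 2 := by nlinarith
      nlinarith
    linarith
  have hBnn : ∀ T ⊆ S, 0 ≤ B T := by
    intro T _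
    rw [hB]
    have : 0 ≤ ∫ t in a..b, Kt c s m L T t := by
      refine intervalIntegral.integral_nonneg hab fun t _ => ?_
      unfold Kt
      rw [hL]
      positivity
    positivity
  refine le_trans (pr_mono ?_) (markov hBnn hrho hBav)
  rintro T _ ⟨u, hu, hlt⟩
  have h5 := hlt.trans_le (key T u hu)
  exact ((div_lt_div_iff_of_pos_right hu).1 h5).le

end Pool.Agent.Helper96.IT
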