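import Pool.Agent.Helper96.IT.Stage1
import Pool.Agent.Helper96.IT.Stage2
import Pool.Agent.Helper96.IT.ConvD
import Pool.Agent.Helper96.IT.ConvA
import Pool.Agent.Helper96.IT.Smooth
import Pool.Agent.Helper96.IT.Low
import Pool.Agent.Helper96.IT.Asm
import Pool.Agent.Helper96.CM.Par

/-!
# Project IT (port of CM) (MP_a499ba_nt). CM11: the theorem
-/

set_option autoImplicit false

namespace Pool.Agent.Helper96.IT

open Finset Pool.Agent.Helper5.RM Pool.Agent.Helper96.AF Pool.Agent.Helper96.CM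

theorem chaos_lower (A a b δ : ℝ) (ha : 0 < a) (hab : a < b) (hb : b ≤ 1) (hδ : 0 < δ) : ∃ K0 : ℕ, ∀ K : ℕ, K0 ≤ K →
    ∀ c : ℕ → ℝ × ℝ, Adm c → Th A a c → ∀ U : Finset ℝ, U.card ≤ 4 ^ K → (∀ u ∈ U, (2 : ℝ) ^ ((K : ℝ) / 16) ≤ |u|) →
    pr (PP (Y K)) (fun T => ∃ u ∈ U, ∫ t in a..b, (1 - Real.cos (t * u)) * dc c (PP (Y K)) T t <
      (K : ℝ) ^ (-(1 / 2) - δ)) ≤ 1 / (K : ℝ) ^ 2 := by
  set d := min δ (1 / 2) with hd
  have hd0 : 0 < d := lt_min hδ (by norm_num)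
  have hd1 : d ≤ 1 / 2 := min_le_right _ _
  have hdδ : d ≤ δ := min_le_left _ _
  obtain ⟨c0, hc0, N0, s1⟩ := stage1 A a b ha hab hb
  obtain ⟨C2, hC2, s2⟩ := stage2 A a b ha hab hb
  obtain ⟨Cd, hCd, sd⟩ := convert_det A a b hab hb
  obtain ⟨Ca, hCa, sa⟩ := convert_av A a b ha hab hb
  obtain ⟨Cs, hCs, ss⟩ := smooth_u
  set q := ⌈64 / d⌉₊ with hq
  obtain ⟨CL, hCL, sl⟩ := low q
  set al := min 1 (1 / CL) with hal
  have hal0 : 0 < al := lt_min one_pos (by positivity)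
  have hal1 : al ≤ 1 := min_le_left _ _
  have hCLa : CL * al ≤ 1 := by
    have := mul_le_mul_of_nonneg_left (min_le_right 1 (1 / CL)) hCL.le
    rwa [mul_one_div_cancel hCL.ne'] at this
  have hq16 : 16 ≤ d / 4 * q := by
    have h1 : 64 / d ≤ q := Nat.le_ceil _
    rw [div_le_iff₀ hd0] at h1
    linarith
  obtain ⟨K0, hK0⟩ := params hal0 hal1 hd0 hd1 hc0 hCd hCa hCs hC2 hCL hCLa N0 q hq16
  refine ⟨K0, fun K hK c hc hTh U hU hu => ?_⟩
  obtain ⟨s, n, gam, om, c1, hs2, hN, hn4, hsn, hK1, hg0, hg1, hg2, hn3, hom, hom1, hc1, b1, b2, b3, b4, q1, q2, q3, q4, q5⟩ := hK0 K hK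
  have hx : (1 : ℝ) ≤ K := by exact_mod_cast hK1
  have hx0 : (0 : ℝ) < K := by linarith
  have hn4' : (4 : ℝ) ≤ n := by exact_mod_cast hn4
  have hn0 : (0 : ℝ) < n := by linarith
  have hom4 : (1 : ℝ) / n ≤ 1 / 4 := by
    rw [div_le_div_iff₀ hn0 (by norm_num)]
    linarith
  have hsm : s ≤ s + n := by omega
  have ecast : ((s + n : ℕ) : ℝ) - s = n := by push_cast; ring
  have hrho : (0 : ℝ) < 2 ^ ((K : ℝ) / 32) := Real.rpow_pos_of_pos (by norm_num) _
  have hmu : 0 ≤ 1 / Real.sqrt n := by positivity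
  have h1 := s1 c hc hTh gam hg0.le hg1 s n hs2 hN hn3
  have hd' := fun T => sd c gam om (1 / n) (1 / Real.sqrt n) s (s + n) hc hTh hg0 hg1 hom hom1 hom4 hmu hs2 hsm
    (by rw [ecast]; exact hg2) T
  have h2 : pr (WB s (s + n)) (fun T => (K : ℝ) ^ 4 ≤ ∫ t in a..b, RR c (1 - gam) (WB s (s + n)) T t *
      Real.exp (1 / Real.sqrt n * XX c (fun _ => 1 - gam) (WB s (s + n)) T t)) ≤ 1 / (5 * (K : ℝ) ^ 2) := by
    refine le_trans ?_ q2
    refine markov (fun T _ => ?_) (by positivity) ?_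
    · refine intervalIntegral.integral_nonneg hab.le fun t _ => ?_
      exact mul_nonneg (RR_pos hc (by linarith) (by linarith) (fun p hp => two_le_WB hp) T t).le (Real.exp_pos _).le
    · have := sa c (1 - gam) (1 / Real.sqrt n) s (s + n) hc hTh (by linarith) (by linarith) hsm
      rw [ecast] at this
      exact this
  have h3 := ss c (fun _ => 1 - gam) om a b (2 ^ ((K : ℝ) / 32)) s (s + n) hc hom (hom1.trans hom4) ha.le hab.le hb
    (fun p => by rw [abs_le]; constructor <;> linarith) hsm hrho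
  have h4 : ∀ u ∈ U, pr (WB s K) (fun T => c1 ≤ FF c (fun p => if p ≤ Y (s + n) then 1 - gam else 1) 1 om a b
        (fun t => 1 - Real.cos (t * u)) (WB s (s + n)) T ∧
      FF c (fun p => if p ≤ Y (s + n) then 1 - gam else 1) 1 om a b (fun t => 1 - Real.cos (t * u)) (WB s K) T < c1 / 16) ≤
      2 * K * Real.exp (-(Real.sqrt (c1 / Real.exp (-(2 * Real.log 2 * gam * n))) / (C2 * K))) := by
    intro u hu'
    have := s2 c (fun p => if p ≤ Y (s + n) then 1 - gam else 1) gam om c1 (fun t => 1 - Real.cos (t * u)) s (s + n) K hc hTh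
      hg0.le hg1 hom (hom1.trans hom4) (by fun_prop)
      (fun t => ⟨by linarith [Real.cos_le_one (t * u)], by linarith [Real.neg_one_le_cos (t * u)]⟩) hs2 hsm hsn
      (fun p hp => if_pos hp) (fun p hp => if_neg (by omega)) b2 hc1 (by rw [ecast]; exact b3)
    rw [ecast] at this
    exact this
  have h5 := sl c a b ((K : ℝ) ^ 4) s K hc ha.le hab.le hb (hsm.trans hsn) (by positivity)
  have main := assemble (q := q) (h := (K : ℝ) ^ (-(d / 4))) (H5 := (K : ℝ) ^ 4) (c0 := c0 / n) (c1 := c1) (U := U) hab.le hc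
    hsm hsn hom (Real.rpow_pos_of_pos hx0 _) ?_ (by positivity) (h1.trans q1) hd' h2 (h3.trans q3) h4 (h5.trans q5)
  · refine le_trans (pr_mono ?_) (main.trans ?_)
    · rintro T hT ⟨u, hu1, hu2⟩
      refine ⟨u, hu1, hu2.trans_le (le_trans ?_ b4)⟩
      exact Real.rpow_le_rpow_of_exponent_le hx (by linarith)
    · have e1 : (U.card : ℝ) * (2 * K * Real.exp (-(Real.sqrt (c1 / Real.exp (-(2 * Real.log 2 * gam * n))) / (C2 * K)))) ≤
          1 / (5 * (K : ℝ) ^ 2) := by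
        refine le_trans (mul_le_mul_of_nonneg_right ?_ (by positivity)) q4
        exact_mod_cast hU
      have e2 : (1 : ℝ) / (K : ℝ) ^ 2 = 5 * (1 / (5 * (K : ℝ) ^ 2)) := by
        field_simp
      linarith
  · intro u hu'
    have h6 := hu u hu'
    have h7 : (0 : ℝ) < 2 ^ ((K : ℝ) / 16) := Real.rpow_pos_of_pos (by norm_num) _
    refine ⟨h7.trans_le h6, le_trans ?_ b1⟩
    have := div_le_div_of_nonneg_left hrho.le h7 h6
    linarith

end Pool.Agent.Helper96.IT
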