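import Pool.Agent.Helper96.IT.Defs
import Pool.Agent.Helper96.AF.E1c

/-!
# Project IT (port of CM) (MP_a499ba_nt). CM3c: sampling inequality
-/

set_option autoImplicit false

namespace Pool.Agent.Helper96.IT

open Finset Pool.Agent.Helper5.RM Pool.Agent.Helper96.AF Pool.Agent.Helper96.CM

/-- the integral of a shifted cosine against the weight -/
private lemma int_shift99 (w θ : ℝ) :
    MeasureTheory.Integrable (fun t => Real.cos (w * t - θ) * ww t) ∧
      ∫ t, Real.cos (w * t - θ) * ww t = Real.cos θ * Real.exp (-(|w| / 2)) := by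
  have hs : MeasureTheory.Integrable (fun t => Real.sin (w * t) * ww t) := by
    have h1 : MeasureTheory.Integrable (fun t => Real.cos (0 * t) * ww t) := integrable_cos_ww 0
    refine h1.mono' ((by fun_prop : Continuous fun t : ℝ => Real.sin (w * t)).mul continuous_ww).aestronglyMeasurable ?_
    refine Filter.Eventually.of_forall fun t => ?_
    have hw : 0 ≤ ww t := by unfold ww; positivity
    rw [Real.norm_eq_abs, abs_mul, abs_of_nonneg hw, zero_mul, Real.cos_zero]
    exact mul_le_mul_of_nonneg_right (Real.abs_sin_le_one _) hw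
  have e : ∀ t, Real.cos (w * t - θ) * ww t = Real.cos θ * (Real.cos (w * t) * ww t) + Real.sin θ * (Real.sin (w * t) * ww t) := by
    intro t
    rw [Real.cos_sub]
    ring
  have h0 : ∫ t, Real.sin (w * t) * ww t = 0 := by
    have h2 : ∫ t, Real.sin (w * t) * ww t = ∫ t, Real.sin (w * (-t)) * ww (-t) :=
      (MeasureTheory.integral_neg_eq_self (fun t => Real.sin (w * t) * ww t) MeasureTheory.volume).symm
    have h3 : ∀ t, Real.sin (w * (-t)) * ww (-t) = -(Real.sin (w * t) * ww t) := by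
      intro t
      rw [mul_neg, Real.sin_neg]
      unfold ww
      rw [neg_sq]
      ring
    simp only [h3, MeasureTheory.integral_neg] at h2
    linarith
  constructor
  · simp only [e]
    exact ((integrable_cos_ww w).const_mul _).add (hs.const_mul _)
  · simp only [e]
    rw [MeasureTheory.integral_add ((integrable_cos_ww w).const_mul _) (hs.const_mul _), MeasureTheory.integral_const_mul,
      MeasureTheory.integral_const_mul, h0, cos_int]
    ring

/-- expansion of the square of a linear combination of the functions `tc c p` -/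
private lemma expand99 (c : ℕ → ℝ × ℝ) (s : Finset ℕ) (A : ℕ → ℝ) (t : ℝ) :
    (∑ p ∈ s, A p * tc c p t) ^ 2 * ww t =
      ∑ p ∈ s, ∑ q ∈ s, (A p * A q * ((c p).1 * (c q).1) / 2) *
        (Real.cos ((Real.log p - Real.log q) * t - ((c p).2 - (c q).2)) * ww t +
          Real.cos ((Real.log p + Real.log q) * t - ((c p).2 + (c q).2)) * ww t) := by
  rw [sq, Finset.sum_mul_sum, Finset.sum_mul]
  refine Finset.sum_congr rfl fun p _ => ?_
  rw [Finset.sum_mul]
  refine Finset.sum_congr rfl fun q _ => ?_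
  have h := Real.two_mul_cos_mul_cos (t * Real.log p - (c p).2) (t * Real.log q - (c q).2)
  have e1 : (Real.log p - Real.log q) * t - ((c p).2 - (c q).2) =
      (t * Real.log p - (c p).2) - (t * Real.log q - (c q).2) := by ring
  have e2 : (Real.log p + Real.log q) * t - ((c p).2 + (c q).2) =
      (t * Real.log p - (c p).2) + (t * Real.log q - (c q).2) := by ring
  rw [e1, e2]
  unfold tc
  linear_combination (A p * A q * ((c p).1 * (c q).1) / 2) * ww t * h

private lemma int_expand99 (c : ℕ → ℝ × ℝ) (s : Finset ℕ) (A : ℕ → ℝ) :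
    MeasureTheory.Integrable (fun t => (∑ p ∈ s, A p * tc c p t) ^ 2 * ww t) := by
  simp only [expand99]
  refine MeasureTheory.integrable_finsetSum _ fun p _ => MeasureTheory.integrable_finsetSum _ fun q _ => ?_
  exact ((int_shift99 _ _).1.add (int_shift99 _ _).1).const_mul _

private lemma val_expand99 (c : ℕ → ℝ × ℝ) (s : Finset ℕ) (A : ℕ → ℝ) :
    ∫ t, (∑ p ∈ s, A p * tc c p t) ^ 2 * ww t =
      ∑ p ∈ s, ∑ q ∈ s, (A p * A q * ((c p).1 * (c q).1) / 2) *
        (Real.cos ((c p).2 - (c q).2) * Real.exp (-(|Real.log p - Real.log q| / 2)) +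
          Real.cos ((c p).2 + (c q).2) * Real.exp (-(|Real.log p + Real.log q| / 2))) := by
  simp only [expand99]
  rw [MeasureTheory.integral_finsetSum]
  · refine Finset.sum_congr rfl fun p _ => ?_
    rw [MeasureTheory.integral_finsetSum]
    · refine Finset.sum_congr rfl fun q _ => ?_
      rw [MeasureTheory.integral_const_mul, MeasureTheory.integral_add (int_shift99 _ _).1 (int_shift99 _ _).1,
        (int_shift99 _ _).2, (int_shift99 _ _).2]
    · intro q _
      exact ((int_shift99 _ _).1.add (int_shift99 _ _).1).const_mul _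
  · intro p _
    refine MeasureTheory.integrable_finsetSum _ fun q _ => ?_
    exact ((int_shift99 _ _).1.add (int_shift99 _ _).1).const_mul _

/-- the kernel bound -/
private lemma kernel99 {c : ℕ → ℝ × ℝ} (hc : Adm c) (A : ℕ → ℝ) {p q : ℕ} (hp : 1 ≤ p) (hq : 1 ≤ q) :
    (A p * A q * ((c p).1 * (c q).1) / 2) *
        (Real.cos ((c p).2 - (c q).2) * Real.exp (-(|Real.log p - Real.log q| / 2)) +
          Real.cos ((c p).2 + (c q).2) * Real.exp (-(|Real.log p + Real.log q| / 2))) ≤
      4 * (|A p| * |A q| / max (p : ℝ) q) := by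
  have hp1 : (1 : ℝ) ≤ p := by exact_mod_cast hp
  have hq1 : (1 : ℝ) ≤ q := by exact_mod_cast hq
  have hp0 : (0 : ℝ) < p := by linarith
  have hq0 : (0 : ℝ) < q := by linarith
  have lp : 0 ≤ Real.log p := Real.log_nonneg hp1
  have lq : 0 ≤ Real.log q := Real.log_nonneg hq1
  set E := Real.exp (-(|Real.log p - Real.log q| / 2)) with hE
  have h1 : Real.exp (-(|Real.log p + Real.log q| / 2)) ≤ E := by
    refine Real.exp_le_exp.2 ?_
    have : |Real.log p - Real.log q| ≤ |Real.log p + Real.log q| := by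
      rw [abs_of_nonneg (add_nonneg lp lq), abs_le]
      constructor <;> linarith
    linarith
  have hcs : ∀ r : ℕ, 1 ≤ r → (c r).1 ≤ 2 * (Real.sqrt r)⁻¹ := by
    intro r hr
    have hr1 : (1 : ℝ) ≤ r := by exact_mod_cast hr
    have hs : 0 < Real.sqrt r := Real.sqrt_pos.2 (by linarith)
    refine (hc r).2.trans ?_
    rw [div_le_iff₀ (by linarith)]
    have h3 : Real.sqrt r * Real.sqrt r = r := Real.mul_self_sqrt (by linarith)
    have h4 : 2 * (Real.sqrt r)⁻¹ * (r + 1) = 2 * Real.sqrt r + 2 * (Real.sqrt r)⁻¹ := by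
      nth_rewrite 2 [← h3]
      field_simp
    rw [h4]
    have := inv_pos.2 hs
    linarith
  have hE0 : 0 < E := Real.exp_pos _
  set E' := Real.exp (-(|Real.log p + Real.log q| / 2)) with hE'
  have hE'0 : 0 < E' := Real.exp_pos _
  have h8 : (c p).1 * (c q).1 ≤ 4 * ((Real.sqrt p)⁻¹ * (Real.sqrt q)⁻¹) := by
    calc (c p).1 * (c q).1 ≤ (2 * (Real.sqrt p)⁻¹) * (2 * (Real.sqrt q)⁻¹) :=
          mul_le_mul (hcs p hp) (hcs q hq) (hc q).1 (by positivity)
      _ = _ := by ring
  have h9 := exp_max p q hp hq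
  rw [← hE] at h9
  have hm : ((max p q : ℕ) : ℝ) = max (p : ℝ) q := by push_cast; rfl
  rw [hm] at h9
  have h10 : 0 ≤ |A p| * |A q| := by positivity
  have h11 : 0 ≤ (c p).1 * (c q).1 := mul_nonneg (hc p).1 (hc q).1
  set X := Real.cos ((c p).2 - (c q).2) * E + Real.cos ((c p).2 + (c q).2) * E' with hX
  have hXb : |X| ≤ E + E := by
    have g1 := Real.abs_cos_le_one ((c p).2 - (c q).2)
    have g2 := Real.abs_cos_le_one ((c p).2 + (c q).2)
    rw [hX]
    refine (abs_add_le _ _).trans ?_
    rw [abs_mul, abs_mul, abs_of_pos hE0, abs_of_pos hE'0]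
    have g3 := mul_le_mul_of_nonneg_right g1 hE0.le
    have g4 := mul_le_mul_of_nonneg_right g2 hE'0.le
    linarith
  have h5 : (A p * A q * ((c p).1 * (c q).1) / 2) * X ≤ (|A p| * |A q| * ((c p).1 * (c q).1) / 2) * (E + E) := by
    refine (le_abs_self _).trans ?_
    rw [abs_mul, abs_div, abs_mul, abs_mul, abs_of_nonneg h11, abs_of_pos (by norm_num : (0 : ℝ) < 2)]
    exact mul_le_mul_of_nonneg_left hXb (by positivity)
  refine h5.trans ?_
  calc (|A p| * |A q| * ((c p).1 * (c q).1) / 2) * (E + E) = |A p| * |A q| * (((c p).1 * (c q).1) * E) := by ring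
    _ ≤ |A p| * |A q| * ((4 * ((Real.sqrt p)⁻¹ * (Real.sqrt q)⁻¹)) * E) :=
        mul_le_mul_of_nonneg_left (mul_le_mul_of_nonneg_right h8 hE0.le) h10
    _ = |A p| * |A q| * (4 * ((Real.sqrt p)⁻¹ * (Real.sqrt q)⁻¹ * E)) := by ring
    _ = 4 * (|A p| * |A q| / max (p : ℝ) q) := by rw [h9]; ring

theorem sampling : ∃ C : ℝ, 0 < C ∧ ∀ (c : ℕ → ℝ × ℝ), Adm c → ∀ a b : ℝ, -1 ≤ a → a ≤ b → b ≤ 1 →
    ∀ k : ℝ → ℝ, Continuous k → ∀ l : ℕ,
    ∑ p ∈ BL l, (∫ t in a..b, tc c p t * k t) ^ 2 ≤ C / 2 ^ l * ∫ t in a..b, k t ^ 2 := by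
  obtain ⟨C0, hC0, hS⟩ := schur
  have hpi := Real.pi_pos
  refine ⟨10 * Real.pi * C0, by positivity, ?_⟩
  intro c hc a b ha hab hb k hk l
  set A : ℕ → ℝ := fun p => ∫ t in a..b, tc c p t * k t with hA
  set g : ℝ → ℝ := fun t => ∑ p ∈ BL l, A p * tc c p t with hg
  have hgc : Continuous g := by
    refine continuous_finsetSum _ fun p _ => ?_
    exact continuous_const.mul (continuous_tc c p)
  set B : ℝ := 10 * Real.pi * C0 / 2 ^ l with hB
  have hB0 : 0 < B := by positivity
  -- the sum as an integral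
  have h1 : ∑ p ∈ BL l, A p ^ 2 = ∫ t in a..b, g t * k t := by
    have e1 : ∀ t, g t * k t = ∑ p ∈ BL l, A p * (tc c p t * k t) := by
      intro t
      rw [hg, Finset.sum_mul]
      exact Finset.sum_congr rfl fun p _ => by ring
    simp only [e1]
    rw [intervalIntegral.integral_finsetSum]
    · refine Finset.sum_congr rfl fun p _ => ?_
      rw [intervalIntegral.integral_const_mul, sq]
    · intro p _
      exact (continuous_const.mul ((continuous_tc c p).mul hk)).intervalIntegrable _ _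
  -- arithmetic and geometric mean
  have h2 : ∫ t in a..b, g t * k t ≤ 1 / (2 * B) * (∫ t in a..b, g t ^ 2) + B / 2 * ∫ t in a..b, k t ^ 2 := by
    have e1 : 1 / (2 * B) * (∫ t in a..b, g t ^ 2) + B / 2 * ∫ t in a..b, k t ^ 2 =
        ∫ t in a..b, (1 / (2 * B) * g t ^ 2 + B / 2 * k t ^ 2) := by
      rw [intervalIntegral.integral_add, intervalIntegral.integral_const_mul, intervalIntegral.integral_const_mul]
      · exact (continuous_const.mul (hgc.pow 2)).intervalIntegrable _ _
      · exact (continuous_const.mul (hk.pow 2)).intervalIntegrable _ _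
    rw [e1]
    refine intervalIntegral.integral_mono_on hab ?_ ?_ fun t _ => ?_
    · exact (hgc.mul hk).intervalIntegrable _ _
    · exact ((continuous_const.mul (hgc.pow 2)).add (continuous_const.mul (hk.pow 2))).intervalIntegrable _ _
    · have h3 : 1 / (2 * B) * g t ^ 2 + B / 2 * k t ^ 2 - g t * k t = (g t - B * k t) ^ 2 / (2 * B) := by
        field_simp
        ring
      have h4 : 0 ≤ (g t - B * k t) ^ 2 / (2 * B) := by positivity
      linarith
  -- the bound for the square of g
  have h3 : ∫ t in a..b, g t ^ 2 ≤ B * ∑ p ∈ BL l, A p ^ 2 := by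
    have hcw : Continuous fun t => g t ^ 2 * ww t := (hgc.pow 2).mul continuous_ww
    have e1 : ∫ t in a..b, g t ^ 2 ≤ ∫ t in a..b, (5 / 2 * Real.pi) * (g t ^ 2 * ww t) := by
      refine intervalIntegral.integral_mono_on hab ((hgc.pow 2).intervalIntegrable _ _)
        ((continuous_const.mul hcw).intervalIntegrable _ _) fun t ht => ?_
      have h4 : 1 ≤ (5 / 2 * Real.pi) * ww t := by
        unfold ww
        rw [mul_one_div, le_div_iff₀ (by positivity), one_mul]
        have h5 : t ^ 2 ≤ 1 := by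
          rw [sq_le_one_iff_abs_le_one, abs_le]
          exact ⟨by linarith [ht.1], by linarith [ht.2]⟩
        nlinarith
      have h6 : 0 ≤ g t ^ 2 := sq_nonneg _
      calc g t ^ 2 = g t ^ 2 * 1 := by ring
        _ ≤ g t ^ 2 * ((5 / 2 * Real.pi) * ww t) := mul_le_mul_of_nonneg_left h4 h6
        _ = _ := by ring
    have e2 : ∫ t in a..b, (5 / 2 * Real.pi) * (g t ^ 2 * ww t) ≤ (5 / 2 * Real.pi) * ∫ t, g t ^ 2 * ww t := by
      rw [intervalIntegral.integral_const_mul, intervalIntegral.integral_of_le hab]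
      refine mul_le_mul_of_nonneg_left ?_ (by positivity)
      refine MeasureTheory.setIntegral_le_integral (int_expand99 c (BL l) A) ?_
      refine Filter.Eventually.of_forall fun t => ?_
      have : 0 ≤ ww t := by unfold ww; positivity
      exact mul_nonneg (sq_nonneg _) this
    have e3 : ∫ t, g t ^ 2 * ww t ≤ 4 * (C0 / 2 ^ l * ∑ p ∈ BL l, A p ^ 2) := by
      have h4 := val_expand99 c (BL l) A
      refine (le_of_eq h4).trans ?_
      refine le_trans ?_ (mul_le_mul_of_nonneg_left (hS l A) (by norm_num))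
      rw [Finset.mul_sum]
      refine Finset.sum_le_sum fun p hp => ?_
      rw [Finset.mul_sum]
      refine Finset.sum_le_sum fun q hq => ?_
      have hp1 : 1 ≤ p := (mem_BL.1 hp).1.one_lt.le
      have hq1 : 1 ≤ q := (mem_BL.1 hq).1.one_lt.le
      exact kernel99 hc A hp1 hq1
    calc ∫ t in a..b, g t ^ 2 ≤ (5 / 2 * Real.pi) * ∫ t, g t ^ 2 * ww t := e1.trans e2
      _ ≤ (5 / 2 * Real.pi) * (4 * (C0 / 2 ^ l * ∑ p ∈ BL l, A p ^ 2)) :=
          mul_le_mul_of_nonneg_left e3 (by positivity)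
      _ = B * ∑ p ∈ BL l, A p ^ 2 := by rw [hB]; ring
  have h4 : ∑ p ∈ BL l, A p ^ 2 ≤ 1 / (2 * B) * (B * ∑ p ∈ BL l, A p ^ 2) + B / 2 * ∫ t in a..b, k t ^ 2 := by
    refine (le_of_eq h1).trans (h2.trans ?_)
    have h5 : 1 / (2 * B) * (∫ t in a..b, g t ^ 2) ≤ 1 / (2 * B) * (B * ∑ p ∈ BL l, A p ^ 2) :=
      mul_le_mul_of_nonneg_left h3 (by positivity)
    linarith
  have h5 : 1 / (2 * B) * (B * ∑ p ∈ BL l, A p ^ 2) = (∑ p ∈ BL l, A p ^ 2) / 2 := by
    field_simp
  rw [h5] at h4
  linarith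

end Pool.Agent.Helper96.IT
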