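import Pool.Agent.Helper96.IT.Defs

/-!
# Project IT (port of CM) (MP_a499ba_nt). CM6a: sums of squares and cubes
-/

set_option autoImplicit false

namespace Pool.Agent.Helper96.IT

open Finset Pool.Agent.Helper5.RM Pool.Agent.Helper96.AF Pool.Agent.Helper96.CM

theorem theta_up (A a : ℝ) : ∃ C : ℝ, 0 < C ∧ ∀ c : ℕ → ℝ × ℝ, Adm c → Th A a c → ∀ s l : ℕ, s ≤ l →
    ∀ t ∈ Set.Icc a 1, ∑ p ∈ WB s l, tc c p t ^ 2 ≤ 2 * Real.log 2 * ((l : ℝ) - s) + C := by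
  refine ⟨|A| + 1, by positivity, fun c _ h s l hsl t ht => ?_⟩
  have h1 := h s l hsl t ht
  have h2 := le_abs_self A
  linarith

theorem cube_sum : ∃ C : ℝ, 0 < C ∧ ∀ c : ℕ → ℝ × ℝ, Adm c → ∀ s l : ℕ, ∀ t : ℝ,
    ∑ p ∈ WB s l, |tc c p t| ^ 3 ≤ C := by
  have hs : Summable (fun n : ℕ => 1 / (n : ℝ) ^ (3 / 2 : ℝ)) := Real.summable_one_div_nat_rpow.2 (by norm_num)
  have h0 : 0 ≤ ∑' n : ℕ, 1 / (n : ℝ) ^ (3 / 2 : ℝ) := tsum_nonneg fun n => by positivity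
  refine ⟨8 * (∑' n : ℕ, 1 / (n : ℝ) ^ (3 / 2 : ℝ)) + 1, by positivity, fun c hc s l t => ?_⟩
  have e1 : ∀ p ∈ WB s l, |tc c p t| ^ 3 ≤ 8 * (1 / (p : ℝ) ^ (3 / 2 : ℝ)) := by
    intro p hp
    have hp2 := two_le_WB hp
    have hp0 : (0 : ℝ) < p := by exact_mod_cast (by omega : 0 < p)
    have h1 := pow_le_pow_left₀ (abs_nonneg _) (abs_tc_le' hc (by omega : 1 ≤ p) t) 3
    refine h1.trans (le_of_eq ?_)
    rw [div_pow, Real.sqrt_eq_rpow, ← Real.rpow_natCast ((p : ℝ) ^ (1 / 2 : ℝ)) 3, ← Real.rpow_mul hp0.le]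
    norm_num
    ring
  refine (Finset.sum_le_sum e1).trans ?_
  rw [← Finset.mul_sum]
  have := hs.sum_le_tsum (WB s l) (fun n _ => by positivity)
  linarith

end Pool.Agent.Helper96.IT
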